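import Mathlib

/-!
# Kobayashi geometry: definitions

Definitions used in the statement of `MP_4f7452_an`.
-/

open Set Filter Topology MeasureTheory Metric
open scoped ENNReal ComplexConjugate

namespace Pool.Agent.H25.Vis

variable {E : Type*} [NormedAddCommGroup E] [NormedSpace ℂ E]

/-- `φ` is a holomorphic disc in `Ω`: a holomorphic map from the open unit disc to `Ω`. -/
def IsDisc (Ω : Set E) (φ : ℂ → E) : Prop :=
  DifferentiableOn ℂ φ (ball 0 1) ∧ MapsTo φ (ball 0 1) Ω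

/-- The Poincaré distance of the open unit disc,
`artanh (|a - b| / |1 - conj a * b|)`. -/
noncomputable def poincareDist (a b : ℂ) : ℝ :=
  Real.artanh (‖a - b‖ / ‖1 - conj a * b‖)

/-- `DiscChain Ω z w L`: there is a chain of holomorphic discs in `Ω` from `z` to `w` whose total
Poincaré length is `L`, that is, points `z = p₀, p₁, …, pₙ = w` of `Ω`, holomorphic discs `φⱼ`
in `Ω` and points `aⱼ`, `bⱼ` of the unit disc with `φⱼ aⱼ = pⱼ₋₁`, `φⱼ bⱼ = pⱼ` and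
`L = ∑ poincareDist aⱼ bⱼ`. -/
inductive DiscChain (Ω : Set E) : E → E → ℝ → Prop
  | nil (z : E) (hz : z ∈ Ω) : DiscChain Ω z z 0
  | cons {φ : ℂ → E} {a b : ℂ} {w : E} {L : ℝ} (hφ : IsDisc Ω φ) (ha : a ∈ ball (0 : ℂ) 1)
      (hb : b ∈ ball (0 : ℂ) 1) (h : DiscChain Ω (φ b) w L) :
      DiscChain Ω (φ a) w (poincareDist a b + L)

/-- The Kobayashi distance `k_Ω`: the infimum of the lengths of the chains of holomorphic discs
from `z` to `w`. -/
noncomputable def kobDist (Ω : Set E) (z w : E) : ℝ≥0∞ :=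
  ⨅ (L : ℝ) (_ : DiscChain Ω z w L), ENNReal.ofReal L

/-- The Kobayashi-Royden metric `κ_Ω(z; v)`: the infimum of the `|α|` for which some holomorphic
disc `φ` in `Ω` has `φ 0 = z` and `α • φ' 0 = v`. -/
noncomputable def kobMetric (Ω : Set E) (z v : E) : ℝ≥0∞ :=
  ⨅ (φ : ℂ → E) (α : ℂ) (_ : IsDisc Ω φ ∧ φ 0 = z ∧ α • deriv φ 0 = v), ENNReal.ofReal ‖α‖

/-- The restriction of `γ` to `[a, b]` is a geodesic segment of `Ω`: an absolutely continuous curve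
in `Ω` with `∫_s^t κ_Ω(γ; γ') = k_Ω(γ s, γ t)` for all `a ≤ s ≤ t ≤ b`. -/
structure IsGeodesic (Ω : Set E) (γ : ℝ → E) (a b : ℝ) : Prop where
  ac : AbsolutelyContinuousOnInterval γ a b
  mem : ∀ t ∈ Icc a b, γ t ∈ Ω
  length_eq : ∀ s t : ℝ, a ≤ s → s ≤ t → t ≤ b →
    ∫⁻ r in Icc s t, kobMetric Ω (γ r) (deriv γ r) = kobDist Ω (γ s) (γ t)

/-- The restriction of `γ` to `[0, ∞)` is a geodesic ray of `Ω`. -/
structure IsGeodesicRay (Ω : Set E) (γ : ℝ → E) : Prop where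
  geodesic : ∀ t : ℝ, 0 ≤ t → IsGeodesic Ω γ 0 t
  tendsto_top : Tendsto (fun t => kobDist Ω (γ 0) (γ t)) atTop (𝓝 ∞)

/-- The curve `γ` lands: it has a limit at infinity. -/
def Lands (γ : ℝ → E) : Prop := ∃ p : E, Tendsto γ atTop (𝓝 p)

/-- The points `p`, `q` are strongly visible for `Ω`. -/
def StronglyVisible (Ω : Set E) (p q : E) : Prop :=
  ∃ K : Set E, IsCompact K ∧ K ⊆ Ω ∧ ∀ γ : ℕ → ℝ → E, (∀ k, IsGeodesic Ω (γ k) 0 1) →
    Tendsto (fun k => γ k 0) atTop (𝓝 p) → Tendsto (fun k => γ k 1) atTop (𝓝 q) →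
    ∀ᶠ k in atTop, ∃ s ∈ Ioo (0 : ℝ) 1, γ k s ∈ K

/-- `Ω` is visible: every pair of distinct boundary points is strongly visible. -/
def Visible (Ω : Set E) : Prop :=
  ∀ p ∈ frontier Ω, ∀ q ∈ frontier Ω, p ≠ q → StronglyVisible Ω p q

/-- `Ω` is a bounded convex domain. -/
def BoundedConvexDomain (Ω : Set E) : Prop :=
  IsOpen Ω ∧ Ω.Nonempty ∧ Convex ℝ Ω ∧ Bornology.IsBounded Ω

/-- The space `ℂ²`. -/
abbrev C2 : Type := EuclideanSpace ℂ (Fin 2)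

/-- The domain `{(q, w) ∈ ℂ² : |w| < 1, |q|² < (1 - |w|²) Re q}`. -/
def dom : Set C2 := {z | ‖z 1‖ < 1 ∧ ‖z 0‖ ^ 2 < (1 - ‖z 1‖ ^ 2) * (z 0).re}

end Pool.Agent.H25.Vis
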