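import Mathlib
import Pool.Agent.H25.Vis.Defs

/-!
# Contraction of holomorphic maps to the right half plane
-/

open Set Filter Topology MeasureTheory Metric
open scoped ENNReal ComplexConjugate

namespace Pool.Agent.H25.Vis

/-- A point of the right half plane as a point of the upper half plane. -/
noncomputable def toH (u : ℂ) (hu : 0 < u.re) : UpperHalfPlane := ⟨Complex.I * u, by simpa using hu⟩

/-- The hyperbolic distance (curvature `-1`) of the right half plane. -/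
noncomputable def hd (u v : ℂ) : ℝ := 2 * Real.arsinh (‖u - v‖ / (2 * √(u.re * v.re)))

theorem toH_im (u : ℂ) (hu : 0 < u.re) : (toH u hu).im = u.re := by
  simp [toH, UpperHalfPlane.im]

theorem toH_coe (u : ℂ) (hu : 0 < u.re) : ((toH u hu : UpperHalfPlane) : ℂ) = Complex.I * u := rfl

theorem dist_toH (u v : ℂ) (hu : 0 < u.re) (hv : 0 < v.re) :
    dist ((toH u hu : UpperHalfPlane) : ℂ) (toH v hv : UpperHalfPlane) = ‖u - v‖ := by
  rw [toH_coe, toH_coe, dist_eq_norm, ← mul_sub, norm_mul, Complex.norm_I, one_mul]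

theorem hd_eq (u v : ℂ) (hu : 0 < u.re) (hv : 0 < v.re) : hd u v = dist (toH u hu) (toH v hv) := by
  rw [UpperHalfPlane.dist_eq, hd, toH_im, toH_im, dist_toH]

theorem hd_triangle {u v w : ℂ} (hu : 0 < u.re) (hv : 0 < v.re) (hw : 0 < w.re) :
    hd u w ≤ hd u v + hd v w := by
  rw [hd_eq u w hu hw, hd_eq u v hu hv, hd_eq v w hv hw]
  exact dist_triangle _ _ _

theorem cosh_hd {u v : ℂ} (hu : 0 < u.re) (hv : 0 < v.re) :
    Real.cosh (hd u v) = 1 + ‖u - v‖ ^ 2 / (2 * u.re * v.re) := by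
  rw [hd_eq u v hu hv, UpperHalfPlane.cosh_dist, toH_im, toH_im, dist_toH]

theorem hd_self {u : ℂ} : hd u u = 0 := by simp [hd]

theorem hd_nonneg {u v : ℂ} (hu : 0 < u.re) (hv : 0 < v.re) : 0 ≤ hd u v := by
  rw [hd_eq u v hu hv]; exact dist_nonneg

theorem tanh_half_hd {u v : ℂ} (hu : 0 < u.re) (hv : 0 < v.re) :
    Real.tanh (hd u v / 2) = ‖u - v‖ / ‖u + conj v‖ := by
  rw [hd_eq u v hu hv, UpperHalfPlane.tanh_half_dist, dist_toH]
  congr 1
  rw [toH_coe, toH_coe, dist_eq_norm]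
  have : Complex.I * u - conj (Complex.I * v) = Complex.I * (u + conj v) := by
    rw [map_mul, Complex.conj_I]; ring
  rw [this, norm_mul, Complex.norm_I, one_mul]

/-- `exp (hd u v) + exp (- hd u v) - 2 = |u-v|^2/(Re u Re v)`. -/
theorem exp_hd {u v : ℂ} (hu : 0 < u.re) (hv : 0 < v.re) :
    Real.exp (hd u v) + Real.exp (-hd u v) - 2 = ‖u - v‖ ^ 2 / (u.re * v.re) := by
  have h := cosh_hd hu hv
  rw [Real.cosh_eq] at h
  have h2 : ‖u - v‖ ^ 2 / (2 * u.re * v.re) = ‖u - v‖ ^ 2 / (u.re * v.re) / 2 := by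
    field_simp
  rw [h2] at h
  linarith

theorem re_le_re_mul_exp_hd {u v : ℂ} (hu : 0 < u.re) (hv : 0 < v.re) :
    v.re ≤ u.re * Real.exp (hd u v) := by
  have := UpperHalfPlane.im_le_im_mul_exp_dist (toH v hv) (toH u hu)
  rw [toH_im, toH_im, dist_comm, ← hd_eq u v hu hv] at this
  exact this

/-- Norm comparison in the right half plane. -/
theorem norm_sub_lt_norm_add_conj {u v : ℂ} (hu : 0 < u.re) (hv : 0 < v.re) :
    ‖u - v‖ < ‖u + conj v‖ := by
  rw [← sq_lt_sq₀ (norm_nonneg _) (norm_nonneg _), Complex.sq_norm, Complex.sq_norm,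
    Complex.normSq_apply, Complex.normSq_apply]
  simp only [Complex.sub_re, Complex.sub_im, Complex.add_re, Complex.add_im, Complex.conj_re,
    Complex.conj_im]
  nlinarith [mul_pos hu hv]

theorem add_conj_ne_zero {u v : ℂ} (hu : 0 < u.re) (hv : 0 < v.re) : u + conj v ≠ 0 := by
  intro h
  have := congrArg Complex.re h
  simp at this
  linarith

/-- Schwarz lemma for maps from the disc to the right half plane. -/
theorem schwarz_rhp {f : ℂ → ℂ} (hf : DifferentiableOn ℂ f (ball 0 1))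
    (hpos : ∀ ζ ∈ ball (0 : ℂ) 1, 0 < (f ζ).re) {ζ : ℂ} (hζ : ζ ∈ ball (0 : ℂ) 1) :
    ‖f ζ - f 0‖ / ‖f ζ + conj (f 0)‖ ≤ ‖ζ‖ := by
  have h0 : (0 : ℂ) ∈ ball (0 : ℂ) 1 := by simp
  have h0' := hpos 0 h0
  have key := Complex.norm_le_norm_of_mapsTo_ball (R := 1)
    (f := fun ζ => (f ζ - f 0) / (f ζ + conj (f 0))) (z := ζ) ?_ ?_ ?_ (by simpa using hζ)
  · simpa using key
  · refine DifferentiableOn.div (hf.sub_const _) (hf.add_const _) ?_
    intro z hz
    exact add_conj_ne_zero (hpos z hz) h0'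
  · intro z hz
    rw [mem_closedBall_zero_iff, norm_div]
    exact div_le_one_of_le₀ (norm_sub_lt_norm_add_conj (hpos z hz) h0').le (norm_nonneg _)
  · simp

/-- Infinitesimal Schwarz lemma for maps from the disc to the right half plane. -/
theorem schwarz_rhp_deriv {f : ℂ → ℂ} (hf : DifferentiableOn ℂ f (ball 0 1))
    (hpos : ∀ ζ ∈ ball (0 : ℂ) 1, 0 < (f ζ).re) : ‖deriv f 0‖ ≤ 2 * (f 0).re := by
  have h0 : (0 : ℂ) ∈ ball (0 : ℂ) 1 := by simp
  have h0' := hpos 0 h0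
  have hd0 : DifferentiableAt ℂ f 0 := hf.differentiableAt (ball_mem_nhds _ one_pos)
  have key := Complex.norm_deriv_le_one_of_mapsTo_ball (R := 1) (c := 0)
    (f := fun ζ => (f ζ - f 0) / (f ζ + conj (f 0))) ?_ ?_ one_pos
  · have hder : deriv (fun ζ => (f ζ - f 0) / (f ζ + conj (f 0))) 0 =
        deriv f 0 / (f 0 + conj (f 0)) := by
      have h1 : HasDerivAt (fun ζ => (f ζ - f 0) / (f ζ + conj (f 0)))
          ((deriv f 0 * (f 0 + conj (f 0)) - (f 0 - f 0) * deriv f 0) / (f 0 + conj (f 0)) ^ 2)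
          0 := (hd0.hasDerivAt.sub_const _).div (hd0.hasDerivAt.add_const _)
            (add_conj_ne_zero h0' h0')
      rw [h1.deriv]
      have := add_conj_ne_zero h0' h0'
      field_simp
      ring
    rw [hder, norm_div, Complex.add_conj] at key
    have h2 : ‖((2 * (f 0).re : ℝ) : ℂ)‖ = 2 * (f 0).re := by
      rw [Complex.norm_real, Real.norm_eq_abs, abs_of_pos (by positivity)]
    rw [h2, div_le_one (by positivity)] at key
    exact key
  · refine DifferentiableOn.div (hf.sub_const _) (hf.add_const _) ?_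
    intro z hz
    exact add_conj_ne_zero (hpos z hz) h0'
  · intro z hz
    rw [mem_closedBall, dist_eq_norm]
    simp only [sub_self, zero_div, sub_zero]
    rw [norm_div]
    exact div_le_one_of_le₀ (norm_sub_lt_norm_add_conj (hpos z hz) h0').le (norm_nonneg _)

section Moebius

/-- The Möbius transformation of the disc with `0 ↦ a`. -/
noncomputable def mob (a ζ : ℂ) : ℂ := (ζ + a) / (1 + conj a * ζ)

theorem one_add_ne_zero {a ζ : ℂ} (ha : ‖a‖ < 1) (hζ : ‖ζ‖ < 1) : 1 + conj a * ζ ≠ 0 := by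
  intro h
  have h1 : ‖conj a * ζ‖ < 1 := by
    rw [norm_mul, RCLike.norm_conj]
    nlinarith [norm_nonneg a, norm_nonneg ζ]
  have h2 : conj a * ζ = -1 := by linear_combination h
  rw [h2, norm_neg, norm_one] at h1
  exact lt_irrefl _ h1

theorem one_sub_ne_zero {a ζ : ℂ} (ha : ‖a‖ < 1) (hζ : ‖ζ‖ < 1) : 1 - conj a * ζ ≠ 0 := by
  have := one_add_ne_zero (a := a) (ζ := -ζ) ha (by simpa using hζ)
  simpa [sub_eq_add_neg] using this

theorem normSq_sub_identity (a ζ : ℂ) :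
    ‖1 + conj a * ζ‖ ^ 2 - ‖ζ + a‖ ^ 2 = (1 - ‖a‖ ^ 2) * (1 - ‖ζ‖ ^ 2) := by
  rw [Complex.sq_norm, Complex.sq_norm, Complex.sq_norm, Complex.sq_norm,
    Complex.normSq_apply, Complex.normSq_apply, Complex.normSq_apply, Complex.normSq_apply]
  simp only [Complex.add_re, Complex.add_im, Complex.mul_re, Complex.mul_im, Complex.conj_re,
    Complex.conj_im, Complex.one_re, Complex.one_im]
  ring

theorem mob_mem {a ζ : ℂ} (ha : ‖a‖ < 1) (hζ : ‖ζ‖ < 1) : ‖mob a ζ‖ < 1 := by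
  have hne := one_add_ne_zero ha hζ
  rw [mob, norm_div, div_lt_one (norm_pos_iff.mpr hne),
    ← sq_lt_sq₀ (norm_nonneg _) (norm_nonneg _)]
  have := normSq_sub_identity a ζ
  have h1 : 0 < (1 - ‖a‖ ^ 2) * (1 - ‖ζ‖ ^ 2) := by
    apply mul_pos <;> nlinarith [norm_nonneg a, norm_nonneg ζ]
  linarith

theorem mob_zero (a : ℂ) : mob a 0 = a := by simp [mob]

theorem differentiableOn_mob {a : ℂ} (ha : ‖a‖ < 1) : DifferentiableOn ℂ (mob a) (ball 0 1) := by
  refine DifferentiableOn.div (by fun_prop) (by fun_prop) ?_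
  intro z hz
  exact one_add_ne_zero ha (by simpa using hz)

/-- The point `σ` with `mob a σ = b`. -/
theorem mob_inv {a b : ℂ} (ha : ‖a‖ < 1) (hb : ‖b‖ < 1) :
    mob a ((b - a) / (1 - conj a * b)) = b := by
  have h1 := one_sub_ne_zero ha hb
  have h3 : (1 : ℂ) - conj a * a ≠ 0 := one_sub_ne_zero ha ha
  have h2 : 1 + conj a * ((b - a) / (1 - conj a * b)) = (1 - conj a * a) / (1 - conj a * b) := by
    rw [eq_div_iff h1, add_mul, mul_assoc, div_mul_cancel₀ _ h1]; ring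
  have h4 : (b - a) / (1 - conj a * b) + a = b * (1 - conj a * a) / (1 - conj a * b) := by
    rw [eq_div_iff h1, add_mul, div_mul_cancel₀ _ h1]; ring
  rw [mob, h2, h4, div_div_div_cancel_right₀ h1, mul_div_cancel_right₀ _ h3]

theorem norm_mob_inv_lt {a b : ℂ} (ha : ‖a‖ < 1) (hb : ‖b‖ < 1) :
    ‖(b - a) / (1 - conj a * b)‖ < 1 := by
  have := mob_mem (a := -a) (ζ := b) (by simpa using ha) hb
  simpa [mob, sub_eq_add_neg] using this

end Moebius

/-- Contraction for holomorphic maps from the disc to the right half plane. -/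
theorem hd_le_poincareDist {f : ℂ → ℂ} (hf : DifferentiableOn ℂ f (ball 0 1))
    (hpos : ∀ ζ ∈ ball (0 : ℂ) 1, 0 < (f ζ).re) {a b : ℂ} (ha : a ∈ ball (0 : ℂ) 1)
    (hb : b ∈ ball (0 : ℂ) 1) : hd (f a) (f b) ≤ 2 * poincareDist a b := by
  have ha' : ‖a‖ < 1 := by simpa using ha
  have hb' : ‖b‖ < 1 := by simpa using hb
  set σ : ℂ := (b - a) / (1 - conj a * b) with hσ
  have hσ1 : ‖σ‖ < 1 := norm_mob_inv_lt ha' hb'
  have h1 := schwarz_rhp (f := f ∘ mob a) (hf.comp (differentiableOn_mob ha')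
    (fun z hz => by simpa using mob_mem ha' (by simpa using hz)))
    (fun z hz => hpos _ (by simpa using mob_mem ha' (by simpa using hz)))
    (ζ := σ) (by simpa using hσ1)
  simp only [Function.comp_apply, mob_zero] at h1
  rw [hσ, mob_inv ha' hb', ← hσ, ← tanh_half_hd (hpos b hb) (hpos a ha)] at h1
  have h2 : hd (f a) (f b) = hd (f b) (f a) := by
    rw [hd, hd, norm_sub_rev, mul_comm (f a).re]
  rw [h2]
  have h3 : hd (f b) (f a) / 2 ≤ Real.artanh ‖σ‖ := by
    rw [← Real.artanh_tanh (hd (f b) (f a) / 2)]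
    apply Real.artanh_le_artanh (Real.neg_one_lt_tanh _) hσ1 h1
  have h4 : poincareDist a b = Real.artanh ‖σ‖ := by
    rw [poincareDist, hσ, norm_div, norm_sub_rev]
  rw [h4]
  linarith

variable {E : Type*} [NormedAddCommGroup E] [NormedSpace ℂ E]

theorem DiscChain.mem_left {Ω : Set E} {z w : E} {L : ℝ} (h : DiscChain Ω z w L) : z ∈ Ω := by
  cases h with
  | nil _ hz => exact hz
  | cons hφ ha _ _ => exact hφ.2 ha

theorem DiscChain.mem_right {Ω : Set E} {z w : E} {L : ℝ} (h : DiscChain Ω z w L) : w ∈ Ω := by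
  induction h with
  | nil _ hz => exact hz
  | cons _ _ _ _ ih => exact ih

theorem poincareDist_nonneg (a b : ℂ) : 0 ≤ poincareDist a b :=
  Real.artanh_nonneg (by positivity)

theorem DiscChain.nonneg {Ω : Set E} {z w : E} {L : ℝ} (h : DiscChain Ω z w L) : 0 ≤ L := by
  induction h with
  | nil _ _ => exact le_rfl
  | cons _ _ _ _ ih => exact add_nonneg (poincareDist_nonneg _ _) ih

theorem DiscChain.trans {Ω : Set E} {x y z : E} {L M : ℝ} (h : DiscChain Ω x y L)
    (h' : DiscChain Ω y z M) : DiscChain Ω x z (L + M) := by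
  induction h with
  | nil _ _ => simpa using h'
  | cons hφ ha hb _ ih =>
    rw [add_assoc]
    exact DiscChain.cons hφ ha hb (ih h')

/-- Contraction along chains. -/
theorem DiscChain.hd_le {Ω : Set E} {F : E → ℂ} (hF : DifferentiableOn ℂ F Ω)
    (hpos : ∀ x ∈ Ω, 0 < (F x).re) {z w : E} {L : ℝ} (h : DiscChain Ω z w L) :
    hd (F z) (F w) ≤ 2 * L := by
  induction h with
  | nil z hz => simp [hd_self]
  | @cons φ a b w L hφ ha hb h ih =>
    have h1 := hd_le_poincareDist (f := F ∘ φ) (hF.comp hφ.1 hφ.2)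
      (fun ζ hζ => hpos _ (hφ.2 hζ)) ha hb
    have h2 := hd_triangle (hpos _ (hφ.2 ha)) (hpos _ (hφ.2 hb)) (hpos _ h.mem_right)
    simp only [Function.comp_apply] at h1
    linarith

theorem kobDist_triangle (Ω : Set E) (x y z : E) :
    kobDist Ω x z ≤ kobDist Ω x y + kobDist Ω y z := by
  simp only [kobDist]
  rw [ENNReal.iInf_add]
  refine le_iInf fun L => ?_
  rw [ENNReal.iInf_add]
  refine le_iInf fun hL => ?_
  rw [ENNReal.add_iInf]
  refine le_iInf fun M => ?_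
  rw [ENNReal.add_iInf]
  refine le_iInf fun hM => ?_
  rw [← ENNReal.ofReal_add hL.nonneg hM.nonneg]
  exact iInf₂_le (L + M) (hL.trans hM)

theorem kobDist_le_of_chain {Ω : Set E} {x y : E} {L : ℝ} (h : DiscChain Ω x y L) :
    kobDist Ω x y ≤ ENNReal.ofReal L := iInf₂_le L h

theorem kobDist_self {Ω : Set E} {x : E} (hx : x ∈ Ω) : kobDist Ω x x = 0 := by
  have := kobDist_le_of_chain (DiscChain.nil x hx)
  simpa using this

theorem kobDist_disc_le {Ω : Set E} {φ : ℂ → E} (hφ : IsDisc Ω φ) {a b : ℂ}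
    (ha : a ∈ ball (0 : ℂ) 1) (hb : b ∈ ball (0 : ℂ) 1) :
    kobDist Ω (φ a) (φ b) ≤ ENNReal.ofReal (poincareDist a b) := by
  have := kobDist_le_of_chain (DiscChain.cons hφ ha hb (DiscChain.nil _ (hφ.2 hb)))
  simpa using this

theorem le_kobDist {Ω : Set E} {F : E → ℂ} (hF : DifferentiableOn ℂ F Ω)
    (hpos : ∀ x ∈ Ω, 0 < (F x).re) (z w : E) :
    ENNReal.ofReal (hd (F z) (F w) / 2) ≤ kobDist Ω z w := by
  refine le_iInf₂ fun L hL => ENNReal.ofReal_le_ofReal ?_
  have := hL.hd_le hF hpos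
  linarith

/-- The real valued Kobayashi distance. -/
noncomputable def kR (Ω : Set E) (x y : E) : ℝ := (kobDist Ω x y).toReal

/-- `exp (2 k)`. -/
noncomputable def kE (Ω : Set E) (x y : E) : ℝ := Real.exp (2 * kR Ω x y)

theorem kR_nonneg (Ω : Set E) (x y : E) : 0 ≤ kR Ω x y := ENNReal.toReal_nonneg

theorem one_le_kE (Ω : Set E) (x y : E) : 1 ≤ kE Ω x y :=
  Real.one_le_exp (by have := kR_nonneg Ω x y; positivity)

theorem kE_pos (Ω : Set E) (x y : E) : 0 < kE Ω x y := Real.exp_pos _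

theorem hd_le_kR {Ω : Set E} {F : E → ℂ} (hF : DifferentiableOn ℂ F Ω)
    (hpos : ∀ x ∈ Ω, 0 < (F x).re) {z w : E} (hzw : kobDist Ω z w ≠ ∞) :
    hd (F z) (F w) ≤ 2 * kR Ω z w := by
  have h := le_kobDist hF hpos z w
  have := (ENNReal.ofReal_le_iff_le_toReal hzw).mp h
  rw [kR]; linarith

/-- Lower bound for `exp (2 k)` by the ratio of real parts. -/
theorem re_le_mul_kE {Ω : Set E} {F : E → ℂ} (hF : DifferentiableOn ℂ F Ω)
    (hpos : ∀ x ∈ Ω, 0 < (F x).re) {z w : E} (hz : z ∈ Ω) (hw : w ∈ Ω)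
    (hzw : kobDist Ω z w ≠ ∞) : (F w).re ≤ (F z).re * kE Ω z w := by
  refine (re_le_re_mul_exp_hd (hpos z hz) (hpos w hw)).trans ?_
  have := hd_le_kR hF hpos hzw
  exact mul_le_mul_of_nonneg_left (Real.exp_le_exp.mpr this) (hpos z hz).le

/-- Lower bound for `exp (2 k)` by `|F z - F w|² / (Re F z Re F w)`. -/
theorem sq_le_mul_kE {Ω : Set E} {F : E → ℂ} (hF : DifferentiableOn ℂ F Ω)
    (hpos : ∀ x ∈ Ω, 0 < (F x).re) {z w : E} (hz : z ∈ Ω) (hw : w ∈ Ω)
    (hzw : kobDist Ω z w ≠ ∞) : ‖F z - F w‖ ^ 2 ≤ (F z).re * (F w).re * kE Ω z w := by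
  have h := exp_hd (hpos z hz) (hpos w hw)
  have h1 := hd_le_kR hF hpos hzw
  have h2 : Real.exp (hd (F z) (F w)) ≤ kE Ω z w := Real.exp_le_exp.mpr h1
  have h3 : Real.exp (-hd (F z) (F w)) ≤ 1 :=
    Real.exp_le_one_iff.mpr (by have := hd_nonneg (hpos z hz) (hpos w hw); linarith)
  have hp : 0 < (F z).re * (F w).re := mul_pos (hpos z hz) (hpos w hw)
  have h4 : ‖F z - F w‖ ^ 2 / ((F z).re * (F w).re) ≤ kE Ω z w := by linarith
  rw [div_le_iff₀ hp] at h4
  linarith

end Pool.Agent.H25.Vis
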