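import Mathlib
import Pool.Agent.H25.Vis.Hyp

/-!
# Upper bounds for the Kobayashi distance
-/

open Set Filter Topology MeasureTheory Metric
open scoped ENNReal ComplexConjugate

namespace Pool.Agent.H25.Vis

variable {E : Type*} [NormedAddCommGroup E] [NormedSpace ℂ E]

/-- `exp (2 k_Ω(x, y)) ≤ B`. -/
def KB (Ω : Set E) (x y : E) (B : ℝ) : Prop :=
  1 ≤ B ∧ kobDist Ω x y ≤ ENNReal.ofReal (Real.log B / 2)

theorem KB.ne_top {Ω : Set E} {x y : E} {B : ℝ} (h : KB Ω x y B) : kobDist Ω x y ≠ ∞ :=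
  ne_top_of_le_ne_top ENNReal.ofReal_ne_top h.2

theorem KB.kE_le {Ω : Set E} {x y : E} {B : ℝ} (h : KB Ω x y B) : kE Ω x y ≤ B := by
  have h0 : 0 ≤ Real.log B / 2 := by have := Real.log_nonneg h.1; positivity
  have h1 : kR Ω x y ≤ Real.log B / 2 := by
    have := ENNReal.toReal_mono ENNReal.ofReal_ne_top h.2
    rwa [ENNReal.toReal_ofReal h0] at this
  rw [kE, ← Real.le_log_iff_exp_le (by linarith [h.1])]
  linarith

theorem KB.mono {Ω : Set E} {x y : E} {B C : ℝ} (h : KB Ω x y B) (hBC : B ≤ C) : KB Ω x y C := by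
  refine ⟨h.1.trans hBC, h.2.trans (ENNReal.ofReal_le_ofReal ?_)⟩
  have := Real.log_le_log (by linarith [h.1]) hBC
  linarith

theorem KB.trans {Ω : Set E} {x y z : E} {B C : ℝ} (h : KB Ω x y B) (h' : KB Ω y z C) :
    KB Ω x z (B * C) := by
  have hB := h.1
  have hC := h'.1
  refine ⟨by nlinarith, ?_⟩
  rw [Real.log_mul (by linarith) (by linarith), add_div,
    ENNReal.ofReal_add (by have := Real.log_nonneg hB; positivity)
      (by have := Real.log_nonneg hC; positivity)]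
  exact (kobDist_triangle Ω x y z).trans (add_le_add h.2 h'.2)

theorem KB.refl {Ω : Set E} {x : E} (hx : x ∈ Ω) : KB Ω x x 1 := by
  refine ⟨le_rfl, ?_⟩
  rw [kobDist_self hx]; exact zero_le

theorem poincareDist_zero_left (b : ℂ) : poincareDist 0 b = Real.artanh ‖b‖ := by
  simp [poincareDist]

theorem poincareDist_zero_right (b : ℂ) : poincareDist b 0 = Real.artanh ‖b‖ := by
  simp [poincareDist]

theorem KB.disc {Ω : Set E} {φ : ℂ → E} (hφ : IsDisc Ω φ) {σ : ℂ} (hσ : ‖σ‖ < 1) :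
    KB Ω (φ 0) (φ σ) ((1 + ‖σ‖) / (1 - ‖σ‖)) := by
  have h1 : 0 < 1 - ‖σ‖ := by linarith
  refine ⟨by rw [le_div_iff₀ h1]; linarith [norm_nonneg σ], ?_⟩
  have h := kobDist_disc_le hφ (a := 0) (b := σ) (by simp) (by simpa using hσ)
  rw [poincareDist_zero_left, Real.artanh_eq_half_log ⟨by linarith [norm_nonneg σ], hσ.le⟩] at h
  convert h using 2
  ring

theorem KB.disc' {Ω : Set E} {φ : ℂ → E} (hφ : IsDisc Ω φ) {σ : ℂ} (hσ : ‖σ‖ < 1) :
    KB Ω (φ σ) (φ 0) ((1 + ‖σ‖) / (1 - ‖σ‖)) := by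
  have h1 : 0 < 1 - ‖σ‖ := by linarith
  refine ⟨by rw [le_div_iff₀ h1]; linarith [norm_nonneg σ], ?_⟩
  have h := kobDist_disc_le hφ (b := 0) (a := σ) (by simpa using hσ) (by simp)
  rw [poincareDist_zero_right, Real.artanh_eq_half_log ⟨by linarith [norm_nonneg σ], hσ.le⟩] at h
  convert h using 2
  ring

/-! ### Conformal maps of the disc onto half planes and discs -/

/-- The conformal map of the disc onto the right half plane with `0 ↦ u`. -/
noncomputable def hpm (u ζ : ℂ) : ℂ := (u + conj u * ζ) / (1 - ζ)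

theorem hpm_zero (u : ℂ) : hpm u 0 = u := by simp [hpm]

theorem one_sub_ne {ζ : ℂ} (hζ : ‖ζ‖ < 1) : 1 - ζ ≠ 0 := by
  intro h
  have : ζ = 1 := by linear_combination -h
  rw [this, norm_one] at hζ
  exact lt_irrefl _ hζ

theorem hpm_re_pos {u ζ : ℂ} (hu : 0 < u.re) (hζ : ‖ζ‖ < 1) : 0 < (hpm u ζ).re := by
  have hne := one_sub_ne hζ
  have h1 : 0 < Complex.normSq (1 - ζ) := Complex.normSq_pos.mpr hne
  have h2 : (hpm u ζ).re = u.re * (1 - ‖ζ‖ ^ 2) / Complex.normSq (1 - ζ) := by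
    rw [hpm, Complex.div_re, Complex.sq_norm, Complex.normSq_apply ζ]
    simp only [Complex.add_re, Complex.add_im, Complex.mul_re, Complex.mul_im, Complex.conj_re,
      Complex.conj_im, Complex.one_re, Complex.one_im, Complex.sub_re, Complex.sub_im]
    field_simp
    ring
  rw [h2]
  have h3 : 0 < 1 - ‖ζ‖ ^ 2 := by nlinarith [norm_nonneg ζ]
  positivity

theorem differentiableOn_hpm (u : ℂ) : DifferentiableOn ℂ (hpm u) (ball 0 1) := by
  refine DifferentiableOn.div (by fun_prop) (by fun_prop) ?_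
  intro z hz
  exact one_sub_ne (by simpa using hz)

theorem hpm_inv {u v : ℂ} (hu : 0 < u.re) (hv : 0 < v.re) :
    hpm u ((v - u) / (v + conj u)) = v := by
  have h1 : v + conj u ≠ 0 := add_conj_ne_zero hv hu
  have h2 : u + conj u ≠ 0 := add_conj_ne_zero hu hu
  have h3 : 1 - (v - u) / (v + conj u) = (u + conj u) / (v + conj u) := by
    rw [eq_div_iff h1, sub_mul, div_mul_cancel₀ _ h1]; ring
  have h4 : u + conj u * ((v - u) / (v + conj u)) = v * (u + conj u) / (v + conj u) := by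
    rw [eq_div_iff h1, add_mul, mul_assoc, div_mul_cancel₀ _ h1]; ring
  rw [hpm, h3, h4, div_div_div_cancel_right₀ h1, mul_div_cancel_right₀ _ h2]

theorem norm_hpm_inv_lt {u v : ℂ} (hu : 0 < u.re) (hv : 0 < v.re) :
    ‖(v - u) / (v + conj u)‖ < 1 := by
  rw [norm_div, div_lt_one (norm_pos_iff.mpr (add_conj_ne_zero hv hu))]
  exact norm_sub_lt_norm_add_conj hv hu

/-- Bound of `(1 + s) / (1 - s)` for the pseudohyperbolic distance `s` of the half plane. -/
theorem ratio_hpm {u v : ℂ} (hu : 0 < u.re) (hv : 0 < v.re) :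
    (1 + ‖(v - u) / (v + conj u)‖) / (1 - ‖(v - u) / (v + conj u)‖) ≤
      2 + ‖v - u‖ ^ 2 / (u.re * v.re) := by
  set s := ‖(v - u) / (v + conj u)‖ with hs
  have hs1 : s < 1 := norm_hpm_inv_lt hu hv
  have hs0 : 0 ≤ s := norm_nonneg _
  have hw : 0 < ‖v + conj u‖ := norm_pos_iff.mpr (add_conj_ne_zero hv hu)
  have h1 : s ^ 2 * ‖v + conj u‖ ^ 2 = ‖v - u‖ ^ 2 := by
    rw [hs, norm_div, div_pow, div_mul_cancel₀ _ (by positivity)]
  have h2 : ‖v + conj u‖ ^ 2 - ‖v - u‖ ^ 2 = 4 * (u.re * v.re) := by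
    rw [Complex.sq_norm, Complex.sq_norm, Complex.normSq_apply, Complex.normSq_apply]
    simp only [Complex.sub_re, Complex.sub_im, Complex.add_re, Complex.add_im, Complex.conj_re,
      Complex.conj_im]
    ring
  have hp : 0 < u.re * v.re := mul_pos hu hv
  have h3 : ‖v - u‖ ^ 2 / (u.re * v.re) = 4 * s ^ 2 / (1 - s ^ 2) := by
    have h4 : 0 < 1 - s ^ 2 := by nlinarith
    rw [div_eq_div_iff hp.ne' h4.ne']
    have h5 : (1 - s ^ 2) * ‖v + conj u‖ ^ 2 = 4 * (u.re * v.re) := by nlinarith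
    rw [← h1]
    linear_combination (s ^ 2) * h5
  rw [h3]
  have h4 : 0 < 1 - s ^ 2 := by nlinarith
  have h5 : 0 < 1 - s := by linarith
  rw [div_le_iff₀ h5]
  have h6 : (2 + 4 * s ^ 2 / (1 - s ^ 2)) * (1 - s) = (2 + 2 * s ^ 2) / (1 + s) := by
    have h7 : 0 < 1 + s := by linarith
    field_simp
    ring
  rw [h6, le_div_iff₀ (by linarith)]
  nlinarith [sq_nonneg (1 - s)]

/-- Bound of `(1 + s) / (1 - s)` for the pseudohyperbolic distance `s` of the disc. -/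
theorem ratio_mob {a b : ℂ} (ha : ‖a‖ < 1) (hb : ‖b‖ < 1) :
    (1 + ‖(b - a) / (1 - conj a * b)‖) / (1 - ‖(b - a) / (1 - conj a * b)‖) ≤
      16 / ((1 - ‖a‖ ^ 2) * (1 - ‖b‖ ^ 2)) := by
  set s := ‖(b - a) / (1 - conj a * b)‖ with hs
  have hs1 : s < 1 := norm_mob_inv_lt ha hb
  have hs0 : 0 ≤ s := norm_nonneg _
  have hw : 0 < ‖1 - conj a * b‖ := norm_pos_iff.mpr (one_sub_ne_zero ha hb)
  have hw2 : ‖1 - conj a * b‖ ≤ 2 := by
    refine (norm_sub_le _ _).trans ?_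
    rw [norm_one, norm_mul, RCLike.norm_conj]
    nlinarith [norm_nonneg a, norm_nonneg b]
  have h1 : s ^ 2 * ‖1 - conj a * b‖ ^ 2 = ‖b - a‖ ^ 2 := by
    rw [hs, norm_div, div_pow, div_mul_cancel₀ _ (by positivity)]
  have h2 : ‖1 - conj a * b‖ ^ 2 - ‖b - a‖ ^ 2 = (1 - ‖a‖ ^ 2) * (1 - ‖b‖ ^ 2) := by
    have := normSq_sub_identity (-a) b
    simpa [sub_eq_add_neg] using this
  set p := (1 - ‖a‖ ^ 2) * (1 - ‖b‖ ^ 2) with hp
  have hp0 : 0 < p := by
    apply mul_pos <;> nlinarith [norm_nonneg a, norm_nonneg b]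
  have h3 : p ≤ 4 * (1 - s ^ 2) := by
    have h5 : (1 - s ^ 2) * ‖1 - conj a * b‖ ^ 2 = p := by linarith
    have h6 : 0 ≤ 1 - s ^ 2 := by nlinarith
    rw [← h5]
    nlinarith [mul_le_mul hw2 hw2 hw.le (by norm_num)]
  rw [div_le_div_iff₀ (by linarith) hp0]
  have h7 : (1 + s) * p ≤ (1 + s) * (4 * (1 - s ^ 2)) := by
    apply mul_le_mul_of_nonneg_left h3; linarith
  have h8 : (1 + s) * (4 * (1 - s ^ 2)) = 4 * (1 + s) ^ 2 * (1 - s) := by ring
  have h9 : (1 + s) ^ 2 ≤ 4 := by nlinarith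
  nlinarith

end Pool.Agent.H25.Vis
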