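import Mathlib
import Pool.Agent.H25.Vis.Upper

/-!
# The domain
-/

open Set Filter Topology MeasureTheory Metric
open scoped ENNReal ComplexConjugate

namespace Pool.Agent.H25.Vis

/-- The point with coordinates `q = 1 / V` and `w`. -/
noncomputable def pt (V w : ℂ) : C2 := !₂[V⁻¹, w]

@[simp] theorem pt_zero (V w : ℂ) : pt V w 0 = V⁻¹ := rfl
@[simp] theorem pt_one (V w : ℂ) : pt V w 1 = w := rfl

/-- The coordinate `V = 1 / q`. -/
noncomputable def Vc (z : C2) : ℂ := (z 0)⁻¹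

/-- `N = 1 - |w|²`. -/
noncomputable def Nn (z : C2) : ℝ := 1 - ‖z 1‖ ^ 2

/-- `X̃ = Re V - 1 / N`. -/
noncomputable def Xt (z : C2) : ℝ := (Vc z).re - 1 / Nn z

theorem pt_Vc (z : C2) : pt (Vc z) (z 1) = z := by
  ext i
  fin_cases i
  · simp [Vc]
  · simp

theorem Nn_pos {z : C2} (hz : ‖z 1‖ < 1) : 0 < Nn z := by
  unfold Nn; nlinarith [norm_nonneg (z 1)]

theorem Nn_le_one (z : C2) : Nn z ≤ 1 := by
  unfold Nn; nlinarith [norm_nonneg (z 1)]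

theorem pt_mem_iff {V w : ℂ} : pt V w ∈ dom ↔ ‖w‖ < 1 ∧ 1 / (1 - ‖w‖ ^ 2) < V.re := by
  simp only [dom, mem_ofPred_eq, pt_zero, pt_one]
  refine and_congr_right fun hw => ?_
  have hN : 0 < 1 - ‖w‖ ^ 2 := by nlinarith [norm_nonneg w]
  by_cases hV : V = 0
  · subst hV
    simp only [inv_zero, norm_zero, Complex.zero_re, mul_zero]
    constructor
    · intro h; norm_num at h
    · intro h; have : 0 < 1 / (1 - ‖w‖ ^ 2) := by positivity
      linarith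
  · have hn : 0 < Complex.normSq V := Complex.normSq_pos.mpr hV
    rw [norm_inv, inv_pow, Complex.sq_norm V, Complex.inv_re, div_lt_iff₀ hN, ← mul_div_assoc,
      lt_div_iff₀ hn, inv_mul_cancel₀ hn.ne', mul_comm]

theorem mem_dom_iff {z : C2} : z ∈ dom ↔ ‖z 1‖ < 1 ∧ 0 < Xt z := by
  rw [← pt_Vc z, pt_mem_iff, pt_Vc]
  simp [Xt, Nn]

theorem Xt_pos {z : C2} (hz : z ∈ dom) : 0 < Xt z := (mem_dom_iff.mp hz).2

theorem Nn_pos' {z : C2} (hz : z ∈ dom) : 0 < Nn z := Nn_pos (mem_dom_iff.mp hz).1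

theorem Vc_re {z : C2} : (Vc z).re = Xt z + 1 / Nn z := by simp [Xt]

theorem one_lt_Vc_re {z : C2} (hz : z ∈ dom) : 1 < (Vc z).re := by
  rw [Vc_re]
  have h1 := Xt_pos hz
  have h2 : 1 ≤ 1 / Nn z := by
    rw [le_div_iff₀ (Nn_pos' hz)]; linarith [Nn_le_one z]
  linarith

theorem re_pos {z : C2} (hz : z ∈ dom) : 0 < (z 0).re := by
  have h := hz.2
  have hN := Nn_pos' hz
  unfold Nn at hN
  by_contra hcon
  push Not at hcon
  nlinarith [mul_nonneg hN.le (neg_nonneg.mpr hcon), norm_nonneg (z 0)]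

theorem z0_ne {z : C2} (hz : z ∈ dom) : z 0 ≠ 0 := by
  intro h
  have := re_pos hz
  rw [h] at this
  simp at this

theorem re_lt_one {z : C2} (hz : z ∈ dom) : (z 0).re < 1 := by
  have h := hz.2
  have h1 := re_pos hz
  have h2 : (z 0).re ^ 2 ≤ ‖z 0‖ ^ 2 := by
    rw [Complex.sq_norm, Complex.normSq_apply]; nlinarith [sq_nonneg (z 0).im]
  have h3 : (1 - ‖z 1‖ ^ 2) * (z 0).re ≤ (z 0).re := by nlinarith [sq_nonneg ‖z 1‖]
  nlinarith

theorem norm_lt_one {z : C2} (hz : z ∈ dom) : ‖z 0‖ < 1 := by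
  have h := hz.2
  have h1 := re_pos hz
  have h2 := re_lt_one hz
  have h3 : (1 - ‖z 1‖ ^ 2) * (z 0).re ≤ (z 0).re := by nlinarith [sq_nonneg ‖z 1‖]
  nlinarith [norm_nonneg (z 0)]

/-! ### Openness, convexity, boundedness -/

theorem isOpen_dom : IsOpen dom := by
  have h1 : Continuous fun z : C2 => ‖z 1‖ := by fun_prop
  have h2 : Continuous fun z : C2 => ‖z 0‖ ^ 2 := by fun_prop
  have h3 : Continuous fun z : C2 => (1 - ‖z 1‖ ^ 2) * (z 0).re := by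
    have : Continuous fun z : C2 => (z 0).re := Complex.continuous_re.comp (by fun_prop)
    fun_prop
  exact (isOpen_lt h1 continuous_const).inter (isOpen_lt h2 h3)

theorem isBounded_dom : Bornology.IsBounded dom := by
  refine (isBounded_closedBall (x := (0 : C2)) (r := 2)).subset fun z hz => ?_
  rw [mem_closedBall_zero_iff, EuclideanSpace.norm_eq]
  refine Real.sqrt_le_iff.mpr ⟨by norm_num, ?_⟩
  rw [Fin.sum_univ_two]
  have h1 := hz.1
  have h2 := norm_lt_one hz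
  nlinarith [norm_nonneg (z 0), norm_nonneg (z 1)]

/-- Quadratic over linear function. -/
theorem qol_convex {q r : ℂ} {a b : ℝ} (ha : 0 ≤ a) (hb : 0 ≤ b)
    (hq : 0 < q.re) (hr : 0 < r.re) :
    ‖(a : ℂ) * q + b * r‖ ^ 2 ≤
      (a * q.re + b * r.re) * (a * (‖q‖ ^ 2 / q.re) + b * (‖r‖ ^ 2 / r.re)) := by
  have h1 : ‖(a : ℂ) * q + b * r‖ ≤ a * ‖q‖ + b * ‖r‖ := by
    refine (norm_add_le _ _).trans ?_
    rw [norm_mul, norm_mul, Complex.norm_real, Complex.norm_real, Real.norm_of_nonneg ha,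
      Real.norm_of_nonneg hb]
  have h2 : ‖(a : ℂ) * q + b * r‖ ^ 2 ≤ (a * ‖q‖ + b * ‖r‖) ^ 2 := by
    gcongr
  refine h2.trans ?_
  have h3 : (a * q.re + b * r.re) * (a * (‖q‖ ^ 2 / q.re) + b * (‖r‖ ^ 2 / r.re)) -
      (a * ‖q‖ + b * ‖r‖) ^ 2 =
      a * b * (‖q‖ * r.re - ‖r‖ * q.re) ^ 2 / (q.re * r.re) := by
    field_simp
    ring
  have h4 : 0 ≤ a * b * (‖q‖ * r.re - ‖r‖ * q.re) ^ 2 / (q.re * r.re) := by positivity
  linarith

theorem convex_dom : Convex ℝ dom := by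
  intro x hx y hy a b ha hb hab
  have hx0 := re_pos hx
  have hy0 := re_pos hy
  have e0 : (a • x + b • y) 0 = (a : ℂ) * x 0 + b * y 0 := by simp
  have e1 : (a • x + b • y) 1 = (a : ℂ) * x 1 + b * y 1 := by simp
  have hre : ((a : ℂ) * x 0 + b * y 0).re = a * (x 0).re + b * (y 0).re := by simp
  have hn1 : ‖(a : ℂ) * x 1 + b * y 1‖ ≤ a * ‖x 1‖ + b * ‖y 1‖ := by
    refine (norm_add_le _ _).trans ?_
    rw [norm_mul, norm_mul, Complex.norm_real, Complex.norm_real, Real.norm_of_nonneg ha,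
      Real.norm_of_nonneg hb]
  have hx1 := hx.1
  have hy1 := hy.1
  have hpos : 0 < a * (x 0).re + b * (y 0).re := by
    rcases ha.eq_or_lt with h | h
    · subst h; simp only [zero_add] at hab; subst hab; simpa using hy0
    · positivity
  constructor
  · rw [e1]
    refine hn1.trans_lt ?_
    rcases ha.eq_or_lt with h | h
    · subst h; simp only [zero_add] at hab; subst hab; simpa using hy1
    · nlinarith
  · rw [e0, e1, hre]
    refine (qol_convex ha hb hx0 hy0).trans_lt ?_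
    rw [mul_comm]
    apply mul_lt_mul_of_pos_right _ hpos
    have h2 : ‖(a : ℂ) * x 1 + b * y 1‖ ^ 2 ≤ (a * ‖x 1‖ + b * ‖y 1‖) ^ 2 := by gcongr
    have h3 : (a * ‖x 1‖ + b * ‖y 1‖) ^ 2 ≤ a * ‖x 1‖ ^ 2 + b * ‖y 1‖ ^ 2 := by
      have hb' : b = 1 - a := by linarith
      subst hb'
      nlinarith [mul_nonneg (mul_nonneg ha hb) (sq_nonneg (‖x 1‖ - ‖y 1‖))]
    have h4 : ‖x 0‖ ^ 2 / (x 0).re < 1 - ‖x 1‖ ^ 2 := by
      rw [div_lt_iff₀ hx0]; exact hx.2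
    have h5 : ‖y 0‖ ^ 2 / (y 0).re < 1 - ‖y 1‖ ^ 2 := by
      rw [div_lt_iff₀ hy0]; exact hy.2
    rcases ha.eq_or_lt with h | h
    · subst h; simp only [zero_add] at hab; subst hab
      nlinarith
    · nlinarith [mul_lt_mul_of_pos_left h4 h, mul_le_mul_of_nonneg_left h5.le hb]

theorem nonempty_dom : dom.Nonempty := by
  refine ⟨pt 2 0, pt_mem_iff.mpr ⟨by simp, by norm_num⟩⟩

theorem boundedConvexDomain_dom : BoundedConvexDomain dom :=
  ⟨isOpen_dom, nonempty_dom, convex_dom, isBounded_dom⟩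

/-! ### Support functions -/

/-- The support function `H_a = V - h_a(w) - c(a)`. -/
noncomputable def Hs (a : ℂ) (z : C2) : ℂ :=
  Vc z - 2 * conj a * (z 1 - a) / ((1 - ‖a‖ ^ 2 : ℝ) : ℂ) ^ 2 - ((1 / (1 - ‖a‖ ^ 2) : ℝ) : ℂ)

theorem differentiable_coord (i : Fin 2) : Differentiable ℂ (fun z : C2 => z i) :=
  differentiable_euclidean.mp differentiable_id i

theorem differentiableOn_Vc : DifferentiableOn ℂ Vc dom :=
  (differentiable_coord 0).differentiableOn.inv fun _ hz => z0_ne hz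

theorem differentiableOn_Hs (a : ℂ) : DifferentiableOn ℂ (Hs a) dom := by
  have h1 := (differentiable_coord 1).differentiableOn (s := dom)
  unfold Hs
  simp only [div_eq_mul_inv _ ((((1 - ‖a‖ ^ 2 : ℝ) : ℂ)) ^ 2)]
  exact ((differentiableOn_Vc).sub (((h1.sub_const a).const_mul (2 * conj a)).mul_const _)).sub_const _

theorem Hs_re {a : ℂ} (ha : ‖a‖ < 1) {z : C2} (hz : z ∈ dom) :
    (Hs a z).re = Xt z + (((1 - ‖a‖ ^ 2) - Nn z) ^ 2 / ((1 - ‖a‖ ^ 2) ^ 2 * Nn z) +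
      ‖z 1 - a‖ ^ 2 / (1 - ‖a‖ ^ 2) ^ 2) := by
  have hs : 0 < 1 - ‖a‖ ^ 2 := by nlinarith [norm_nonneg a]
  have hN := Nn_pos' hz
  have e1 : (2 * conj a * (z 1 - a) / ((1 - ‖a‖ ^ 2 : ℝ) : ℂ) ^ 2).re =
      (‖z 1‖ ^ 2 - ‖a‖ ^ 2 - ‖z 1 - a‖ ^ 2) / (1 - ‖a‖ ^ 2) ^ 2 := by
    rw [← Complex.ofReal_pow, Complex.div_ofReal_re]
    congr 1
    rw [Complex.sq_norm, Complex.sq_norm, Complex.sq_norm, Complex.normSq_apply,
      Complex.normSq_apply, Complex.normSq_apply]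
    simp only [Complex.mul_re, Complex.mul_im, Complex.conj_re, Complex.conj_im,
      Complex.sub_re, Complex.sub_im, Complex.re_ofNat, Complex.im_ofNat]
    ring
  rw [Hs, Complex.sub_re, Complex.sub_re, e1, Complex.ofReal_re, Vc_re]
  have e2 : ‖z 1‖ ^ 2 = 1 - Nn z := by unfold Nn; ring
  rw [e2]
  field_simp
  ring

theorem le_Hs_re {a : ℂ} (ha : ‖a‖ < 1) {z : C2} (hz : z ∈ dom) :
    Xt z + ‖z 1 - a‖ ^ 2 ≤ (Hs a z).re := by
  rw [Hs_re ha hz]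
  have hs : 0 < 1 - ‖a‖ ^ 2 := by nlinarith [norm_nonneg a]
  have hs1 : 1 - ‖a‖ ^ 2 ≤ 1 := by nlinarith [sq_nonneg ‖a‖]
  have hN := Nn_pos' hz
  have h1 : 0 ≤ ((1 - ‖a‖ ^ 2) - Nn z) ^ 2 / ((1 - ‖a‖ ^ 2) ^ 2 * Nn z) := by positivity
  have h2 : ‖z 1 - a‖ ^ 2 ≤ ‖z 1 - a‖ ^ 2 / (1 - ‖a‖ ^ 2) ^ 2 := by
    rw [le_div_iff₀ (by positivity)]
    have : (1 - ‖a‖ ^ 2) ^ 2 ≤ 1 := by nlinarith
    nlinarith [sq_nonneg ‖z 1 - a‖]
  linarith

theorem Hs_re_pos {a : ℂ} (ha : ‖a‖ < 1) {z : C2} (hz : z ∈ dom) : 0 < (Hs a z).re := by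
  have := le_Hs_re ha hz
  have := Xt_pos hz
  nlinarith [sq_nonneg ‖z 1 - a‖]

theorem Hs_self (z : C2) : Hs (z 1) z = Vc z - ((1 / Nn z : ℝ) : ℂ) := by
  simp [Hs, Nn]

theorem Hs_self_re (z : C2) : (Hs (z 1) z).re = Xt z := by
  rw [Hs_self, Complex.sub_re, Complex.ofReal_re, Xt]

theorem norm_ha_le {a : ℂ} (ha : ‖a‖ < 1) {z : C2} (hz : z ∈ dom) :
    ‖2 * conj a * (z 1 - a) / ((1 - ‖a‖ ^ 2 : ℝ) : ℂ) ^ 2‖ ≤ 4 / (1 - ‖a‖ ^ 2) ^ 2 := by
  have hs : 0 < 1 - ‖a‖ ^ 2 := by nlinarith [norm_nonneg a]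
  rw [norm_div, norm_pow, Complex.norm_real, Real.norm_of_nonneg hs.le]
  apply div_le_div_of_nonneg_right _ (by positivity)
  rw [norm_mul, norm_mul, RCLike.norm_conj, Complex.norm_ofNat]
  have h1 : ‖z 1 - a‖ ≤ 2 := (norm_sub_le _ _).trans (by linarith [hz.1])
  nlinarith [norm_nonneg a, norm_nonneg (z 1 - a)]

end Pool.Agent.H25.Vis
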