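import Mathlib
import Pool.Agent.H25.Vis.Dom

/-!
# Upper bounds for the Kobayashi distance of the domain
-/

open Set Filter Topology MeasureTheory Metric
open scoped ENNReal ComplexConjugate

namespace Pool.Agent.H25.Vis

/-- A disc in `dom` with prescribed coordinates. -/
theorem isDisc_pt {f g : ℂ → ℂ} (hf : DifferentiableOn ℂ f (ball 0 1))
    (hg : DifferentiableOn ℂ g (ball 0 1)) (h : ∀ ζ ∈ ball (0 : ℂ) 1, pt (f ζ) (g ζ) ∈ dom) :
    IsDisc dom (fun ζ => pt (f ζ) (g ζ)) := by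
  refine ⟨?_, h⟩
  rw [differentiableOn_euclidean]
  intro i
  fin_cases i
  · refine hf.inv fun ζ hζ h0 => ?_
    have := z0_ne (h ζ hζ)
    simp [h0] at this
  · exact hg

/-- Scaling of the disc. -/
theorem scale_mem {σ s : ℂ} (hs : ‖σ‖ ≤ ‖s‖) {ζ : ℂ} (hζ : ζ ∈ ball (0 : ℂ) 1) :
    σ / s * ζ ∈ ball (0 : ℂ) 1 := by
  rw [mem_ball_zero_iff] at hζ ⊢
  rw [norm_mul, norm_div]
  have h1 : ‖σ‖ / ‖s‖ ≤ 1 := div_le_one_of_le₀ hs (norm_nonneg _)
  nlinarith [norm_nonneg ζ, div_nonneg (norm_nonneg σ) (norm_nonneg s)]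

/-- Upper bound in a product subdomain `{Re V > A} × {|w| < ρ}`. -/
theorem KB_prod {A ρ : ℝ} (hρ : 0 < ρ) (hA : ∀ V w : ℂ, A < V.re → ‖w‖ < ρ → pt V w ∈ dom)
    {V₁ V₂ w₁ w₂ : ℂ} (hV₁ : A < V₁.re) (hV₂ : A < V₂.re) (hw₁ : ‖w₁‖ < ρ) (hw₂ : ‖w₂‖ < ρ) :
    KB dom (pt V₁ w₁) (pt V₂ w₂) (max (2 + ‖V₂ - V₁‖ ^ 2 / ((V₁.re - A) * (V₂.re - A)))
      (16 / ((1 - ‖w₁ / ρ‖ ^ 2) * (1 - ‖w₂ / ρ‖ ^ 2)))) := by
  have hρ0 : (ρ : ℂ) ≠ 0 := by exact_mod_cast hρ.ne'
  set u₁ : ℂ := V₁ - A with hu₁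
  set u₂ : ℂ := V₂ - A with hu₂
  have hu₁r : u₁.re = V₁.re - A := by simp [hu₁]
  have hu₂r : u₂.re = V₂.re - A := by simp [hu₂]
  have hu₁p : 0 < u₁.re := by rw [hu₁r]; linarith
  have hu₂p : 0 < u₂.re := by rw [hu₂r]; linarith
  set σ₁ : ℂ := (u₂ - u₁) / (u₂ + conj u₁) with hσ₁
  set a₁ : ℂ := w₁ / ρ with ha₁
  set a₂ : ℂ := w₂ / ρ with ha₂
  have ha₁n : ‖a₁‖ < 1 := by
    rw [ha₁, norm_div, Complex.norm_real, Real.norm_of_nonneg hρ.le, div_lt_one hρ]; exact hw₁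
  have ha₂n : ‖a₂‖ < 1 := by
    rw [ha₂, norm_div, Complex.norm_real, Real.norm_of_nonneg hρ.le, div_lt_one hρ]; exact hw₂
  set σ₂ : ℂ := (a₂ - a₁) / (1 - conj a₁ * a₂) with hσ₂
  have h1 : ‖σ₁‖ < 1 := norm_hpm_inv_lt hu₁p hu₂p
  have h2 : ‖σ₂‖ < 1 := norm_mob_inv_lt ha₁n ha₂n
  have r1 : (1 + ‖σ₁‖) / (1 - ‖σ₁‖) ≤ 2 + ‖V₂ - V₁‖ ^ 2 / ((V₁.re - A) * (V₂.re - A)) := by
    have := ratio_hpm hu₁p hu₂p
    rw [hu₁r, hu₂r] at this
    have e : u₂ - u₁ = V₂ - V₁ := by rw [hu₁, hu₂]; ring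
    rw [← e]; exact this
  have r2 := ratio_mob ha₁n ha₂n
  set s : ℝ := max ‖σ₁‖ ‖σ₂‖ with hs
  have hs1 : s < 1 := max_lt h1 h2
  have hs0 : 0 ≤ s := (norm_nonneg _).trans (le_max_left _ _)
  have hratio : (1 + s) / (1 - s) ≤ max (2 + ‖V₂ - V₁‖ ^ 2 / ((V₁.re - A) * (V₂.re - A)))
      (16 / ((1 - ‖a₁‖ ^ 2) * (1 - ‖a₂‖ ^ 2))) := by
    rcases le_total ‖σ₁‖ ‖σ₂‖ with h | h
    · rw [hs, max_eq_right h]; exact r2.trans (le_max_right _ _)
    · rw [hs, max_eq_left h]; exact r1.trans (le_max_left _ _)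
  rcases hs0.eq_or_lt with h | h
  · -- both points agree
    have z1 : σ₁ = 0 := by
      rw [← norm_eq_zero]; exact le_antisymm (by rw [h]; exact le_max_left _ _) (norm_nonneg _)
    have z2 : σ₂ = 0 := by
      rw [← norm_eq_zero]; exact le_antisymm (by rw [h]; exact le_max_right _ _) (norm_nonneg _)
    have e1 : V₂ = V₁ := by
      have h3 := hpm_inv hu₁p hu₂p
      rw [← hσ₁, z1, hpm_zero] at h3
      have : u₁ + A = u₂ + A := by rw [h3]
      simpa [hu₁, hu₂] using this.symm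
    have e2 : w₂ = w₁ := by
      have h3 := mob_inv ha₁n ha₂n
      rw [← hσ₂, z2, mob_zero] at h3
      have : a₁ * ρ = a₂ * ρ := by rw [h3]
      rw [ha₁, ha₂, div_mul_cancel₀ _ hρ0, div_mul_cancel₀ _ hρ0] at this
      exact this.symm
    have hk : KB dom (pt V₁ w₁) (pt V₂ w₂) 1 := by
      rw [e1, e2]; exact KB.refl (hA _ _ hV₁ hw₁)
    refine hk.mono ?_
    rw [← h] at hratio
    simpa using hratio
  · have hs0' : (s : ℂ) ≠ 0 := by exact_mod_cast h.ne'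
    have hns : ‖(s : ℂ)‖ = s := by rw [Complex.norm_real, Real.norm_of_nonneg h.le]
    have hd := isDisc_pt (f := fun ζ => A + hpm u₁ (σ₁ / s * ζ))
      (g := fun ζ => ρ * mob a₁ (σ₂ / s * ζ)) ?_ ?_ ?_
    · have hk := KB.disc hd (σ := (s : ℂ)) (by rw [hns]; exact hs1)
      simp only [mul_zero, hpm_zero, mob_zero] at hk
      rw [div_mul_cancel₀ _ hs0', div_mul_cancel₀ _ hs0', hσ₁, hσ₂, hpm_inv hu₁p hu₂p,
        mob_inv ha₁n ha₂n, hns, hu₁, hu₂, ha₁, ha₂, mul_div_cancel₀ _ hρ0,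
        mul_div_cancel₀ _ hρ0, add_sub_cancel, add_sub_cancel] at hk
      exact hk.mono hratio
    · refine DifferentiableOn.const_add _ ?_
      exact (differentiableOn_hpm u₁).comp (by fun_prop) (fun ζ hζ =>
        scale_mem (by rw [hns]; exact le_max_left _ _) hζ)
    · refine DifferentiableOn.const_mul ?_ _
      exact (differentiableOn_mob ha₁n).comp (by fun_prop) (fun ζ hζ =>
        scale_mem (by rw [hns]; exact le_max_right _ _) hζ)
    · intro ζ hζ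
      apply hA
      · have hm : σ₁ / s * ζ ∈ ball (0 : ℂ) 1 :=
          scale_mem (by rw [hns]; exact le_max_left _ _) hζ
        have := hpm_re_pos hu₁p (mem_ball_zero_iff.mp hm)
        simp only [Complex.add_re, Complex.ofReal_re]
        linarith
      · have hm : σ₂ / s * ζ ∈ ball (0 : ℂ) 1 :=
          scale_mem (by rw [hns]; exact le_max_right _ _) hζ
        have := mob_mem ha₁n (mem_ball_zero_iff.mp hm)
        rw [norm_mul, Complex.norm_real, Real.norm_of_nonneg hρ.le]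
        nlinarith

/-- Vertical legs. -/
theorem KB_vert {V w : ℂ} (h : pt V w ∈ dom) {Y : ℝ} (hY : 0 ≤ Y) :
    KB dom (pt V w) (pt (V + Y) w) ((Xt (pt V w) + Y) / Xt (pt V w)) ∧
    KB dom (pt (V + Y) w) (pt V w) ((Xt (pt V w) + Y) / Xt (pt V w)) := by
  obtain ⟨hw, hV⟩ := pt_mem_iff.mp h
  set c : ℝ := 1 / (1 - ‖w‖ ^ 2) with hc
  set u : ℂ := V - c with hu
  have hX : Xt (pt V w) = u.re := by
    rw [hu, Complex.sub_re, Complex.ofReal_re, hc]
    simp [Xt, Vc, Nn]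
  have hup : 0 < u.re := by rw [← hX]; exact Xt_pos h
  set v : ℂ := V + Y - c with hv
  have hvr : v.re = u.re + Y := by simp [hv, hu]; ring
  have hvp : 0 < v.re := by rw [hvr]; linarith
  have hd : IsDisc dom (fun ζ => pt (c + hpm u ζ) w) := by
    refine isDisc_pt ((differentiableOn_hpm u).const_add _) (differentiableOn_const _) ?_
    intro ζ hζ
    refine pt_mem_iff.mpr ⟨hw, ?_⟩
    have := hpm_re_pos hup (ζ := ζ) (by simpa using hζ)
    simp only [Complex.add_re, Complex.ofReal_re, ← hc]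
    linarith
  set σ : ℂ := (v - u) / (v + conj u) with hσ
  have hσ1 : ‖σ‖ < 1 := norm_hpm_inv_lt hup hvp
  have hσ2 : σ = ((Y / (2 * u.re + Y) : ℝ) : ℂ) := by
    rw [hσ]
    have e1 : v - u = (Y : ℝ) := by rw [hv, hu]; ring
    have e2 : v + conj u = ((2 * u.re + Y : ℝ) : ℂ) := by
      have : v = u + Y := by rw [hv, hu]; ring
      rw [this]
      have := Complex.add_conj u
      push_cast at this ⊢
      linear_combination this
    rw [e1, e2]; push_cast; ring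
  have hσ3 : ‖σ‖ = Y / (2 * u.re + Y) := by
    rw [hσ2, Complex.norm_real, Real.norm_of_nonneg (by positivity)]
  have hratio : (1 + ‖σ‖) / (1 - ‖σ‖) = (Xt (pt V w) + Y) / Xt (pt V w) := by
    rw [hσ3, hX]
    have h2 : 0 < 2 * u.re + Y := by linarith
    have h1 : 1 - Y / (2 * u.re + Y) = 2 * u.re / (2 * u.re + Y) := by field_simp; ring
    have h3 : 1 + Y / (2 * u.re + Y) = 2 * (u.re + Y) / (2 * u.re + Y) := by field_simp; ring
    rw [h1, h3]
    field_simp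
  have e0 : pt (c + hpm u 0) w = pt V w := by rw [hpm_zero, hu]; simp
  have e1 : pt (c + hpm u σ) w = pt (V + Y) w := by rw [hσ, hpm_inv hup hvp, hv]; simp
  constructor
  · have := KB.disc hd hσ1
    rw [hratio] at this
    simpa only [e0, e1] using this
  · have := KB.disc' hd hσ1
    rw [hratio] at this
    simpa only [e0, e1] using this

/-- The three leg path. -/
theorem KB_path {y x : C2} (hy : y ∈ dom) (hx : x ∈ dom) {s Y : ℝ} (hs : 0 < s)
    (hsy : 2 * s ≤ Nn y) (hsx : 2 * s ≤ Nn x) (hY : 1 / s < Y) :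
    KB dom y x ((Xt y + Y) / Xt y *
      max (2 + ‖Vc x - Vc y‖ ^ 2 / (((Vc y).re + Y - 1 / s) * ((Vc x).re + Y - 1 / s)))
        (64 / (Nn y * Nn x)) * ((Xt x + Y) / Xt x)) := by
  have hs1 : 0 < 1 / s := by positivity
  have hY0 : 0 ≤ Y := by linarith
  have hs2 : s ≤ 1 / 2 := by linarith [Nn_le_one y]
  set ρ : ℝ := √(1 - s) with hρ
  have hρ2 : ρ ^ 2 = 1 - s := Real.sq_sqrt (by linarith)
  have hρ0 : 0 < ρ := Real.sqrt_pos.mpr (by linarith)
  have hA : ∀ V w : ℂ, 1 / s < V.re → ‖w‖ < ρ → pt V w ∈ dom := by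
    intro V w hV hw
    have h1 : ‖w‖ ^ 2 < 1 - s := by rw [← hρ2]; gcongr
    refine pt_mem_iff.mpr ⟨by nlinarith [norm_nonneg w], ?_⟩
    refine lt_of_le_of_lt ?_ hV
    apply one_div_le_one_div_of_le hs; linarith
  have hwρ : ∀ z : C2, 2 * s ≤ Nn z → ‖z 1‖ < ρ := by
    intro z hz
    rw [← sq_lt_sq₀ (norm_nonneg _) hρ0.le, hρ2]
    unfold Nn at hz; linarith
  have hlow : ∀ z : C2, 2 * s ≤ Nn z → Nn z / 2 ≤ 1 - ‖z 1 / (ρ : ℂ)‖ ^ 2 := by
    intro z hz
    rw [norm_div, Complex.norm_real, Real.norm_of_nonneg hρ0.le, div_pow, hρ2]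
    have h2 : 0 < 1 - s := by linarith
    have h3 : ‖z 1‖ ^ 2 / (1 - s) = 1 - (Nn z - s) / (1 - s) := by
      unfold Nn; field_simp; ring
    rw [h3]
    have h4 : Nn z / 2 ≤ (Nn z - s) / (1 - s) := by
      rw [le_div_iff₀ h2]; nlinarith
    linarith
  have hVy := one_lt_Vc_re hy
  have hVx := one_lt_Vc_re hx
  have l1 := (KB_vert (V := Vc y) (w := y 1) (by rw [pt_Vc]; exact hy) hY0).1
  have l3 := (KB_vert (V := Vc x) (w := x 1) (by rw [pt_Vc]; exact hx) hY0).2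
  have l2 := KB_prod hρ0 hA (V₁ := Vc y + Y) (V₂ := Vc x + Y) (w₁ := y 1) (w₂ := x 1)
    (by rw [Complex.add_re, Complex.ofReal_re]; linarith)
    (by rw [Complex.add_re, Complex.ofReal_re]; linarith) (hwρ y hsy) (hwρ x hsx)
  have l := (l1.trans l2).trans l3
  simp only [pt_Vc] at l
  refine l.mono ?_
  have hXy := Xt_pos hy
  have hXx := Xt_pos hx
  have hNy := Nn_pos' hy
  have hNx := Nn_pos' hx
  apply mul_le_mul_of_nonneg_right _ (by positivity)
  apply mul_le_mul_of_nonneg_left _ (by positivity)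
  apply max_le_max
  · have e1 : Vc x + (Y : ℂ) - (Vc y + (Y : ℂ)) = Vc x - Vc y := by ring
    simp only [Complex.add_re, Complex.ofReal_re, e1]
    exact le_rfl
  · have h1 := hlow y hsy
    have h2 := hlow x hsx
    have h3 : Nn y * Nn x / 4 ≤ (1 - ‖y 1 / (ρ : ℂ)‖ ^ 2) * (1 - ‖x 1 / (ρ : ℂ)‖ ^ 2) := by
      calc Nn y * Nn x / 4 = (Nn y / 2) * (Nn x / 2) := by ring
        _ ≤ _ := mul_le_mul h1 h2 (by positivity) (by linarith)
    calc 16 / ((1 - ‖y 1 / (ρ : ℂ)‖ ^ 2) * (1 - ‖x 1 / (ρ : ℂ)‖ ^ 2))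
        ≤ 16 / (Nn y * Nn x / 4) := by
          apply div_le_div_of_nonneg_left (by norm_num) (by positivity) h3
      _ = 64 / (Nn y * Nn x) := by field_simp; norm_num

theorem kobDist_ne_top {y x : C2} (hy : y ∈ dom) (hx : x ∈ dom) : kobDist dom y x ≠ ∞ := by
  have hNy := Nn_pos' hy
  have hNx := Nn_pos' hx
  have hm : 0 < min (Nn y) (Nn x) := lt_min hNy hNx
  refine (KB_path hy hx (s := min (Nn y) (Nn x) / 2) (Y := 1 / (min (Nn y) (Nn x) / 2) + 1)
    (by positivity) ?_ ?_ (by linarith)).ne_top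
  · have := min_le_left (Nn y) (Nn x); linarith
  · have := min_le_right (Nn y) (Nn x); linarith

/-- Convenient form of the upper bound. -/
theorem kE_path {y x : C2} (hy : y ∈ dom) (hx : x ∈ dom) {A Y : ℝ} (hA : 0 < A)
    (hAy : 2 ≤ A * Nn y) (hAx : 2 ≤ A * Nn x) (hY : A < Y) :
    kE dom y x * (Xt y * Xt x) ≤ (Y / (Y - A)) ^ 2 * ‖Vc x - Vc y‖ ^ 2 +
      (Xt y + Y) * (Xt x + Y) * (2 + 64 / (Nn y * Nn x)) := by
  have hXy := Xt_pos hy
  have hXx := Xt_pos hx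
  have hNy := Nn_pos' hy
  have hNx := Nn_pos' hx
  have hVy := one_lt_Vc_re hy
  have hVx := one_lt_Vc_re hx
  have hYA : 0 < Y - A := by linarith
  have h := (KB_path hy hx (s := 1 / A) (Y := Y) (by positivity)
    (by rw [mul_one_div, div_le_iff₀ hA]; linarith)
    (by rw [mul_one_div, div_le_iff₀ hA]; linarith) (by simpa using hY)).kE_le
  rw [one_div_one_div] at h
  set M := max (2 + ‖Vc x - Vc y‖ ^ 2 / (((Vc y).re + Y - A) * ((Vc x).re + Y - A)))
        (64 / (Nn y * Nn x)) with hM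
  have hpos1 : 0 < (Vc y).re + Y - A := by linarith
  have hpos2 : 0 < (Vc x).re + Y - A := by linarith
  have hM2 : M ≤ ‖Vc x - Vc y‖ ^ 2 / (((Vc y).re + Y - A) * ((Vc x).re + Y - A)) +
      (2 + 64 / (Nn y * Nn x)) := by
    have p1 : 0 ≤ ‖Vc x - Vc y‖ ^ 2 / (((Vc y).re + Y - A) * ((Vc x).re + Y - A)) := by positivity
    have p2 : 0 ≤ 64 / (Nn y * Nn x) := by positivity
    apply max_le <;> linarith
  have hk : ∀ z : C2, z ∈ dom → (Xt z + Y) / ((Vc z).re + Y - A) ≤ Y / (Y - A) := by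
    intro z hz
    have h1 := Xt_pos hz
    have h2 := Nn_pos' hz
    have h3 := one_lt_Vc_re hz
    have h4 : Xt z ≤ (Vc z).re := by
      rw [Vc_re]; have : 0 < 1 / Nn z := by positivity
      linarith
    rw [div_le_div_iff₀ (by linarith) hYA]
    nlinarith
  calc kE dom y x * (Xt y * Xt x) ≤ ((Xt y + Y) / Xt y * M * ((Xt x + Y) / Xt x)) *
        (Xt y * Xt x) := mul_le_mul_of_nonneg_right h (by positivity)
    _ = (Xt y + Y) * (Xt x + Y) * M := by field_simp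
    _ ≤ (Xt y + Y) * (Xt x + Y) *
        (‖Vc x - Vc y‖ ^ 2 / (((Vc y).re + Y - A) * ((Vc x).re + Y - A)) +
          (2 + 64 / (Nn y * Nn x))) := by
        apply mul_le_mul_of_nonneg_left hM2
        have : 0 < Y := by linarith
        positivity
    _ = ((Xt y + Y) / ((Vc y).re + Y - A)) * ((Xt x + Y) / ((Vc x).re + Y - A)) *
          ‖Vc x - Vc y‖ ^ 2 + (Xt y + Y) * (Xt x + Y) * (2 + 64 / (Nn y * Nn x)) := by
        field_simp
    _ ≤ _ := by
        have h1 := hk y hy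
        have h2 := hk x hx
        have h3 : ((Xt y + Y) / ((Vc y).re + Y - A)) * ((Xt x + Y) / ((Vc x).re + Y - A)) ≤
            (Y / (Y - A)) ^ 2 := by
          rw [sq]
          have : 0 < Y := by linarith
          apply mul_le_mul h1 h2 (by positivity) (by positivity)
        have h4 := mul_le_mul_of_nonneg_right h3 (sq_nonneg ‖Vc x - Vc y‖)
        linarith

end Pool.Agent.H25.Vis
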