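import Mathlib
import Pool.Agent.H25.Vis.Path

/-!
# Displacement estimates
-/

open Set Filter Topology MeasureTheory Metric
open scoped ENNReal ComplexConjugate

namespace Pool.Agent.H25.Vis

/-- A holomorphic function with positive real part moves little on small Kobayashi balls. -/
theorem disp_F {F : C2 → ℂ} (hF : DifferentiableOn ℂ F dom) (hpos : ∀ x ∈ dom, 0 < (F x).re)
    {x y : C2} (hx : x ∈ dom) (hy : y ∈ dom) (h : kE dom x y ≤ 8) :
    ‖F x - F y‖ ≤ 9 * (F x).re := by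
  have h1 := sq_le_mul_kE hF hpos hx hy (kobDist_ne_top hx hy)
  have hx0 := hpos x hx
  have hy0 := hpos y hy
  have h2 : (F y).re ≤ (F x).re + ‖F x - F y‖ := by
    have := Complex.abs_re_le_norm (F x - F y)
    rw [Complex.sub_re] at this
    have := (abs_le.mp this).1
    linarith
  set d := ‖F x - F y‖ with hd
  set a := (F x).re with ha
  have hd0 : 0 ≤ d := norm_nonneg _
  have h3 : d ^ 2 ≤ a * (a + d) * 8 := by
    refine h1.trans ?_
    have : a * (F y).re ≤ a * (a + d) := mul_le_mul_of_nonneg_left h2 hx0.le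
    apply mul_le_mul this h (kE_pos _ _ _).le (by positivity)
  by_contra hcon
  push Not at hcon
  nlinarith

/-- Displacement of `w`. -/
theorem disp_w {x y : C2} (hx : x ∈ dom) (hy : y ∈ dom) (h : kE dom x y ≤ 8) :
    ‖x 1 - y 1‖ ≤ 9 * Nn x := by
  obtain ⟨u, hu, hux⟩ : ∃ u : ℂ, ‖u‖ = 1 ∧ u * x 1 = ‖x 1‖ := by
    by_cases h0 : x 1 = 0
    · exact ⟨1, by simp, by simp [h0]⟩
    · have hn : (‖x 1‖ : ℂ) ≠ 0 := by simpa using h0
      refine ⟨‖x 1‖ / x 1, ?_, by field_simp⟩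
      rw [norm_div, Complex.norm_real, norm_norm, div_self (by simpa using h0)]
  have hF : DifferentiableOn ℂ (fun z : C2 => 1 - u * z 1) dom :=
    (((differentiable_coord 1).const_mul u).const_sub 1).differentiableOn
  have hre : ∀ z : C2, 1 - ‖z 1‖ ≤ (1 - u * z 1).re := by
    intro z
    have h1 : (u * z 1).re ≤ ‖z 1‖ := by
      refine (Complex.re_le_norm _).trans ?_
      rw [norm_mul, hu, one_mul]
    rw [Complex.sub_re, Complex.one_re]; linarith
  have h1 := disp_F hF (fun z hz => by have := hre z; have := hz.1; linarith) hx hy h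
  have e1 : 1 - u * x 1 - (1 - u * y 1) = u * (y 1 - x 1) := by ring
  simp only at h1
  rw [e1, norm_mul, hu, one_mul, norm_sub_rev, hux] at h1
  refine h1.trans ?_
  rw [Complex.sub_re, Complex.one_re, Complex.ofReal_re]
  unfold Nn
  nlinarith [norm_nonneg (x 1), hx.1]

/-- The defining function `|w|² + |q|² / Re q - 1`. -/
noncomputable def Ph (z : C2) : ℝ := ‖z 1‖ ^ 2 + ‖z 0‖ ^ 2 / (z 0).re - 1

theorem Ph_neg {z : C2} (hz : z ∈ dom) : Ph z < 0 := by
  have h := hz.2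
  have h0 := re_pos hz
  unfold Ph
  rw [← div_lt_iff₀ h0] at h
  linarith

theorem Vc_re_eq {z : C2} : (Vc z).re = (z 0).re / ‖z 0‖ ^ 2 := by
  rw [Vc, Complex.inv_re, Complex.sq_norm]

theorem norm_Vc (z : C2) : ‖Vc z‖ = 1 / ‖z 0‖ := by rw [Vc, norm_inv, one_div]

theorem neg_Ph {z : C2} (hz : z ∈ dom) : -Ph z = Nn z * Xt z / (Vc z).re := by
  have h0 := re_pos hz
  have hn : 0 < ‖z 0‖ := norm_pos_iff.mpr (z0_ne hz)
  have hN := Nn_pos' hz
  rw [Xt, Vc_re_eq, Ph]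
  have e2 : ‖z 1‖ ^ 2 = 1 - Nn z := by unfold Nn; ring
  rw [e2]
  field_simp
  ring

theorem f_expand {x y a b : ℝ} (hx : 0 < x) (hxa : 0 < x + a) :
    ((x + a) ^ 2 + (y + b) ^ 2) / (x + a) = (x ^ 2 + y ^ 2) / x +
      (a + 2 * y * b / x - y ^ 2 * a / x ^ 2) + (x * b - y * a) ^ 2 / (x ^ 2 * (x + a)) := by
  field_simp
  ring

theorem f_lower {x y a b : ℝ} (hx : 0 < x) (hxa : 0 < x + a) (hxa1 : x + a < 1) :
    (x ^ 2 + y ^ 2) / x + (a + 2 * y * b / x - y ^ 2 * a / x ^ 2) + (x * b - y * a) ^ 2 / x ^ 2 ≤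
      ((x + a) ^ 2 + (y + b) ^ 2) / (x + a) := by
  rw [f_expand hx hxa]
  have h1 : (x * b - y * a) ^ 2 / x ^ 2 ≤ (x * b - y * a) ^ 2 / (x ^ 2 * (x + a)) := by
    apply div_le_div_of_nonneg_left (sq_nonneg _) (by positivity)
    nlinarith [sq_nonneg x]
  linarith

/-- Some point on the complex line at distance `r` is outside. -/
theorem exists_outside {x v : C2} (hx : x ∈ dom) (hv : ‖v‖ = 1) {r : ℝ} (hr : -2 * Ph x ≤ r ^ 2) :
    ∃ u : ℂ, ‖u‖ = 1 ∧ x + (u * r) • v ∉ dom := by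
  by_contra hcon
  push Not at hcon
  have h1 := hcon 1 (by simp)
  have h2 := hcon Complex.I (by simp)
  have h3 := hcon (-1) (by simp)
  have h4 := hcon (-Complex.I) (by simp)
  have g1 := Ph_neg h1
  have g2 := Ph_neg h2
  have g3 := Ph_neg h3
  have g4 := Ph_neg h4
  have p1 := re_pos h1
  have p2 := re_pos h2
  have p3 := re_pos h3
  have p4 := re_pos h4
  have q1 := re_lt_one h1
  have q2 := re_lt_one h2
  have q3 := re_lt_one h3
  have q4 := re_lt_one h4
  have px := re_pos hx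
  have hv2 : (v 0).re ^ 2 + (v 0).im ^ 2 + ((v 1).re ^ 2 + (v 1).im ^ 2) = 1 := by
    have := EuclideanSpace.norm_eq v
    rw [hv] at this
    have h5 : ∑ i, ‖v i‖ ^ 2 = 1 := by
      have h6 : 0 ≤ ∑ i, ‖v i‖ ^ 2 := by positivity
      rw [← Real.sq_sqrt h6, ← this]; norm_num
    rw [Fin.sum_univ_two, Complex.sq_norm, Complex.sq_norm, Complex.normSq_apply,
      Complex.normSq_apply] at h5
    linarith
  simp only [Ph, PiLp.add_apply, PiLp.smul_apply, smul_eq_mul, Complex.sq_norm,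
    Complex.normSq_apply, Complex.add_re, Complex.add_im, Complex.mul_re, Complex.mul_im,
    Complex.ofReal_re, Complex.ofReal_im, Complex.I_re, Complex.I_im,
    Complex.neg_re, Complex.neg_im, mul_zero, zero_mul, sub_zero, add_zero,
    one_mul, zero_add, zero_sub, neg_mul, neg_neg] at g1 g2 g3 g4 p1 p2 p3 p4 q1 q2 q3 q4 hr
  set X := (x 0).re
  set Y := (x 0).im
  set a := r * (v 0).re with ha
  set b := r * (v 0).im with hb
  set c := (x 1).re
  set d := (x 1).im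
  set e := r * (v 1).re with he
  set f := r * (v 1).im with hf
  have hr2 : a ^ 2 + b ^ 2 + (e ^ 2 + f ^ 2) = r ^ 2 := by
    rw [ha, hb, he, hf]; linear_combination r ^ 2 * hv2
  clear_value X Y a b c d e f
  have f1 := f_lower (x := X) (y := Y) (a := a) (b := b) px p1 q1
  have f2 := f_lower (x := X) (y := Y) (a := -b) (b := a) px p2 q2
  have f3 := f_lower (x := X) (y := Y) (a := -a) (b := -b) px p3 q3
  have f4 := f_lower (x := X) (y := Y) (a := b) (b := -a) px p4 q4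
  have hsum : (X * b - Y * a) ^ 2 / X ^ 2 + (X * a - Y * -b) ^ 2 / X ^ 2 +
      (X * -b - Y * -a) ^ 2 / X ^ 2 + (X * -a - Y * b) ^ 2 / X ^ 2 =
      2 * (a ^ 2 + b ^ 2) + 2 * (Y ^ 2 / X ^ 2) * (a ^ 2 + b ^ 2) := by
    field_simp
    ring
  have hnn : 0 ≤ 2 * (Y ^ 2 / X ^ 2) * (a ^ 2 + b ^ 2) := by positivity
  have e1 : ((X + a) * (X + a) + (Y + b) * (Y + b)) / (X + a) =
      ((X + a) ^ 2 + (Y + b) ^ 2) / (X + a) := by ring
  have e2 : ((X + -b) * (X + -b) + (Y + a) * (Y + a)) / (X + -b) =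
      ((X + -b) ^ 2 + (Y + a) ^ 2) / (X + -b) := by ring
  have e3 : ((X + -a) * (X + -a) + (Y + -b) * (Y + -b)) / (X + -a) =
      ((X + -a) ^ 2 + (Y + -b) ^ 2) / (X + -a) := by ring
  have e4 : ((X + b) * (X + b) + (Y + -a) * (Y + -a)) / (X + b) =
      ((X + b) ^ 2 + (Y + -a) ^ 2) / (X + b) := by ring
  have e5 : (X * X + Y * Y) / X = (X ^ 2 + Y ^ 2) / X := by ring
  rw [e1] at g1
  rw [e2] at g2
  rw [e3] at g3
  rw [e4] at g4
  rw [e5] at hr
  have hlin : (a + 2 * Y * b / X - Y ^ 2 * a / X ^ 2) + (-b + 2 * Y * a / X - Y ^ 2 * -b / X ^ 2) +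
      (-a + 2 * Y * -b / X - Y ^ 2 * -a / X ^ 2) + (b + 2 * Y * -a / X - Y ^ 2 * b / X ^ 2) = 0 := by
    ring
  set A1 := ((X + a) ^ 2 + (Y + b) ^ 2) / (X + a)
  set A2 := ((X + -b) ^ 2 + (Y + a) ^ 2) / (X + -b)
  set A3 := ((X + -a) ^ 2 + (Y + -b) ^ 2) / (X + -a)
  set A4 := ((X + b) ^ 2 + (Y + -a) ^ 2) / (X + b)
  set A0 := (X ^ 2 + Y ^ 2) / X
  have hfsum : 4 * A0 + 2 * (a ^ 2 + b ^ 2) ≤ A1 + A2 + A3 + A4 := by linarith
  have k1 : (c + e) * (c + e) + (d + f) * (d + f) + ((c + -f) * (c + -f) + (d + e) * (d + e)) +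
      ((c + -e) * (c + -e) + (d + -f) * (d + -f)) + ((c + f) * (c + f) + (d + -e) * (d + -e)) =
      4 * (c * c + d * d) + 4 * (e ^ 2 + f ^ 2) := by ring
  have hg : A1 + A2 + A3 + A4 + 4 * (c * c + d * d) + 4 * (e ^ 2 + f ^ 2) < 4 := by linarith
  have h9 : 0 ≤ e ^ 2 + f ^ 2 := by positivity
  linarith

/-- Displacement in `ℂ²`. -/
theorem disp {x y : C2} (hx : x ∈ dom) (hy : y ∈ dom) (h : kE dom x y ≤ 8) :
    ‖x - y‖ ≤ 9 * √(2 * -Ph x) := by
  rcases eq_or_ne x y with rfl | hne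
  · simp only [sub_self, norm_zero]; positivity
  have hd0 : 0 < ‖y - x‖ := norm_pos_iff.mpr (sub_ne_zero.mpr hne.symm)
  set d := ‖y - x‖ with hd
  set r := √(2 * -Ph x) with hr
  have hPh := Ph_neg hx
  have hr0 : 0 < r := Real.sqrt_pos.mpr (by linarith)
  have hr2 : r ^ 2 = 2 * -Ph x := Real.sq_sqrt (by linarith)
  set v : C2 := ((d⁻¹ : ℝ) : ℂ) • (y - x) with hv
  have hv1 : ‖v‖ = 1 := by
    rw [hv, norm_smul, Complex.norm_real, Real.norm_of_nonneg (by positivity), ← hd]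
    field_simp
  have hvd : (d : ℂ) • v = y - x := by
    rw [hv, smul_smul, ← Complex.ofReal_mul, mul_inv_cancel₀ hd0.ne', Complex.ofReal_one, one_smul]
  obtain ⟨u, hu, hout⟩ := exists_outside hx hv1 (r := r) (by rw [hr2]; linarith)
  obtain ⟨ℓ, hℓ⟩ := RCLike.geometric_hahn_banach_open_point (𝕜 := ℂ) convex_dom isOpen_dom hout
  set p := x + (u * r) • v with hp
  have hF : DifferentiableOn ℂ (fun z : C2 => ℓ p - ℓ z) dom :=
    (ℓ.differentiable.const_sub _).differentiableOn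
  have hpos : ∀ z ∈ dom, 0 < (ℓ p - ℓ z).re := by
    intro z hz
    have := hℓ z hz
    rw [Complex.sub_re]
    simpa using this
  have h1 := disp_F hF hpos hx hy h
  have e1 : ℓ p - ℓ x = (u * r) * ℓ v := by
    rw [hp, map_add, map_smul, smul_eq_mul]; ring
  have e2 : ℓ p - ℓ x - (ℓ p - ℓ y) = d * ℓ v := by
    rw [← smul_eq_mul, ← map_smul, hvd, map_sub]; ring
  rw [e2, norm_mul, Complex.norm_real, Real.norm_of_nonneg hd0.le] at h1
  have h2 : (ℓ p - ℓ x).re ≤ r * ‖ℓ v‖ := by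
    refine (Complex.re_le_norm _).trans ?_
    rw [e1, norm_mul, norm_mul, hu, Complex.norm_real, Real.norm_of_nonneg hr0.le, one_mul]
  have h3 : 0 < ‖ℓ v‖ := by
    rw [norm_pos_iff]
    intro h0
    have := hpos x hx
    rw [e1, h0, mul_zero] at this
    simp at this
  rw [norm_sub_rev]
  have h4 : d * ‖ℓ v‖ ≤ 9 * r * ‖ℓ v‖ := by linarith
  exact le_of_mul_le_mul_right h4 h3

/-- Upper bound of the defining function by the distance from a base point. -/
theorem neg_Ph_mul_kE_le {y : C2} (hy : y ∈ dom) : ∃ C : ℝ, 0 < C ∧ ∀ x ∈ dom,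
    -Ph x * kE dom y x ≤ C * ‖Vc x‖ ^ 2 := by
  have hXy := Xt_pos hy
  have hm := Nn_pos' hy
  have hm1 := Nn_le_one y
  set m := Nn y with hmdef
  set D := 4 * (1 + ‖Vc y‖) ^ 2 + (1 + 4 / m) * (Xt y + 4 / m) * (2 + 64 / m) with hD
  have hD0 : 0 < D := by positivity
  refine ⟨D / Xt y, by positivity, fun x hx => ?_⟩
  have hXx := Xt_pos hx
  have hn := Nn_pos' hx
  have hn1 := Nn_le_one x
  have hVx := one_lt_Vc_re hx
  have hVeq := Vc_re (z := x)
  have hvX := Complex.re_le_norm (Vc x)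
  rw [neg_Ph hx]
  set n := Nn x with hndef
  set X := (Vc x).re with hX
  set v := ‖Vc x‖ with hv
  have hnX : 1 / n ≤ X := by linarith
  have hA : 0 < 2 / (m * n) := by positivity
  have hp := kE_path hy hx (A := 2 / (m * n)) (Y := 4 / (m * n)) hA
    (by rw [← hmdef]; rw [div_mul_eq_mul_div, le_div_iff₀ (by positivity)]; nlinarith)
    (by rw [← hndef]; rw [div_mul_eq_mul_div, le_div_iff₀ (by positivity)]; nlinarith)
    (by apply div_lt_div_of_pos_right (by norm_num) (by positivity))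
  have hY : 4 / (m * n) / (4 / (m * n) - 2 / (m * n)) = 2 := by
    field_simp; norm_num
  rw [hY, ← hmdef, ← hndef] at hp
  -- the two terms
  have t1 : n / X ≤ 1 := by rw [div_le_one (by linarith)]; linarith
  have t2 : ‖Vc x - Vc y‖ ^ 2 ≤ (1 + ‖Vc y‖) ^ 2 * v ^ 2 := by
    rw [← mul_pow]
    apply pow_le_pow_left₀ (norm_nonneg _)
    refine (norm_sub_le _ _).trans ?_
    have : 0 ≤ ‖Vc y‖ := norm_nonneg _
    nlinarith
  have t3 : n / X * ((Xt y + 4 / (m * n)) * (Xt x + 4 / (m * n)) * (2 + 64 / (m * n))) ≤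
      (1 + 4 / m) * (Xt y + 4 / m) * (2 + 64 / m) * v ^ 2 := by
    have s1 : (Xt x + 4 / (m * n)) / X ≤ 1 + 4 / m := by
      rw [div_le_iff₀ (by linarith)]
      have : 4 / (m * n) = 4 / m * (1 / n) := by field_simp
      rw [this]
      have h4 : 4 / m * (1 / n) ≤ 4 / m * X := mul_le_mul_of_nonneg_left hnX (by positivity)
      have h5 : 0 < 1 / n := by positivity
      nlinarith
    have s2 : n * (Xt y + 4 / (m * n)) ≤ Xt y + 4 / m := by
      have : n * (Xt y + 4 / (m * n)) = n * Xt y + 4 / m := by field_simp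
      rw [this]; nlinarith
    have s3 : 2 + 64 / (m * n) ≤ (2 + 64 / m) * v ^ 2 := by
      have : 64 / (m * n) = 64 / m * (1 / n) := by field_simp
      rw [this]
      have h4 : 1 / n ≤ v ^ 2 := by nlinarith
      have h5 : 64 / m * (1 / n) ≤ 64 / m * v ^ 2 := mul_le_mul_of_nonneg_left h4 (by positivity)
      nlinarith
    calc n / X * ((Xt y + 4 / (m * n)) * (Xt x + 4 / (m * n)) * (2 + 64 / (m * n)))
        = ((Xt x + 4 / (m * n)) / X) * (n * (Xt y + 4 / (m * n))) * (2 + 64 / (m * n)) := by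
          field_simp
      _ ≤ (1 + 4 / m) * (Xt y + 4 / m) * ((2 + 64 / m) * v ^ 2) := by
          apply mul_le_mul _ s3 (by positivity) (by positivity)
          apply mul_le_mul s1 s2 (by positivity) (by positivity)
      _ = _ := by ring
  have hfin : n * Xt x / X * kE dom y x * Xt y ≤ D * v ^ 2 := by
    calc n * Xt x / X * kE dom y x * Xt y = n / X * (kE dom y x * (Xt y * Xt x)) := by
          field_simp
      _ ≤ n / X * (2 ^ 2 * ‖Vc x - Vc y‖ ^ 2 +
          (Xt y + 4 / (m * n)) * (Xt x + 4 / (m * n)) * (2 + 64 / (m * n))) :=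
          mul_le_mul_of_nonneg_left hp (by positivity)
      _ = 4 * (n / X * ‖Vc x - Vc y‖ ^ 2) + n / X *
          ((Xt y + 4 / (m * n)) * (Xt x + 4 / (m * n)) * (2 + 64 / (m * n))) := by ring
      _ ≤ 4 * (1 * ((1 + ‖Vc y‖) ^ 2 * v ^ 2)) +
          (1 + 4 / m) * (Xt y + 4 / m) * (2 + 64 / m) * v ^ 2 := by
          have : n / X * ‖Vc x - Vc y‖ ^ 2 ≤ 1 * ((1 + ‖Vc y‖) ^ 2 * v ^ 2) :=
            mul_le_mul t1 t2 (by positivity) (by norm_num)
          linarith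
      _ = D * v ^ 2 := by rw [hD]; ring
  rw [div_mul_eq_mul_div D, le_div_iff₀ hXy]
  exact hfin

end Pool.Agent.H25.Vis
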