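import Mathlib
import Pool.Agent.H25.Vis.Disp

/-!
# Rays: the easy cases
-/

open Set Filter Topology MeasureTheory Metric
open scoped ENNReal ComplexConjugate

namespace Pool.Agent.H25.Vis

/-- The properties of a geodesic ray which are used in the proof. -/
structure RayData (γ : ℝ → C2) (T : ℝ → ℝ) : Prop where
  mem : ∀ t, 0 ≤ t → γ t ∈ dom
  cont : ContinuousOn γ (Ici 0)
  Tcont : ContinuousOn T (Ici 0)
  T0 : T 0 = 0
  Tmono : MonotoneOn T (Ici 0)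
  Ttop : Tendsto T atTop atTop
  kE_eq : ∀ s t, 0 ≤ s → s ≤ t → kE dom (γ s) (γ t) = Real.exp (2 * (T t - T s))

theorem conv_of_steps {X : Type*} [MetricSpace X] [CompleteSpace X] {γ : ℝ → X} {τ : ℕ → ℝ}
    (hτ : Tendsto τ atTop atTop) {b : ℕ → ℝ} (hb : Summable b)
    (h : ∀ n, ∀ s ∈ Icc (τ n) (τ (n + 1)), dist (γ (τ n)) (γ s) ≤ b n) (hmono : Monotone τ) :
    ∃ p, Tendsto γ atTop (𝓝 p) := by
  have hc : CauchySeq (fun n => γ (τ n)) := by
    refine cauchySeq_of_dist_le_of_summable b (fun n => ?_) hb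
    exact h n _ ⟨hmono (Nat.le_succ n), le_rfl⟩
  obtain ⟨p, hp⟩ := cauchySeq_tendsto_of_complete hc
  refine ⟨p, Metric.tendsto_atTop.mpr fun ε hε => ?_⟩
  obtain ⟨N1, hN1⟩ := (Metric.tendsto_atTop.mp hp) (ε / 2) (by positivity)
  obtain ⟨N2, hN2⟩ := (Metric.tendsto_atTop.mp hb.tendsto_atTop_zero) (ε / 2) (by positivity)
  set N := max N1 N2 with hN
  refine ⟨τ N, fun s hs => ?_⟩
  have hex : ∃ m, s < τ m := (hτ.eventually_gt_atTop s).exists
  classical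
  set m := Nat.find hex with hm
  have hm1 : s < τ m := Nat.find_spec hex
  have hNm : N < m := by
    by_contra hcon
    push Not at hcon
    exact absurd (hmono hcon) (not_le.mpr (lt_of_le_of_lt hs hm1))
  obtain ⟨n, hn⟩ : ∃ n, m = n + 1 := ⟨m - 1, by omega⟩
  have hn1 : τ n ≤ s := by
    have := Nat.find_min hex (m := n) (by omega)
    exact not_lt.mp this
  have hNn : N ≤ n := by omega
  have h1 := h n s ⟨hn1, by rw [← hn]; exact hm1.le⟩
  have h2 := hN1 n (le_trans (le_max_left _ _) hNn)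
  have h3 := hN2 n (le_trans (le_max_right _ _) hNn)
  rw [Real.dist_eq, sub_zero] at h3
  have h4 : b n < ε / 2 := lt_of_le_of_lt (le_abs_self _) h3
  calc dist (γ s) p ≤ dist (γ s) (γ (τ n)) + dist (γ (τ n)) p := dist_triangle _ _ _
    _ < ε := by rw [dist_comm (γ s)]; linarith

namespace RayData

variable {γ : ℝ → C2} {T : ℝ → ℝ}

theorem T_nonneg (h : RayData γ T) {t : ℝ} (ht : 0 ≤ t) : 0 ≤ T t := by
  rw [← h.T0]; exact h.Tmono (mem_Ici.mpr le_rfl) (mem_Ici.mpr ht) ht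

theorem exists_time (h : RayData γ T) {t₀ : ℝ} (ht₀ : 0 ≤ t₀) {c : ℝ} (hc : T t₀ ≤ c) :
    ∃ s, t₀ ≤ s ∧ T s = c := by
  obtain ⟨b, hb1, hb2⟩ : ∃ b, t₀ ≤ b ∧ c ≤ T b :=
    ((eventually_ge_atTop t₀).and (h.Ttop.eventually_ge_atTop c)).exists
  have hcont : ContinuousOn T (Icc t₀ b) :=
    h.Tcont.mono fun x hx => mem_Ici.mpr (ht₀.trans hx.1)
  obtain ⟨s, hs, hs'⟩ := intermediate_value_Icc hb1 hcont ⟨hc, hb2⟩
  exact ⟨s, hs.1, hs'⟩

theorem exists_times (h : RayData γ T) {t₀ : ℝ} (ht₀ : 0 ≤ t₀) :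
    ∃ τ : ℕ → ℝ, τ 0 = t₀ ∧ (∀ n, t₀ ≤ τ n) ∧ (∀ n, T (τ n) = T t₀ + n) ∧ Monotone τ ∧
      Tendsto τ atTop atTop := by
  have hex : ∀ n : ℕ, ∃ s, t₀ ≤ s ∧ T s = T t₀ + n ∧ (n = 0 → s = t₀) := by
    intro n
    rcases Nat.eq_zero_or_pos n with rfl | hn
    · exact ⟨t₀, le_rfl, by simp, fun _ => rfl⟩
    · obtain ⟨s, hs, hs'⟩ := h.exists_time ht₀ (c := T t₀ + n) (by simp)
      exact ⟨s, hs, hs', fun h0 => by omega⟩
  choose τ h1 h2 h3 using hex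
  have hmono : StrictMono τ := by
    refine strictMono_nat_of_lt_succ fun n => ?_
    by_contra hcon
    push Not at hcon
    have := h.Tmono (mem_Ici.mpr (ht₀.trans (h1 (n + 1)))) (mem_Ici.mpr (ht₀.trans (h1 n))) hcon
    rw [h2, h2] at this
    push_cast at this
    linarith
  refine ⟨τ, h3 0 rfl, h1, h2, hmono.monotone, tendsto_atTop.mpr fun B => ?_⟩
  obtain ⟨N, hN⟩ := exists_nat_gt (T (max B 0) - T t₀)
  filter_upwards [eventually_ge_atTop N] with n hn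
  by_contra hcon
  push Not at hcon
  have h5 : τ n ≤ max B 0 := hcon.le.trans (le_max_left _ _)
  have := h.Tmono (mem_Ici.mpr (ht₀.trans (h1 n))) (mem_Ici.mpr (le_max_right B 0)) h5
  rw [h2] at this
  have h6 : (N : ℝ) ≤ n := by exact_mod_cast hn
  linarith

theorem exp_two_le : Real.exp 2 ≤ 8 := by
  have h := Real.exp_one_lt_d9
  have : Real.exp 2 = Real.exp 1 * Real.exp 1 := by rw [← Real.exp_add]; norm_num
  rw [this]
  have h0 := Real.exp_pos 1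
  nlinarith

theorem kE_step (h : RayData γ T) {s t : ℝ} (hs : 0 ≤ s) (hst : s ≤ t) (hT : T t ≤ T s + 1) :
    kE dom (γ s) (γ t) ≤ 8 := by
  rw [h.kE_eq s t hs hst]
  refine le_trans (Real.exp_le_exp.mpr ?_) exp_two_le
  linarith

/-- Displacement along the ray. -/
theorem disp_ray (h : RayData γ T) : ∃ K : ℝ, 0 < K ∧ ∀ s t, 0 ≤ s → s ≤ t → T t ≤ T s + 1 →
    ‖γ s - γ t‖ ≤ K * ‖Vc (γ s)‖ * Real.exp (-T s) := by
  obtain ⟨C, hC, hCx⟩ := neg_Ph_mul_kE_le (h.mem 0 le_rfl)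
  refine ⟨9 * √(2 * C), by positivity, fun s t hs hst hT => ?_⟩
  have h1 := disp (h.mem s hs) (h.mem t (hs.trans hst)) (h.kE_step hs hst hT)
  have h2 := hCx (γ s) (h.mem s hs)
  rw [h.kE_eq 0 s le_rfl hs, h.T0, sub_zero] at h2
  have h3 : -Ph (γ s) ≤ C * ‖Vc (γ s)‖ ^ 2 * Real.exp (-(2 * T s)) := by
    rw [Real.exp_neg, ← div_eq_mul_inv, le_div_iff₀ (Real.exp_pos _)]
    exact h2
  refine h1.trans ?_
  have h4 : √(2 * -Ph (γ s)) ≤ √(2 * C) * ‖Vc (γ s)‖ * Real.exp (-T s) := by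
    apply Real.sqrt_le_iff.mpr
    refine ⟨by positivity, ?_⟩
    rw [mul_pow, mul_pow, Real.sq_sqrt (by positivity), ← Real.exp_nat_mul]
    have e1 : ((2 : ℕ) : ℝ) * -T s = -(2 * T s) := by push_cast; ring
    rw [e1]
    linarith
  calc 9 * √(2 * -Ph (γ s)) ≤ 9 * (√(2 * C) * ‖Vc (γ s)‖ * Real.exp (-T s)) := by linarith
    _ = _ := by ring

/-- First case: `q` is not too small at some time. -/
theorem lands_of_large (h : RayData γ T) {K : ℝ} (hK : 0 < K)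
    (hdisp : ∀ s t, 0 ≤ s → s ≤ t → T t ≤ T s + 1 →
      ‖γ s - γ t‖ ≤ K * ‖Vc (γ s)‖ * Real.exp (-T s))
    {t₀ : ℝ} (ht₀ : 0 ≤ t₀) (hq : 8 * K * Real.exp (-T t₀) ≤ ‖γ t₀ 0‖ ^ 2) : Lands γ := by
  obtain ⟨τ, hτ0, hτ1, hτ2, hτ3, hτ4⟩ := h.exists_times ht₀
  set q₀ := ‖γ t₀ 0‖ with hq₀
  have hq0 : 0 < q₀ := norm_pos_iff.mpr (z0_ne (h.mem t₀ ht₀))
  set e₀ := Real.exp (-T t₀) with he₀
  have he0 : 0 < e₀ := Real.exp_pos _
  set K₀ := 2 * K * e₀ / q₀ with hK₀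
  have hK0 : 0 < K₀ := by positivity
  have hK1 : K₀ ≤ q₀ / 4 := by
    rw [hK₀, div_le_iff₀ hq0]; nlinarith
  have hstep : ∀ n, ‖γ (τ n) 0 - γ (τ 0) 0‖ ≤ K₀ * (2 - 2 * (1 / 2) ^ n) →
      ∀ s ∈ Icc (τ n) (τ (n + 1)), ‖γ (τ n) - γ s‖ ≤ K₀ * (1 / 2) ^ n := by
    intro n hn s hs
    have hτn : 0 ≤ τ n := ht₀.trans (hτ1 n)
    have hsT : T s ≤ T (τ n) + 1 := by
      have := h.Tmono (mem_Ici.mpr (hτn.trans hs.1)) (mem_Ici.mpr (ht₀.trans (hτ1 (n + 1)))) hs.2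
      rw [hτ2] at this ⊢
      push_cast at this
      linarith
    have h1 := hdisp (τ n) s hτn hs.1 hsT
    have h2 : q₀ / 2 ≤ ‖γ (τ n) 0‖ := by
      have h3 : ‖γ (τ n) 0 - γ (τ 0) 0‖ ≤ q₀ / 2 := by
        refine hn.trans ?_
        have : (0 : ℝ) ≤ 2 * (1 / 2) ^ n := by positivity
        nlinarith
      have h4 : ‖γ (τ 0) 0‖ - ‖γ (τ n) 0‖ ≤ ‖γ (τ n) 0 - γ (τ 0) 0‖ := by
        rw [norm_sub_rev]; exact norm_sub_norm_le _ _
      rw [hτ0, ← hq₀] at h4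
      rw [hτ0] at h3
      linarith
    have h5 : ‖Vc (γ (τ n))‖ ≤ 2 / q₀ := by
      rw [norm_Vc, div_le_div_iff₀ (by linarith) hq0]; linarith
    have h6 : Real.exp (-T (τ n)) ≤ e₀ * (1 / 2) ^ n := by
      rw [hτ2, neg_add, Real.exp_add, ← he₀]
      apply mul_le_mul_of_nonneg_left _ he0.le
      have h7 : Real.exp (-(n : ℝ)) = (Real.exp (-1)) ^ n := by
        rw [← Real.exp_nat_mul]; ring_nf
      rw [h7]
      apply pow_le_pow_left₀ (Real.exp_pos _).le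
      rw [Real.exp_neg, one_div]
      apply inv_anti₀ (by norm_num)
      have := Real.add_one_le_exp (1 : ℝ)
      linarith
    calc ‖γ (τ n) - γ s‖ ≤ K * ‖Vc (γ (τ n))‖ * Real.exp (-T (τ n)) := h1
      _ ≤ K * (2 / q₀) * (e₀ * (1 / 2) ^ n) := by
          apply mul_le_mul _ h6 (Real.exp_pos _).le (by positivity)
          exact mul_le_mul_of_nonneg_left h5 hK.le
      _ = K₀ * (1 / 2) ^ n := by rw [hK₀]; ring
  have hind : ∀ n, ‖γ (τ n) 0 - γ (τ 0) 0‖ ≤ K₀ * (2 - 2 * (1 / 2) ^ n) := by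
    intro n
    induction n with
    | zero => simp
    | succ n ih =>
      have h1 := hstep n ih (τ (n + 1)) ⟨hτ3 (Nat.le_succ n), le_rfl⟩
      have h2 : ‖γ (τ (n + 1)) 0 - γ (τ n) 0‖ ≤ ‖γ (τ n) - γ (τ (n + 1))‖ := by
        rw [norm_sub_rev]
        exact PiLp.norm_apply_le (γ (τ n) - γ (τ (n + 1))) 0
      have h3 : γ (τ (n + 1)) 0 - γ (τ 0) 0 =
          (γ (τ (n + 1)) 0 - γ (τ n) 0) + (γ (τ n) 0 - γ (τ 0) 0) := by ring
      rw [h3]
      refine (norm_add_le _ _).trans ?_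
      have h4 : ((1 : ℝ) / 2) ^ (n + 1) = (1 / 2) ^ n / 2 := by rw [pow_succ]; ring
      rw [h4]
      nlinarith
  refine conv_of_steps hτ4 (b := fun n => K₀ * (1 / 2) ^ n) ?_ (fun n s hs => ?_) hτ3
  · exact (summable_geometric_two).mul_left _
  · rw [dist_eq_norm]
    exact hstep n (hind n) s hs

/-- Convergence of the coordinates. -/
theorem lands_of_coord {w : ℂ} (h0 : Tendsto (fun t => γ t 0) atTop (𝓝 0))
    (h1 : Tendsto (fun t => γ t 1) atTop (𝓝 w)) : Lands γ := by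
  refine ⟨WithLp.toLp 2 ![0, w], ?_⟩
  have h2 : Tendsto (fun t => (γ t).ofLp) atTop (𝓝 ![0, w]) := by
    rw [tendsto_pi_nhds]
    intro i
    fin_cases i
    · exact h0
    · exact h1
  exact ((PiLp.continuous_toLp 2 (fun _ : Fin 2 => ℂ)).tendsto ![0, w]).comp h2

theorem tendsto_q (h : RayData γ T) {M : ℝ}
    (hq : ∀ t, 0 ≤ t → ‖γ t 0‖ ^ 2 < M * Real.exp (-T t)) :
    Tendsto (fun t => γ t 0) atTop (𝓝 0) := by
  have h1 : Tendsto (fun t => M * Real.exp (-T t)) atTop (𝓝 0) := by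
    have : Tendsto (fun t => Real.exp (-T t)) atTop (𝓝 0) :=
      Real.tendsto_exp_neg_atTop_nhds_zero.comp h.Ttop
    simpa using this.const_mul M
  have h2 : Tendsto (fun t => ‖γ t 0‖ ^ 2) atTop (𝓝 0) := by
    refine squeeze_zero' (Eventually.of_forall fun t => sq_nonneg _) ?_ h1
    filter_upwards [eventually_ge_atTop 0] with t ht using (hq t ht).le
  have h3 : Tendsto (fun t => ‖γ t 0‖) atTop (𝓝 0) := by
    have := h2.sqrt
    simpa [Real.sqrt_sq] using this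
  exact tendsto_zero_iff_norm_tendsto_zero.mpr h3

/-- Second case: `N` decays. -/
theorem lands_of_small (h : RayData γ T) (hq : Tendsto (fun t => γ t 0) atTop (𝓝 0))
    (hN : ∀ᶠ t in atTop, Nn (γ t) ≤ Real.exp (-T t / 16)) : Lands γ := by
  obtain ⟨t₀, ht₀, hN₀⟩ : ∃ t₀ : ℝ, 0 ≤ t₀ ∧ ∀ t, t₀ ≤ t → Nn (γ t) ≤ Real.exp (-T t / 16) := by
    obtain ⟨a, ha⟩ := eventually_atTop.mp hN
    exact ⟨max a 0, le_max_right _ _, fun t ht => ha t ((le_max_left _ _).trans ht)⟩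
  obtain ⟨τ, -, hτ1, hτ2, hτ3, hτ4⟩ := h.exists_times ht₀
  obtain ⟨w, hw⟩ : ∃ w, Tendsto (fun t => γ t 1) atTop (𝓝 w) := by
    refine conv_of_steps hτ4
      (b := fun n => 9 * Real.exp (-T t₀ / 16) * (Real.exp (-1 / 16)) ^ n) ?_ (fun n s hs => ?_) hτ3
    · refine (summable_geometric_of_lt_one (Real.exp_pos _).le ?_).mul_left _
      rw [Real.exp_lt_one_iff]; norm_num
    · have hτn : 0 ≤ τ n := ht₀.trans (hτ1 n)
      have hsT : T s ≤ T (τ n) + 1 := by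
        have := h.Tmono (mem_Ici.mpr (hτn.trans hs.1)) (mem_Ici.mpr (ht₀.trans (hτ1 (n + 1)))) hs.2
        rw [hτ2] at this ⊢
        push_cast at this
        linarith
      have h1 := disp_w (h.mem _ hτn) (h.mem _ (hτn.trans hs.1)) (h.kE_step hτn hs.1 hsT)
      have h2 := hN₀ (τ n) (hτ1 n)
      rw [dist_eq_norm]
      refine h1.trans ?_
      have h3 : Real.exp (-T (τ n) / 16) = Real.exp (-T t₀ / 16) * (Real.exp (-1 / 16)) ^ n := by
        rw [hτ2, ← Real.exp_nat_mul, ← Real.exp_add]; ring_nf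
      rw [h3] at h2
      linarith
  exact lands_of_coord hq hw

end RayData

end Pool.Agent.H25.Vis
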