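import Mathlib
import Pool.Agent.H25.Vis.Steps

/-!
# Rays: the main case
-/

open Set Filter Topology MeasureTheory Metric
open scoped ENNReal ComplexConjugate

namespace Pool.Agent.H25.Vis

theorem Hs_sub (z₁ z₂ : C2) : Hs (z₁ 1) z₁ - Hs (z₁ 1) z₂ = (Vc z₁ - Vc z₂) +
    2 * conj (z₁ 1) * (z₂ 1 - z₁ 1) / ((1 - ‖z₁ 1‖ ^ 2 : ℝ) : ℂ) ^ 2 := by
  unfold Hs
  rw [sub_self, mul_zero, zero_div]
  ring

theorem norm_Hs_sub {z₁ z₂ : C2} (h₁ : z₁ ∈ dom) (h₂ : z₂ ∈ dom) :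
    ‖Vc z₁ - Vc z₂‖ - 4 / Nn z₁ ^ 2 ≤ ‖Hs (z₁ 1) z₁ - Hs (z₁ 1) z₂‖ := by
  rw [Hs_sub]
  have h := norm_ha_le h₁.1 h₂
  have h3 := norm_sub_le_norm_add (Vc z₁ - Vc z₂)
    (2 * conj (z₁ 1) * (z₂ 1 - z₁ 1) / ((1 - ‖z₁ 1‖ ^ 2 : ℝ) : ℂ) ^ 2)
  unfold Nn
  linarith

theorem re_Hs_le {z₁ z₂ : C2} (h₁ : z₁ ∈ dom) (h₂ : z₂ ∈ dom) :
    (Hs (z₁ 1) z₂).re ≤ (Vc z₂).re + 4 / Nn z₁ ^ 2 := by
  have h := norm_ha_le h₁.1 h₂
  have hN := Nn_pos' h₁
  have h3 := Complex.abs_re_le_norm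
    (2 * conj (z₁ 1) * (z₂ 1 - z₁ 1) / ((1 - ‖z₁ 1‖ ^ 2 : ℝ) : ℂ) ^ 2)
  have h4 := (abs_le.mp (h3.trans h)).1
  have h5 : 0 < 1 / (1 - ‖z₁ 1‖ ^ 2) := by unfold Nn at hN; positivity
  rw [Hs, Complex.sub_re, Complex.sub_re, Complex.ofReal_re]
  unfold Nn
  linarith

theorem LBQ_left {z₁ z₂ : C2} (h₁ : z₁ ∈ dom) (h₂ : z₂ ∈ dom)
    (h : 0 ≤ ‖Vc z₁ - Vc z₂‖ - 4 / Nn z₁ ^ 2) :
    (‖Vc z₁ - Vc z₂‖ - 4 / Nn z₁ ^ 2) ^ 2 ≤
      Xt z₁ * ((Vc z₂).re + 4 / Nn z₁ ^ 2) * kE dom z₁ z₂ := by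
  have h1 := sq_le_mul_kE (differentiableOn_Hs (z₁ 1)) (fun x hx => Hs_re_pos h₁.1 hx) h₁ h₂
    (kobDist_ne_top h₁ h₂)
  rw [Hs_self_re] at h1
  calc (‖Vc z₁ - Vc z₂‖ - 4 / Nn z₁ ^ 2) ^ 2 ≤ ‖Hs (z₁ 1) z₁ - Hs (z₁ 1) z₂‖ ^ 2 :=
        pow_le_pow_left₀ h (norm_Hs_sub h₁ h₂) 2
    _ ≤ _ := h1
    _ ≤ _ := by
        apply mul_le_mul_of_nonneg_right _ (kE_pos _ _ _).le
        exact mul_le_mul_of_nonneg_left (re_Hs_le h₁ h₂) (Xt_pos h₁).le

theorem LBQ_right {z₁ z₂ : C2} (h₁ : z₁ ∈ dom) (h₂ : z₂ ∈ dom)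
    (h : 0 ≤ ‖Vc z₁ - Vc z₂‖ - 4 / Nn z₁ ^ 2) :
    (‖Vc z₁ - Vc z₂‖ - 4 / Nn z₁ ^ 2) ^ 2 ≤
      Xt z₁ * ((Vc z₂).re + 4 / Nn z₁ ^ 2) * kE dom z₂ z₁ := by
  have h1 := sq_le_mul_kE (differentiableOn_Hs (z₁ 1)) (fun x hx => Hs_re_pos h₁.1 hx) h₂ h₁
    (kobDist_ne_top h₂ h₁)
  rw [Hs_self_re, norm_sub_rev, mul_comm (Hs (z₁ 1) z₂).re] at h1
  calc (‖Vc z₁ - Vc z₂‖ - 4 / Nn z₁ ^ 2) ^ 2 ≤ ‖Hs (z₁ 1) z₁ - Hs (z₁ 1) z₂‖ ^ 2 :=
        pow_le_pow_left₀ h (norm_Hs_sub h₁ h₂) 2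
    _ ≤ _ := h1
    _ ≤ _ := by
        apply mul_le_mul_of_nonneg_right _ (kE_pos _ _ _).le
        exact mul_le_mul_of_nonneg_left (re_Hs_le h₁ h₂) (Xt_pos h₁).le

namespace RayData

variable {γ : ℝ → C2} {T : ℝ → ℝ}

theorem tendsto_exp_mul_q (h : RayData γ T) {M : ℝ}
    (hq : ∀ t, 0 ≤ t → ‖γ t 0‖ ^ 2 < M * Real.exp (-T t)) {a : ℝ} (ha : a < 1 / 2) :
    Tendsto (fun t => Real.exp (a * T t) * ‖γ t 0‖) atTop (𝓝 0) := by
  have hM : 0 < M := by
    have := (sq_nonneg ‖γ 0 0‖).trans_lt (hq 0 le_rfl)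
    exact pos_of_mul_pos_left this (Real.exp_pos _).le
  have h1 : Tendsto (fun t => √M * Real.exp ((a - 1 / 2) * T t)) atTop (𝓝 0) := by
    have h2 : Tendsto (fun t => (a - 1 / 2) * T t) atTop atBot :=
      h.Ttop.const_mul_atTop_of_neg (by linarith)
    have := (Real.tendsto_exp_atBot.comp h2).const_mul √M
    simpa using this
  refine squeeze_zero' (Eventually.of_forall fun t => by positivity) ?_ h1
  filter_upwards [eventually_ge_atTop 0] with t ht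
  have h3 : ‖γ t 0‖ ≤ √M * Real.exp (-(1 / 2) * T t) := by
    apply le_of_sq_le_sq _ (by positivity)
    rw [mul_pow, Real.sq_sqrt hM.le, ← Real.exp_nat_mul]
    have e1 : ((2 : ℕ) : ℝ) * (-(1 / 2) * T t) = -T t := by push_cast; ring
    rw [e1]
    exact (hq t ht).le
  calc Real.exp (a * T t) * ‖γ t 0‖ ≤ Real.exp (a * T t) * (√M * Real.exp (-(1 / 2) * T t)) :=
        mul_le_mul_of_nonneg_left h3 (Real.exp_pos _).le
    _ = √M * (Real.exp (a * T t) * Real.exp (-(1 / 2) * T t)) := by ring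
    _ = √M * Real.exp ((a - 1 / 2) * T t) := by rw [← Real.exp_add]; ring_nf

/-- The upper bound function. -/
noncomputable def R1 (γ : ℝ → C2) (T : ℝ → ℝ) (u : ℝ) : ℝ :=
  ((1 - 2 / Nn (γ 0) * Real.exp (-1 / 16 * T u))⁻¹) ^ 2 * (1 + ‖Vc (γ 0)‖ * ‖γ u 0‖) ^ 2 +
    (Xt (γ 0) + Real.exp (1 / 8 * T u)) * (2 + 64 / Nn (γ 0) * Real.exp (1 / 16 * T u)) *
      ‖γ u 0‖ * (1 + Real.exp (1 / 8 * T u) * ‖γ u 0‖)

theorem tendsto_R1 (h : RayData γ T) {M : ℝ}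
    (hq : ∀ t, 0 ≤ t → ‖γ t 0‖ ^ 2 < M * Real.exp (-T t)) :
    Tendsto (R1 γ T) atTop (𝓝 1) := by
  have l0 : Tendsto (fun t => ‖γ t 0‖) atTop (𝓝 0) := by
    simpa using h.tendsto_exp_mul_q hq (a := 0) (by norm_num)
  have l1 := h.tendsto_exp_mul_q hq (a := 1 / 8) (by norm_num)
  have l2 := h.tendsto_exp_mul_q hq (a := 1 / 16) (by norm_num)
  have l3 := h.tendsto_exp_mul_q hq (a := 3 / 16) (by norm_num)
  have l4 : Tendsto (fun t => Real.exp (-1 / 16 * T t)) atTop (𝓝 0) :=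
    Real.tendsto_exp_atBot.comp (h.Ttop.const_mul_atTop_of_neg (by norm_num))
  have t1 : Tendsto (fun u => ((1 - 2 / Nn (γ 0) * Real.exp (-1 / 16 * T u))⁻¹) ^ 2 *
      (1 + ‖Vc (γ 0)‖ * ‖γ u 0‖) ^ 2) atTop (𝓝 1) := by
    have s1 : Tendsto (fun u => 1 - 2 / Nn (γ 0) * Real.exp (-1 / 16 * T u)) atTop (𝓝 1) := by
      simpa using (l4.const_mul (2 / Nn (γ 0))).const_sub 1
    have s2 : Tendsto (fun u => 1 + ‖Vc (γ 0)‖ * ‖γ u 0‖) atTop (𝓝 1) := by
      simpa using (l0.const_mul ‖Vc (γ 0)‖).const_add 1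
    have := ((s1.inv₀ one_ne_zero).pow 2).mul (s2.pow 2)
    simpa using this
  have t2 : Tendsto (fun u => (Xt (γ 0) + Real.exp (1 / 8 * T u)) *
      (2 + 64 / Nn (γ 0) * Real.exp (1 / 16 * T u)) * ‖γ u 0‖) atTop (𝓝 0) := by
    have e : (fun u => (Xt (γ 0) + Real.exp (1 / 8 * T u)) *
      (2 + 64 / Nn (γ 0) * Real.exp (1 / 16 * T u)) * ‖γ u 0‖) = fun u =>
        2 * Xt (γ 0) * ‖γ u 0‖ + 64 / Nn (γ 0) * Xt (γ 0) * (Real.exp (1 / 16 * T u) * ‖γ u 0‖) +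
        2 * (Real.exp (1 / 8 * T u) * ‖γ u 0‖) +
        64 / Nn (γ 0) * (Real.exp (3 / 16 * T u) * ‖γ u 0‖) := by
      funext u
      have : Real.exp (3 / 16 * T u) = Real.exp (1 / 8 * T u) * Real.exp (1 / 16 * T u) := by
        rw [← Real.exp_add]; ring_nf
      rw [this]; ring
    rw [e]
    have := (((l0.const_mul (2 * Xt (γ 0))).add (l2.const_mul (64 / Nn (γ 0) * Xt (γ 0)))).add
      (l1.const_mul 2)).add (l3.const_mul (64 / Nn (γ 0)))
    simpa using this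
  have t3 : Tendsto (fun u => 1 + Real.exp (1 / 8 * T u) * ‖γ u 0‖) atTop (𝓝 1) := by
    simpa using l1.const_add 1
  have := t1.add (t2.mul t3)
  rw [zero_mul, add_zero] at this
  exact this

/-- The main upper bound. -/
theorem upper_R1 (h : RayData γ T) {u : ℝ} (hu : 0 ≤ u)
    (hN : Real.exp (-1 / 16 * T u) < Nn (γ u))
    (hT : 2 / Nn (γ 0) * Real.exp (-1 / 16 * T u) < 1) :
    Real.exp (2 * T u) * (Xt (γ 0) * Xt (γ u)) * ‖γ u 0‖ ^ 2 ≤ R1 γ T u := by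
  have hy := h.mem 0 le_rfl
  have hx := h.mem u hu
  have hTu := h.T_nonneg hu
  have hXy := Xt_pos hy
  have hXx := Xt_pos hx
  have hm := Nn_pos' hy
  have hm1 := Nn_le_one (γ 0)
  have hn := Nn_pos' hx
  have hVx := one_lt_Vc_re hx
  have hXV : Xt (γ u) ≤ ‖Vc (γ u)‖ := by
    have := Complex.re_le_norm (Vc (γ u))
    have e := Vc_re (z := γ u)
    have : 0 < 1 / Nn (γ u) := by positivity
    linarith
  have hq0 : 0 < ‖γ u 0‖ := norm_pos_iff.mpr (z0_ne hx)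
  have hVq : ‖Vc (γ u)‖ * ‖γ u 0‖ = 1 := by rw [norm_Vc]; field_simp
  have hE := h.kE_eq 0 u le_rfl hu
  rw [h.T0, sub_zero] at hE
  set q := ‖γ u 0‖ with hq
  set m := Nn (γ 0) with hmdef
  set e1 := Real.exp (1 / 16 * T u) with he1
  set e2 := Real.exp (1 / 8 * T u) with he2
  have he1p : 0 < e1 := Real.exp_pos _
  have he2p : 0 < e2 := Real.exp_pos _
  have he11 : 1 ≤ e1 := Real.one_le_exp (by positivity)
  have hm1e : Real.exp (-1 / 16 * T u) = e1⁻¹ := by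
    rw [he1, ← Real.exp_neg]; ring_nf
  have hee : e1 * e1 = e2 := by rw [he1, he2, ← Real.exp_add]; ring_nf
  rw [hm1e] at hN hT
  have hNe : 1 < e1 * Nn (γ u) := by
    rw [inv_lt_iff_one_lt_mul₀ he1p] at hN; linarith
  have hAY : 2 / m * e1 < e2 := by
    have : 2 / m * e1⁻¹ * (e1 * e1) < 1 * (e1 * e1) := mul_lt_mul_of_pos_right hT (by positivity)
    have h2 : 2 / m * e1⁻¹ * (e1 * e1) = 2 / m * e1 := by field_simp
    rw [h2, hee, one_mul] at this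
    exact this
  have hp := kE_path hy hx (A := 2 / m * e1) (Y := e2) (by positivity)
    (by rw [← hmdef]; have : 2 / m * e1 * m = 2 * e1 := by field_simp
        rw [this]; linarith)
    (by have h3 : 2 / m * e1 * Nn (γ u) = 2 / m * (e1 * Nn (γ u)) := by ring
        rw [h3]
        have h4 : 2 ≤ 2 / m := by rw [le_div_iff₀ hm]; linarith
        nlinarith)
    hAY
  rw [← hmdef, hE] at hp
  have hq2 : 0 ≤ q ^ 2 := by positivity
  have hp2 := mul_le_mul_of_nonneg_right hp hq2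
  refine hp2.trans ?_
  rw [add_mul, R1, hm1e, ← hq, ← hmdef, ← he1, ← he2]
  apply add_le_add
  · have e3 : e2 / (e2 - 2 / m * e1) = (1 - 2 / m * e1⁻¹)⁻¹ := by
      rw [← hee]
      have h5 : e1 * e1 - 2 / m * e1 = e1 * e1 * (1 - 2 / m * e1⁻¹) := by field_simp
      rw [h5, div_mul_eq_div_div, div_self (by positivity), one_div]
    rw [e3, mul_assoc]
    apply mul_le_mul_of_nonneg_left _ (by positivity)
    rw [← mul_pow]
    apply pow_le_pow_left₀ (by positivity)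
    have h6 : ‖Vc (γ u) - Vc (γ 0)‖ ≤ ‖Vc (γ u)‖ + ‖Vc (γ 0)‖ := norm_sub_le _ _
    calc ‖Vc (γ u) - Vc (γ 0)‖ * q ≤ (‖Vc (γ u)‖ + ‖Vc (γ 0)‖) * q :=
          mul_le_mul_of_nonneg_right h6 hq0.le
      _ = 1 + ‖Vc (γ 0)‖ * q := by rw [add_mul, hVq]
  · have h7 : (Xt (γ u) + e2) * q ≤ 1 + e2 * q := by
      rw [add_mul]
      have : Xt (γ u) * q ≤ ‖Vc (γ u)‖ * q := mul_le_mul_of_nonneg_right hXV hq0.le
      rw [hVq] at this
      linarith
    have h8 : 2 + 64 / (m * Nn (γ u)) ≤ 2 + 64 / m * e1 := by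
      have : 1 / Nn (γ u) ≤ e1 := by rw [div_le_iff₀ hn]; linarith
      have h9 : 64 / (m * Nn (γ u)) = 64 / m * (1 / Nn (γ u)) := by field_simp
      rw [h9]
      have := mul_le_mul_of_nonneg_left this (show 0 ≤ 64 / m by positivity)
      linarith
    calc (Xt (γ 0) + e2) * (Xt (γ u) + e2) * (2 + 64 / (m * Nn (γ u))) * q ^ 2
        = (Xt (γ 0) + e2) * (2 + 64 / (m * Nn (γ u))) * q * ((Xt (γ u) + e2) * q) := by ring
      _ ≤ (Xt (γ 0) + e2) * (2 + 64 / m * e1) * q * (1 + e2 * q) := by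
          apply mul_le_mul _ h7 (by positivity) (by positivity)
          apply mul_le_mul_of_nonneg_right _ hq0.le
          exact mul_le_mul_of_nonneg_left h8 (by positivity)

/-- The lower bound through an intermediate point. -/
theorem lower_mid (h : RayData γ T) {t u : ℝ} (ht : 0 ≤ t) (htu : t ≤ u)
    (h1 : 100 * ‖Vc (γ t)‖ ≤ ‖Vc (γ u)‖) (h2 : 100 * (4 / Nn (γ t) ^ 2) ≤ ‖Vc (γ u)‖)
    (h3 : 100 * (4 / Nn (γ u) ^ 2) ≤ ‖Vc (γ u)‖) :
    ‖Vc (γ u)‖ ^ 2 ≤ 8 * (Xt (γ t) * Xt (γ u) * Real.exp (2 * (T u - T t))) := by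
  have hy := h.mem t ht
  have hx := h.mem u (ht.trans htu)
  have hv1 : 1 < ‖Vc (γ u)‖ := (one_lt_Vc_re hx).trans_le (Complex.re_le_norm _)
  set v := ‖Vc (γ u)‖ with hv
  set D := ‖Vc (γ u) - Vc (γ t)‖ with hD
  have hD1 : 99 / 100 * v ≤ D := by
    have : ‖Vc (γ u)‖ - ‖Vc (γ t)‖ ≤ D := norm_sub_norm_le _ _
    linarith
  have hD2 : D ≤ 101 / 100 * v := by
    have : D ≤ ‖Vc (γ u)‖ + ‖Vc (γ t)‖ := norm_sub_le _ _
    linarith
  have hsub : Icc t u ⊆ Ici 0 := fun s hs => mem_Ici.mpr (ht.trans hs.1)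
  have hcont : ContinuousOn (fun s => ‖Vc (γ s) - Vc (γ t)‖) (Icc t u) := by
    have hc0 : ContinuousOn (fun s => γ s 0) (Icc t u) := by
      have : Continuous fun z : C2 => z 0 := by fun_prop
      exact this.comp_continuousOn (h.cont.mono hsub)
    have hc1 : ContinuousOn (fun s => Vc (γ s)) (Icc t u) :=
      hc0.inv₀ fun s hs => z0_ne (h.mem s (hsub hs))
    exact (hc1.sub continuousOn_const).norm
  have hDmem : D / 2 ∈ Icc ‖Vc (γ t) - Vc (γ t)‖ ‖Vc (γ u) - Vc (γ t)‖ :=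
    ⟨by simp only [sub_self, norm_zero]; positivity, by
      have : D / 2 ≤ D := by linarith [norm_nonneg (Vc (γ u) - Vc (γ t))]
      exact this⟩
  obtain ⟨m, hm, hmD⟩ := intermediate_value_Icc htu hcont hDmem
  have hm0 : 0 ≤ m := ht.trans hm.1
  have hz := h.mem m hm0
  simp only at hmD
  have hVm : (Vc (γ m)).re ≤ D / 2 + ‖Vc (γ t)‖ := by
    refine (Complex.re_le_norm _).trans ?_
    have : ‖Vc (γ m)‖ ≤ ‖Vc (γ m) - Vc (γ t)‖ + ‖Vc (γ t)‖ := by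
      simpa using norm_add_le (Vc (γ m) - Vc (γ t)) (Vc (γ t))
    linarith
  have hVum : D / 2 ≤ ‖Vc (γ u) - Vc (γ m)‖ := by
    have : D ≤ ‖Vc (γ u) - Vc (γ m)‖ + ‖Vc (γ m) - Vc (γ t)‖ := by
      have := norm_add_le (Vc (γ u) - Vc (γ m)) (Vc (γ m) - Vc (γ t))
      rw [sub_add_sub_cancel] at this
      exact this
    linarith
  set a := 4 / Nn (γ t) ^ 2 with ha
  set b := 4 / Nn (γ u) ^ 2 with hb
  have ha0 : 0 < a := by have := Nn_pos' hy; positivity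
  have hb0 : 0 < b := by have := Nn_pos' hx; positivity
  have hXt := Xt_pos hy
  have hXu := Xt_pos hx
  have k1 := LBQ_left hy hz (by rw [← ha, norm_sub_rev, hmD]; linarith)
  have k2 := LBQ_right hx hz (by rw [← hb]; linarith)
  rw [← ha, norm_sub_rev, hmD, h.kE_eq t m ht hm.1] at k1
  rw [← hb, h.kE_eq m u hm0 hm.2] at k2
  have g1 : (485 / 1000 * v) ^ 2 ≤ Xt (γ t) * (526 / 1000 * v) * Real.exp (2 * (T m - T t)) := by
    refine le_trans ?_ (k1.trans ?_)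
    · apply pow_le_pow_left₀ (by positivity); linarith
    · apply mul_le_mul_of_nonneg_right _ (Real.exp_pos _).le
      apply mul_le_mul_of_nonneg_left _ hXt.le
      linarith
  have g2 : (485 / 1000 * v) ^ 2 ≤ Xt (γ u) * (526 / 1000 * v) * Real.exp (2 * (T u - T m)) := by
    refine le_trans ?_ (k2.trans ?_)
    · apply pow_le_pow_left₀ (by positivity); linarith
    · apply mul_le_mul_of_nonneg_right _ (Real.exp_pos _).le
      apply mul_le_mul_of_nonneg_left _ hXu.le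
      linarith
  have g3 := mul_le_mul g1 g2 (by positivity) (by positivity)
  have e1 : Real.exp (2 * (T u - T t)) =
      Real.exp (2 * (T m - T t)) * Real.exp (2 * (T u - T m)) := by
    rw [← Real.exp_add]; ring_nf
  rw [e1]
  set E1 := Real.exp (2 * (T m - T t))
  set E2 := Real.exp (2 * (T u - T m))
  have g4 : v ^ 2 * ((485 / 1000) ^ 4 * v ^ 2) ≤
      v ^ 2 * ((526 / 1000) ^ 2 * (Xt (γ t) * Xt (γ u) * (E1 * E2))) := by
    calc v ^ 2 * ((485 / 1000) ^ 4 * v ^ 2) = (485 / 1000 * v) ^ 2 * (485 / 1000 * v) ^ 2 := by ring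
      _ ≤ _ := g3
      _ = _ := by ring
  have g5 := le_of_mul_le_mul_left g4 (by positivity)
  have g6 : 0 < Xt (γ t) * Xt (γ u) * (E1 * E2) := by positivity
  nlinarith

/-- Third case. -/
theorem lands_of_frequently (h : RayData γ T) {M : ℝ}
    (hq : ∀ t, 0 ≤ t → ‖γ t 0‖ ^ 2 < M * Real.exp (-T t))
    (hN : ∃ᶠ t in atTop, Real.exp (-1 / 16 * T t) < Nn (γ t)) : Lands γ := by
  have hy0 := h.mem 0 le_rfl
  have hX0 := Xt_pos hy0
  set l : Filter ℝ := atTop ⊓ 𝓟 {t | Real.exp (-1 / 16 * T t) < Nn (γ t)} with hl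
  have : l.NeBot := frequently_iff_neBot.mp hN
  have hle : l ≤ atTop := inf_le_left
  have hNl : ∀ᶠ t in l, Real.exp (-1 / 16 * T t) < Nn (γ t) := by
    rw [hl, eventually_inf_principal]; exact Eventually.of_forall fun _ h => h
  have h0l : ∀ᶠ t in l, 0 ≤ t := hle (eventually_ge_atTop 0)
  have hgel : ∀ s : ℝ, ∀ᶠ t in l, s ≤ t := fun s => hle (eventually_ge_atTop s)
  have l0 : Tendsto (fun t => ‖γ t 0‖) l (𝓝 0) := by
    simpa using (h.tendsto_exp_mul_q hq (a := 0) (by norm_num)).mono_left hle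
  have l1 := (h.tendsto_exp_mul_q hq (a := 1 / 8) (by norm_num)).mono_left hle
  have l4 : Tendsto (fun t => Real.exp (-1 / 16 * T t)) l (𝓝 0) :=
    (Real.tendsto_exp_atBot.comp (h.Ttop.const_mul_atTop_of_neg (by norm_num))).mono_left hle
  have hTl : ∀ᶠ t in l, 2 / Nn (γ 0) * Real.exp (-1 / 16 * T t) < 1 := by
    have : Tendsto (fun t => 2 / Nn (γ 0) * Real.exp (-1 / 16 * T t)) l (𝓝 0) := by
      simpa using l4.const_mul (2 / Nn (γ 0))
    exact this.eventually_lt_const one_pos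
  -- the upper bound
  have hup : ∀ᶠ u in l, Real.exp (2 * T u) * (Xt (γ 0) * Xt (γ u)) * ‖γ u 0‖ ^ 2 ≤ R1 γ T u := by
    filter_upwards [hNl, h0l, hTl] with u a b c using h.upper_R1 b a c
  have hR1 : Tendsto (R1 γ T) l (𝓝 1) := (h.tendsto_R1 hq).mono_left hle
  -- constants are small compared with `‖V‖`
  have hconst : ∀ c : ℝ, ∀ᶠ u in l, c ≤ ‖Vc (γ u)‖ := by
    intro c
    have : Tendsto (fun t => c * ‖γ t 0‖) l (𝓝 0) := by simpa using l0.const_mul c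
    filter_upwards [this.eventually_lt_const one_pos, h0l] with u hu hu0
    have hq0 : 0 < ‖γ u 0‖ := norm_pos_iff.mpr (z0_ne (h.mem u hu0))
    rw [norm_Vc, le_div_iff₀ hq0]
    exact hu.le
  have hb : ∀ᶠ u in l, 100 * (4 / Nn (γ u) ^ 2) ≤ ‖Vc (γ u)‖ := by
    have : Tendsto (fun t => 400 * (Real.exp (1 / 8 * T t) * ‖γ t 0‖)) l (𝓝 0) := by
      simpa using l1.const_mul 400
    filter_upwards [this.eventually_lt_const one_pos, h0l, hNl] with u hu hu0 huN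
    have hq0 : 0 < ‖γ u 0‖ := norm_pos_iff.mpr (z0_ne (h.mem u hu0))
    rw [norm_Vc, le_div_iff₀ hq0]
    refine le_trans ?_ hu.le
    have hn := Nn_pos' (h.mem u hu0)
    have e1 : Real.exp (1 / 8 * T u) = (Real.exp (-1 / 16 * T u) ^ 2)⁻¹ := by
      rw [← Real.exp_nat_mul, ← Real.exp_neg]; ring_nf
    have e2 : 1 / Nn (γ u) ^ 2 ≤ Real.exp (1 / 8 * T u) := by
      rw [e1, one_div]
      apply inv_anti₀ (by positivity)
      apply pow_le_pow_left₀ (Real.exp_pos _).le huN.le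
    have e3 : 100 * (4 / Nn (γ u) ^ 2) * ‖γ u 0‖ = 400 * (1 / Nn (γ u) ^ 2 * ‖γ u 0‖) := by ring
    rw [e3]
    have := mul_le_mul_of_nonneg_right e2 hq0.le
    linarith
  -- first stage
  have stage1 : ∀ t, 0 ≤ t → Xt (γ 0) * Real.exp (2 * T t) ≤ 16 * Xt (γ t) := by
    intro t ht
    have hR2 : ∀ᶠ u in l, R1 γ T u ≤ 2 := hR1.eventually_le_const (by norm_num)
    obtain ⟨u, hu1, hu2, hu3, hu4, hu5, hu6, hu7⟩ := (hup.and (hR2.and
      ((hconst (100 * ‖Vc (γ t)‖)).and ((hconst (100 * (4 / Nn (γ t) ^ 2))).and (hb.and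
      ((hgel t).and h0l)))))).exists
    have k := h.lower_mid ht hu6 hu3 hu4 hu5
    have hq0 : 0 < ‖γ u 0‖ := norm_pos_iff.mpr (z0_ne (h.mem u hu7))
    have hXt := Xt_pos (h.mem t ht)
    have k2 := mul_le_mul_of_nonneg_right k (sq_nonneg ‖γ u 0‖)
    rw [← mul_pow, norm_Vc, one_div_mul_cancel hq0.ne', one_pow] at k2
    have e1 : Real.exp (2 * (T u - T t)) = Real.exp (2 * T u) * (Real.exp (2 * T t))⁻¹ := by
      rw [← Real.exp_neg, ← Real.exp_add]; ring_nf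
    rw [e1] at k2
    have k3 := hu1.trans hu2
    set P := Real.exp (2 * T u) with hP
    set Q := Real.exp (2 * T t) with hQ
    have hQ0 : 0 < Q := Real.exp_pos _
    have k4 : Xt (γ 0) * Q ≤ 8 * Xt (γ t) * (P * (Xt (γ 0) * Xt (γ u)) * ‖γ u 0‖ ^ 2) := by
      have := mul_le_mul_of_nonneg_left k2 (show 0 ≤ Xt (γ 0) * Q by positivity)
      rw [mul_one] at this
      refine this.trans (le_of_eq ?_)
      field_simp
    nlinarith [mul_le_mul_of_nonneg_left k3 (show 0 ≤ 8 * Xt (γ t) by positivity)]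
  -- second stage
  have stage2 : ∀ t, 0 ≤ t → Xt (γ 0) * Real.exp (2 * T t) ≤ Xt (γ t) := by
    intro t ht
    have hy := h.mem t ht
    have hXt := Xt_pos hy
    set a := 4 / Nn (γ t) ^ 2 with ha
    have ha0 : 0 < a := by have := Nn_pos' hy; positivity
    -- lower function
    set g : ℝ → ℝ := fun u => (1 - (‖Vc (γ t)‖ + a) * ‖γ u 0‖) ^ 2 *
      (1 + (16 / Xt (γ 0) * Real.exp (-31 / 16 * T u) + 16 * a / Xt (γ 0) *
        Real.exp (-2 * T u)))⁻¹ with hg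
    have hg1 : Tendsto g l (𝓝 1) := by
      have s1 : Tendsto (fun u => 1 - (‖Vc (γ t)‖ + a) * ‖γ u 0‖) l (𝓝 1) := by
        simpa using (l0.const_mul (‖Vc (γ t)‖ + a)).const_sub 1
      have s2 : Tendsto (fun u => Real.exp (-31 / 16 * T u)) l (𝓝 0) :=
        (Real.tendsto_exp_atBot.comp (h.Ttop.const_mul_atTop_of_neg (by norm_num))).mono_left hle
      have s3 : Tendsto (fun u => Real.exp (-2 * T u)) l (𝓝 0) :=
        (Real.tendsto_exp_atBot.comp (h.Ttop.const_mul_atTop_of_neg (by norm_num))).mono_left hle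
      have s4 : Tendsto (fun u => 1 + (16 / Xt (γ 0) * Real.exp (-31 / 16 * T u) +
          16 * a / Xt (γ 0) * Real.exp (-2 * T u))) l (𝓝 1) := by
        simpa using ((s2.const_mul (16 / Xt (γ 0))).add (s3.const_mul (16 * a / Xt (γ 0)))).const_add 1
      have := (s1.pow 2).mul (s4.inv₀ one_ne_zero)
      rw [inv_one, one_pow, mul_one] at this
      exact this
    have hev : ∀ᶠ u in l, g u ≤ Xt (γ t) * (Real.exp (2 * T t))⁻¹ / Xt (γ 0) * R1 γ T u := by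
      filter_upwards [hup, hconst (‖Vc (γ t)‖ + a), hgel t, hNl, h0l]
        with u hu1 hu2 hu3 hu4 hu5
      have hx := h.mem u hu5
      have hXu := Xt_pos hx
      have hn := Nn_pos' hx
      have hq0 : 0 < ‖γ u 0‖ := norm_pos_iff.mpr (z0_ne hx)
      have hVq : ‖Vc (γ u)‖ * ‖γ u 0‖ = 1 := by rw [norm_Vc]; field_simp
      have hVd : ‖Vc (γ u)‖ - ‖Vc (γ t)‖ ≤ ‖Vc (γ t) - Vc (γ u)‖ := by
        rw [norm_sub_rev]; exact norm_sub_norm_le _ _
      have k := LBQ_left hy hx (by rw [← ha]; linarith)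
      rw [← ha, h.kE_eq t u ht hu3] at k
      have e1 : Real.exp (2 * (T u - T t)) = Real.exp (2 * T u) * (Real.exp (2 * T t))⁻¹ := by
        rw [← Real.exp_neg, ← Real.exp_add]; ring_nf
      rw [e1] at k
      set P := Real.exp (2 * T u) with hP
      set Q := Real.exp (2 * T t) with hQ
      have hQ0 : 0 < Q := Real.exp_pos _
      have hP0 : 0 < P := Real.exp_pos _
      -- comparison of `Re V` and `X̃`
      have s1 := stage1 u hu5
      rw [← hP] at s1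
      have hVre : (Vc (γ u)).re + a ≤ Xt (γ u) *
          (1 + (16 / Xt (γ 0) * Real.exp (-31 / 16 * T u) + 16 * a / Xt (γ 0) *
            Real.exp (-2 * T u))) := by
        rw [Vc_re]
        have c1 : 1 / Nn (γ u) ≤ Real.exp (1 / 16 * T u) := by
          have : Real.exp (1 / 16 * T u) = (Real.exp (-1 / 16 * T u))⁻¹ := by
            rw [← Real.exp_neg]; ring_nf
          rw [this, one_div]
          exact inv_anti₀ (Real.exp_pos _) hu4.le
        have c2 : 1 ≤ Xt (γ u) * (16 / Xt (γ 0) * Real.exp (-2 * T u)) := by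
          have e3 : Real.exp (-2 * T u) = P⁻¹ := by rw [hP, ← Real.exp_neg]; ring_nf
          have e4 : Xt (γ u) * (16 / Xt (γ 0) * P⁻¹) = 16 * Xt (γ u) / (Xt (γ 0) * P) := by
            field_simp
          rw [e3, e4, le_div_iff₀ (by positivity)]
          linarith
        have c3 : Real.exp (1 / 16 * T u) ≤
            Xt (γ u) * (16 / Xt (γ 0) * Real.exp (-31 / 16 * T u)) := by
          have e3 : Real.exp (-31 / 16 * T u) = Real.exp (-2 * T u) * Real.exp (1 / 16 * T u) := by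
            rw [← Real.exp_add]; ring_nf
          rw [e3]
          have := mul_le_mul_of_nonneg_right c2 (Real.exp_pos (1 / 16 * T u)).le
          linarith
        have c4 : a ≤ Xt (γ u) * (16 * a / Xt (γ 0) * Real.exp (-2 * T u)) := by
          have := mul_le_mul_of_nonneg_left c2 ha0.le
          calc a = a * 1 := by ring
            _ ≤ _ := this
            _ = _ := by ring
        linarith
      set B := 1 + (16 / Xt (γ 0) * Real.exp (-31 / 16 * T u) + 16 * a / Xt (γ 0) *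
            Real.exp (-2 * T u)) with hB
      have hB0 : 0 < B := by positivity
      have k2 : (‖Vc (γ u)‖ - (‖Vc (γ t)‖ + a)) ^ 2 ≤ Xt (γ t) * (Xt (γ u) * B) * (P * Q⁻¹) := by
        refine le_trans ?_ (k.trans ?_)
        · apply pow_le_pow_left₀ (by linarith); linarith
        · apply mul_le_mul_of_nonneg_right _ (by positivity)
          exact mul_le_mul_of_nonneg_left hVre hXt.le
      have k3 := mul_le_mul_of_nonneg_right k2 (sq_nonneg ‖γ u 0‖)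
      rw [← mul_pow, sub_mul, hVq] at k3
      simp only [hg, ← hB]
      rw [← div_eq_mul_inv, div_le_iff₀ hB0]
      refine k3.trans ?_
      have k4 := mul_le_mul_of_nonneg_left hu1
        (show 0 ≤ Xt (γ t) * Q⁻¹ / Xt (γ 0) * B by positivity)
      calc Xt (γ t) * (Xt (γ u) * B) * (P * Q⁻¹) * ‖γ u 0‖ ^ 2
          = Xt (γ t) * Q⁻¹ / Xt (γ 0) * B * (P * (Xt (γ 0) * Xt (γ u)) * ‖γ u 0‖ ^ 2) := by
            field_simp
        _ ≤ _ := k4
        _ = _ := by ring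
    have hlim := le_of_tendsto_of_tendsto hg1
      (hR1.const_mul (Xt (γ t) * (Real.exp (2 * T t))⁻¹ / Xt (γ 0))) hev
    rw [mul_one, le_div_iff₀ hX0, one_mul, ← div_eq_mul_inv, le_div_iff₀ (Real.exp_pos _)] at hlim
    exact hlim
  -- `w` is constant
  have hw : ∀ t, 0 ≤ t → γ t 1 = γ 0 1 := by
    intro t ht
    have hx := h.mem t ht
    have k1 := le_Hs_re hy0.1 hx
    have k2 := re_le_mul_kE (differentiableOn_Hs (γ 0 1)) (fun x hx => Hs_re_pos hy0.1 hx) hy0 hx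
      (kobDist_ne_top hy0 hx)
    rw [Hs_self_re, h.kE_eq 0 t le_rfl ht, h.T0, sub_zero] at k2
    have k3 := stage2 t ht
    have k4 : ‖γ t 1 - γ 0 1‖ ^ 2 ≤ 0 := by linarith
    have k5 : ‖γ t 1 - γ 0 1‖ = 0 := by
      have := sq_nonneg ‖γ t 1 - γ 0 1‖
      exact pow_eq_zero_iff (two_ne_zero) |>.mp (le_antisymm k4 this)
    exact sub_eq_zero.mp (norm_eq_zero.mp k5)
  refine lands_of_coord (h.tendsto_q hq) (w := γ 0 1) ?_
  refine tendsto_const_nhds.congr' ?_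
  filter_upwards [eventually_ge_atTop 0] with t ht using (hw t ht).symm

/-- Every ray lands. -/
theorem lands (h : RayData γ T) : Lands γ := by
  obtain ⟨K, hK, hdisp⟩ := h.disp_ray
  by_cases hα : ∃ t, 0 ≤ t ∧ 8 * K * Real.exp (-T t) ≤ ‖γ t 0‖ ^ 2
  · obtain ⟨t₀, ht₀, hq⟩ := hα
    exact h.lands_of_large hK hdisp ht₀ hq
  · push Not at hα
    by_cases hN : ∃ᶠ t in atTop, Real.exp (-1 / 16 * T t) < Nn (γ t)
    · exact h.lands_of_frequently hα hN
    · rw [not_frequently] at hN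
      refine h.lands_of_small (h.tendsto_q hα) ?_
      filter_upwards [hN] with t ht
      have := not_lt.mp ht
      refine this.trans (le_of_eq ?_)
      ring_nf

end RayData

end Pool.Agent.H25.Vis
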