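import Mathlib
import Pool.Agent.H25.Vis.Path

/-!
# The domain is not visible
-/

open Set Filter Topology MeasureTheory Metric
open scoped ENNReal ComplexConjugate

namespace Pool.Agent.H25.Vis

/-- The radius of the slice. -/
noncomputable def rr (X : ℝ) : ℝ := √(1 - 1 / X)

theorem rr_sq {X : ℝ} (hX : 2 ≤ X) : rr X ^ 2 = 1 - 1 / X := by
  have : 1 / X ≤ 1 / 2 := one_div_le_one_div_of_le (by norm_num) hX
  exact Real.sq_sqrt (by linarith)

theorem rr_sq_ge {X : ℝ} (hX : 2 ≤ X) : 1 / 2 ≤ rr X ^ 2 := by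
  have : 1 / X ≤ 1 / 2 := one_div_le_one_div_of_le (by norm_num) hX
  rw [rr_sq hX]; linarith

theorem half_lt_rr {X : ℝ} (hX : 2 ≤ X) : 1 / 2 < rr X := by
  have h := rr_sq_ge hX
  have h0 : 0 ≤ rr X := Real.sqrt_nonneg _
  nlinarith

theorem slice_mem {X : ℝ} (hX : 2 ≤ X) {w : ℂ} (hw : ‖w‖ < rr X) : pt X w ∈ dom := by
  have h0 := half_lt_rr hX
  have h1 : ‖w‖ ^ 2 < 1 - 1 / X := by
    rw [← rr_sq hX]; exact pow_lt_pow_left₀ hw (norm_nonneg _) (by norm_num)
  have hX0 : 0 < 1 / X := by positivity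
  refine pt_mem_iff.mpr ⟨by nlinarith [norm_nonneg w], ?_⟩
  rw [Complex.ofReal_re, div_lt_iff₀ (by linarith)]
  have h2 : 1 / X * X = 1 := by field_simp
  nlinarith

/-- `S + r²`. -/
noncomputable def Pf (X : ℝ) (z : C2) : ℂ :=
  ((1 - 2 / X + rr X ^ 2 : ℝ) : ℂ) + ((1 / X ^ 2 : ℝ) : ℂ) * Vc z

/-- The function which restricts to a conformal map of the slice onto the right half plane. -/
noncomputable def Gf (X : ℝ) (z : C2) : ℂ :=
  (Pf X z + 2 * rr X * z 1) / (Pf X z - 2 * rr X * z 1)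

theorem Pf_bound {X : ℝ} (hX : 2 ≤ X) {z : C2} (hz : z ∈ dom) :
    ‖2 * (rr X : ℂ) * z 1‖ < ‖Pf X z‖ := by
  have hr := half_lt_rr hX
  have hV := one_lt_Vc_re hz
  have hN := Nn_pos' hz
  have hXt := Xt_pos hz
  set x := (Vc z).re with hx
  have hre : (Pf X z).re = 1 - 2 / X + rr X ^ 2 + 1 / X ^ 2 * x := by
    rw [Pf, Complex.add_re, Complex.ofReal_re, Complex.re_ofReal_mul]
  have h1 : ‖z 1‖ ^ 2 < 1 - 2 / X + 1 / X ^ 2 * x := by
    have h2 : 1 / Nn z < x := by rw [hx, Vc_re]; linarith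
    have h3 : 1 / x < Nn z := by
      rw [div_lt_iff₀ (by linarith)]
      rw [div_lt_iff₀ hN] at h2
      linarith
    have h4 : 1 / X ^ 2 * x + 1 / x - 2 / X = (x - X) ^ 2 / (x * X ^ 2) := by
      field_simp; ring
    have h5 : 0 ≤ (x - X) ^ 2 / (x * X ^ 2) := by positivity
    unfold Nn at h3
    linarith
  set s := 1 - 2 / X + 1 / X ^ 2 * x with hs
  have hs0 : 0 < s := lt_of_le_of_lt (sq_nonneg _) h1
  have h6 : ‖2 * (rr X : ℂ) * z 1‖ = 2 * rr X * ‖z 1‖ := by
    rw [norm_mul, norm_mul, Complex.norm_ofNat, Complex.norm_real,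
      Real.norm_of_nonneg (by linarith)]
  rw [h6]
  have h7 : 2 * rr X * ‖z 1‖ < s + rr X ^ 2 := by
    have h8 : ‖z 1‖ < √s := by
      rw [Real.lt_sqrt (norm_nonneg _)]; exact h1
    have h9 : √s ^ 2 = s := Real.sq_sqrt hs0.le
    nlinarith [sq_nonneg (√s - rr X)]
  have h10 : s + rr X ^ 2 = (Pf X z).re := by rw [hre, hs]; ring
  rw [h10] at h7
  exact h7.trans_le (Complex.re_le_norm _)

theorem sub_ne_zero_of_norm_lt {a b : ℂ} (h : ‖b‖ < ‖a‖) : a - b ≠ 0 := by
  intro h0
  rw [sub_eq_zero] at h0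
  rw [h0] at h
  exact lt_irrefl _ h

theorem re_div_pos {a b : ℂ} (h : ‖b‖ < ‖a‖) : 0 < ((a + b) / (a - b)).re := by
  have hne := sub_ne_zero_of_norm_lt h
  have h1 : 0 < Complex.normSq (a - b) := Complex.normSq_pos.mpr hne
  have h2 : ((a + b) / (a - b)).re = (‖a‖ ^ 2 - ‖b‖ ^ 2) / Complex.normSq (a - b) := by
    rw [Complex.div_re, Complex.sq_norm, Complex.sq_norm, Complex.normSq_apply a,
      Complex.normSq_apply b]
    simp only [Complex.add_re, Complex.add_im, Complex.sub_re, Complex.sub_im]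
    field_simp
    ring
  rw [h2]
  apply div_pos _ h1
  have := pow_lt_pow_left₀ h (norm_nonneg _) (two_ne_zero)
  linarith

theorem Gf_re_pos {X : ℝ} (hX : 2 ≤ X) {z : C2} (hz : z ∈ dom) : 0 < (Gf X z).re :=
  re_div_pos (Pf_bound hX hz)

theorem differentiableOn_Gf {X : ℝ} (hX : 2 ≤ X) : DifferentiableOn ℂ (Gf X) dom := by
  have h1 : DifferentiableOn ℂ (Pf X) dom := (differentiableOn_Vc.const_mul _).const_add _
  have h2 : DifferentiableOn ℂ (fun z : C2 => 2 * (rr X : ℂ) * z 1) dom :=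
    ((differentiable_coord 1).const_mul _).differentiableOn
  have h3 : DifferentiableOn ℂ (fun z : C2 => (Pf X z + 2 * (rr X : ℂ) * z 1) *
      (Pf X z - 2 * (rr X : ℂ) * z 1)⁻¹) dom :=
    (h1.add h2).mul ((h1.sub h2).inv fun z hz => sub_ne_zero_of_norm_lt (Pf_bound hX hz))
  exact h3.congr fun z _ => by rw [Gf, div_eq_mul_inv]

theorem Pf_slice {X : ℝ} (hX : 2 ≤ X) (w : ℂ) : Pf X (pt X w) = 2 * (rr X : ℂ) ^ 2 := by
  have h1 : Vc (pt X w) = X := by simp [Vc]
  have h2 : (1 - 2 / X + rr X ^ 2 : ℝ) + 1 / X ^ 2 * X = 2 * rr X ^ 2 := by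
    rw [rr_sq hX]; field_simp; ring
  rw [Pf, h1, ← Complex.ofReal_mul, ← Complex.ofReal_add, h2]
  push_cast; ring

theorem Gf_slice {X : ℝ} (hX : 2 ≤ X) (w : ℂ) :
    Gf X (pt X w) = ((rr X : ℂ) + w) / ((rr X : ℂ) - w) := by
  have hr : (rr X : ℂ) ≠ 0 := by
    have := half_lt_rr hX
    exact_mod_cast (by linarith : rr X ≠ 0)
  rw [Gf, Pf_slice hX, pt_one]
  have e1 : 2 * (rr X : ℂ) ^ 2 + 2 * rr X * w = 2 * rr X * (rr X + w) := by ring
  have e2 : 2 * (rr X : ℂ) ^ 2 - 2 * rr X * w = 2 * rr X * (rr X - w) := by ring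
  rw [e1, e2, mul_div_mul_left _ _ (mul_ne_zero two_ne_zero hr)]


/-! ### The slices -/

/-- The direction of the slices (halved). -/
noncomputable def dv : C2 := !₂[0, 1 / 2]

theorem pt_eq (X : ℝ) (w : ℂ) : pt X w = pt X 0 + (2 * w) • dv := by
  ext i
  fin_cases i
  · simp [dv, pt]
  · simp [dv, pt]; ring

/-- The conformal map onto the half plane on the real points of the slice. -/
noncomputable def gs (X x : ℝ) : ℝ := (rr X + x) / (rr X - x)

theorem Gf_pt {X : ℝ} (hX : 2 ≤ X) (x : ℝ) : Gf X (pt X x) = (gs X x : ℂ) := by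
  rw [Gf_slice hX, gs]; push_cast; ring

theorem gs_pos {X x : ℝ} (hx : |x| < rr X) : 0 < gs X x := by
  obtain ⟨h1, h2⟩ := abs_lt.mp hx
  apply div_pos <;> linarith

theorem pt_real_mem {X : ℝ} (hX : 2 ≤ X) {x : ℝ} (hx : |x| < rr X) : pt X x ∈ dom :=
  slice_mem hX (by rwa [Complex.norm_real, Real.norm_eq_abs])

/-- Value of the Kobayashi distance on the real points of the slice. -/
theorem kobDist_slice {X : ℝ} (hX : 2 ≤ X) {x y : ℝ} (hx : |x| < rr X) (hy : |y| < rr X)
    (hxy : x ≤ y) :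
    kobDist dom (pt X x) (pt X y) = ENNReal.ofReal (Real.log (gs X y / gs X x) / 2) := by
  have hr := half_lt_rr hX
  have hr' : 0 < rr X := by linarith
  have hr0 : (rr X : ℂ) ≠ 0 := by exact_mod_cast hr'.ne'
  have gx0 := gs_pos hx
  have gy0 := gs_pos hy
  obtain ⟨hx1, hx2⟩ := abs_lt.mp hx
  obtain ⟨hy1, hy2⟩ := abs_lt.mp hy
  apply le_antisymm
  · have hd : IsDisc dom (fun ζ => pt X (rr X * ζ)) := by
      refine isDisc_pt (differentiableOn_const _) (by fun_prop) fun ζ hζ => slice_mem hX ?_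
      rw [norm_mul, Complex.norm_real, Real.norm_of_nonneg hr'.le]
      have : ‖ζ‖ < 1 := by simpa using hζ
      nlinarith
    set a : ℝ := x / rr X with ha
    set b : ℝ := y / rr X with hb
    have ha0 : -1 < a := by rw [ha, lt_div_iff₀ hr']; linarith
    have ha1 : a < 1 := by rw [ha, div_lt_one hr']; linarith
    have hb0 : -1 < b := by rw [hb, lt_div_iff₀ hr']; linarith
    have hb1 : b < 1 := by rw [hb, div_lt_one hr']; linarith
    have hab : a ≤ b := by rw [ha, hb]; gcongr
    have h := kobDist_disc_le hd (a := (a : ℂ)) (b := (b : ℂ))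
      (by rw [mem_ball_zero_iff, Complex.norm_real, Real.norm_eq_abs, abs_lt]; exact ⟨ha0, ha1⟩)
      (by rw [mem_ball_zero_iff, Complex.norm_real, Real.norm_eq_abs, abs_lt]; exact ⟨hb0, hb1⟩)
    have ea : (fun ζ => pt X (rr X * ζ)) (a : ℂ) = pt X x := by
      simp only [ha]; congr 1; push_cast; field_simp
    have eb : (fun ζ => pt X (rr X * ζ)) (b : ℂ) = pt X y := by
      simp only [hb]; congr 1; push_cast; field_simp
    simp only [ea, eb] at h
    refine h.trans (ENNReal.ofReal_le_ofReal (le_of_eq ?_))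
    have hab1 : 0 < 1 - a * b := by nlinarith
    have e1 : ‖(a : ℂ) - b‖ = b - a := by
      rw [← Complex.ofReal_sub, Complex.norm_real, Real.norm_eq_abs, abs_sub_comm,
        abs_of_nonneg (by linarith)]
    have e2 : ‖1 - conj (a : ℂ) * b‖ = 1 - a * b := by
      rw [Complex.conj_ofReal, ← Complex.ofReal_mul, ← Complex.ofReal_one, ← Complex.ofReal_sub,
        Complex.norm_real, Real.norm_of_nonneg hab1.le]
    have hσ0 : 0 ≤ (b - a) / (1 - a * b) := div_nonneg (by linarith) hab1.le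
    have hσ1 : (b - a) / (1 - a * b) ≤ 1 := by
      rw [div_le_one hab1]; nlinarith
    rw [poincareDist, e1, e2, Real.artanh_eq_half_log ⟨by linarith, hσ1⟩]
    have e3 : (1 + (b - a) / (1 - a * b)) / (1 - (b - a) / (1 - a * b)) = gs X y / gs X x := by
      have hs' : x = a * rr X := by rw [ha]; field_simp
      have ht' : y = b * rr X := by rw [hb]; field_simp
      have h1a : 0 < 1 - a := by linarith
      have h1b : 0 < 1 - b := by linarith
      have h2a : 0 < 1 + a := by linarith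
      have k1 : gs X y = (1 + b) / (1 - b) := by
        rw [gs, ht', div_eq_div_iff (by nlinarith) (by linarith)]; ring
      have k2 : gs X x = (1 + a) / (1 - a) := by
        rw [gs, hs', div_eq_div_iff (by nlinarith) (by linarith)]; ring
      have k3 : 1 + (b - a) / (1 - a * b) = (1 - a) * (1 + b) / (1 - a * b) := by
        rw [eq_div_iff hab1.ne', add_mul, div_mul_cancel₀ _ hab1.ne']; ring
      have k4 : 1 - (b - a) / (1 - a * b) = (1 + a) * (1 - b) / (1 - a * b) := by
        rw [eq_div_iff hab1.ne', sub_mul, div_mul_cancel₀ _ hab1.ne']; ring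
      rw [k1, k2, k3, k4, div_div_div_cancel_right₀ hab1.ne']
      field_simp
    rw [e3]; ring
  · refine le_trans (ENNReal.ofReal_le_ofReal ?_)
      (le_kobDist (differentiableOn_Gf hX) (fun z hz => Gf_re_pos hX hz) (pt X x) (pt X y))
    have h := re_le_re_mul_exp_hd (u := Gf X (pt X x)) (v := Gf X (pt X y))
      (by rw [Gf_pt hX]; simpa using gx0) (by rw [Gf_pt hX]; simpa using gy0)
    have h1 : gs X y / gs X x ≤ Real.exp (hd (Gf X (pt X x)) (Gf X (pt X y))) := by
      rw [div_le_iff₀ gx0, mul_comm]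
      rw [Gf_pt hX, Gf_pt hX, Complex.ofReal_re, Complex.ofReal_re] at h
      rw [Gf_pt hX, Gf_pt hX]
      exact h
    have h2 := (Real.log_le_iff_le_exp (div_pos gy0 gx0)).mpr h1
    linarith

/-- Value of the Kobayashi metric on the real points of the slice. -/
theorem kobMetric_slice {X : ℝ} (hX : 2 ≤ X) {x : ℝ} (hx : |x| < rr X) {c : ℝ} (hc : 0 ≤ c) :
    kobMetric dom (pt X x) (c • dv) = ENNReal.ofReal (c * (rr X / (2 * (rr X ^ 2 - x ^ 2)))) := by
  have hr := half_lt_rr hX
  have hr' : 0 < rr X := by linarith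
  have hr0 : (rr X : ℂ) ≠ 0 := by exact_mod_cast hr'.ne'
  obtain ⟨hx1, hx2⟩ := abs_lt.mp hx
  have hpos : 0 < rr X ^ 2 - x ^ 2 := by nlinarith
  have hcv : c • dv = (c : ℂ) • dv := (Complex.coe_smul c dv).symm
  apply le_antisymm
  · set a : ℝ := x / rr X with ha
    have ha0 : -1 < a := by rw [ha, lt_div_iff₀ hr']; linarith
    have ha1 : a < 1 := by rw [ha, div_lt_one hr']; linarith
    have han : ‖(a : ℂ)‖ < 1 := by
      rw [Complex.norm_real, Real.norm_eq_abs, abs_lt]; exact ⟨ha0, ha1⟩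
    have hd : IsDisc dom (fun ζ => pt X (rr X * mob a ζ)) := by
      refine isDisc_pt (differentiableOn_const _) ((differentiableOn_mob han).const_mul _)
        fun ζ hζ => slice_mem hX ?_
      rw [norm_mul, Complex.norm_real, Real.norm_of_nonneg hr'.le]
      have := mob_mem han (ζ := ζ) (by simpa using hζ)
      nlinarith
    have hder : HasDerivAt (fun ζ => pt X (rr X * mob a ζ))
        ((2 * ((rr X : ℂ) * (1 - (a : ℂ) ^ 2))) • dv) 0 := by
      have h1 : HasDerivAt (mob a) (1 - (a : ℂ) ^ 2) 0 := by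
        have h2 : HasDerivAt (fun ζ : ℂ => (ζ + a) / (1 + conj (a : ℂ) * ζ))
            (((1 : ℂ) * (1 + conj (a : ℂ) * 0) - (0 + a) * (conj (a : ℂ) * 1)) /
              (1 + conj (a : ℂ) * 0) ^ 2) 0 := by
          refine ((hasDerivAt_id (0 : ℂ)).add_const _).div
            (((hasDerivAt_id (0 : ℂ)).const_mul _).const_add _) (by simp)
        have e : ((1 : ℂ) * (1 + conj (a : ℂ) * 0) - (0 + a) * (conj (a : ℂ) * 1)) /
              (1 + conj (a : ℂ) * 0) ^ 2 = 1 - (a : ℂ) ^ 2 := by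
          rw [Complex.conj_ofReal]; simp; ring
        rw [e] at h2
        exact h2
      have e : (fun ζ => pt X (rr X * mob a ζ)) =
          fun ζ => pt X 0 + (2 * ((rr X : ℂ) * mob a ζ)) • dv := funext fun ζ => pt_eq _ _
      rw [e]
      exact (((h1.const_mul (rr X : ℂ)).const_mul 2).smul_const dv).const_add _
    have hc' : 0 < 2 * (rr X * (1 - a ^ 2)) := by
      have : 0 < 1 - a ^ 2 := by nlinarith
      positivity
    refine (iInf_le_of_le (fun ζ => pt X (rr X * mob a ζ))
      (iInf_le_of_le ((c * (2 * (rr X * (1 - a ^ 2)))⁻¹ : ℝ) : ℂ) (iInf_le_of_le ⟨hd, ?_, ?_⟩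
      (ENNReal.ofReal_le_ofReal ?_))))
    · simp only [mob_zero, ha]; congr 1; push_cast; field_simp
    · rw [hder.deriv, smul_smul, hcv]
      congr 1
      have e : (2 * ((rr X : ℂ) * (1 - (a : ℂ) ^ 2))) = ((2 * (rr X * (1 - a ^ 2)) : ℝ) : ℂ) := by
        push_cast; ring
      rw [e, ← Complex.ofReal_mul, mul_assoc, inv_mul_cancel₀ hc'.ne', mul_one]
    · rw [Complex.norm_real, Real.norm_of_nonneg (by positivity)]
      apply mul_le_mul_of_nonneg_left _ hc
      rw [inv_eq_one_div, div_le_div_iff₀ hc' (by positivity)]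
      have hs' : x = a * rr X := by rw [ha]; field_simp
      rw [hs']
      apply le_of_eq; ring
  · refine le_iInf fun φ => le_iInf fun α => le_iInf fun ⟨hφ, hφ0, hα⟩ =>
      ENNReal.ofReal_le_ofReal ?_
    have hxmem := pt_real_mem hX hx
    have hGd : DifferentiableAt ℂ (Gf X) (φ 0) := by
      rw [hφ0]; exact (differentiableOn_Gf hX).differentiableAt (isOpen_dom.mem_nhds hxmem)
    have hφd : DifferentiableAt ℂ φ 0 := hφ.1.differentiableAt (ball_mem_nhds _ one_pos)
    have h1 := schwarz_rhp_deriv (f := Gf X ∘ φ) ((differentiableOn_Gf hX).comp hφ.1 hφ.2)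
      (fun ζ hζ => Gf_re_pos hX (hφ.2 hζ))
    have h2 : deriv (Gf X ∘ φ) 0 = fderiv ℂ (Gf X) (φ 0) (deriv φ 0) :=
      (hGd.hasFDerivAt.comp_hasDerivAt 0 hφd.hasDerivAt).deriv
    rw [h2, Function.comp_apply, hφ0] at h1
    -- the directional derivative
    have h3 : fderiv ℂ (Gf X) (pt X x) dv = ((rr X / (rr X - x) ^ 2 : ℝ) : ℂ) := by
      rw [hφ0] at hGd
      have hline : HasDerivAt (fun ζ : ℂ => pt X x + ζ • dv) dv 0 := by
        have := ((hasDerivAt_id (0 : ℂ)).smul_const dv).const_add (pt X x)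
        rwa [one_smul] at this
      have e0 : pt X x + (0 : ℂ) • dv = pt X x := by simp
      have k1 : HasDerivAt (fun ζ : ℂ => Gf X (pt X x + ζ • dv))
          (fderiv ℂ (Gf X) (pt X x) dv) 0 := by
        have hGd' : HasFDerivAt (Gf X) (fderiv ℂ (Gf X) (pt X x)) (pt X x + (0 : ℂ) • dv) := by
          rw [e0]; exact hGd.hasFDerivAt
        exact hGd'.comp_hasDerivAt 0 hline
      have e1 : (fun ζ : ℂ => Gf X (pt X x + ζ • dv)) =
          fun ζ : ℂ => ((rr X : ℂ) + ((x : ℂ) + ζ / 2)) / ((rr X : ℂ) - ((x : ℂ) + ζ / 2)) := by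
        funext ζ
        rw [← Gf_slice hX, pt_eq X (x : ℂ), pt_eq X ((x : ℂ) + ζ / 2), add_assoc,
          ← add_smul]
        congr 3
        ring
      rw [e1] at k1
      have hne : (rr X : ℂ) - ((x : ℂ) + 0 / 2) ≠ 0 := by
        have : rr X - x ≠ 0 := by linarith
        have h4 : (rr X : ℂ) - ((x : ℂ) + 0 / 2) = ((rr X - x : ℝ) : ℂ) := by
          push_cast; ring
        rw [h4]; exact_mod_cast this
      have hin : HasDerivAt (fun ζ : ℂ => (x : ℂ) + ζ / 2) (1 / 2) 0 :=
        ((hasDerivAt_id (0 : ℂ)).div_const 2).const_add _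
      have k2 := (hin.const_add (rr X : ℂ)).div (hin.const_sub (rr X : ℂ)) hne
      rw [k1.unique k2]
      push_cast
      simp only [zero_div, add_zero]
      congr 1
      ring
    have h4 : Gf X (pt X x) = (gs X x : ℂ) := Gf_pt hX x
    rw [h4, Complex.ofReal_re] at h1
    have h5 : (c : ℂ) * fderiv ℂ (Gf X) (pt X x) dv =
        α * fderiv ℂ (Gf X) (pt X x) (deriv φ 0) := by
      rw [← smul_eq_mul, ← smul_eq_mul, ← map_smul, ← map_smul, hα, hcv]
    have h6 : c * ‖fderiv ℂ (Gf X) (pt X x) dv‖ ≤ ‖α‖ * (2 * gs X x) := by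
      have h7 : c * ‖fderiv ℂ (Gf X) (pt X x) dv‖ = ‖(c : ℂ) * fderiv ℂ (Gf X) (pt X x) dv‖ := by
        rw [norm_mul, Complex.norm_real, Real.norm_of_nonneg hc]
      rw [h7, h5, norm_mul]
      exact mul_le_mul_of_nonneg_left h1 (norm_nonneg _)
    have hd1 : 0 < rr X - x := by linarith
    have hd2 : 0 < rr X + x := by linarith
    rw [h3, Complex.norm_real, Real.norm_of_nonneg (by positivity), gs] at h6
    rw [← mul_div_assoc, div_le_iff₀ (by positivity)]
    rw [← mul_div_assoc, div_le_iff₀ (by positivity)] at h6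
    calc c * rr X ≤ ‖α‖ * (2 * ((rr X + x) / (rr X - x))) * (rr X - x) ^ 2 := h6
      _ = ‖α‖ * (2 * (rr X ^ 2 - x ^ 2)) := by field_simp; ring

/-! ### The segments -/

/-- The segment in the slice. -/
noncomputable def seg (X : ℝ) (s : ℝ) : C2 := pt X ((s / 2 : ℝ) : ℂ)

theorem seg_eq (X s : ℝ) : seg X s = pt X 0 + s • dv := by
  rw [seg, pt_eq, ← Complex.coe_smul s dv]
  congr 2
  push_cast; ring

theorem hasDerivAt_seg (X s : ℝ) : HasDerivAt (seg X) dv s := by
  have h : HasDerivAt (fun s : ℝ => pt X 0 + s • dv) ((1 : ℝ) • dv) s :=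
    ((hasDerivAt_id s).smul_const dv).const_add _
  rw [one_smul] at h
  have e : seg X = fun s : ℝ => pt X 0 + s • dv := funext fun s => seg_eq X s
  rw [e]; exact h

theorem abs_half_lt {X : ℝ} (hX : 2 ≤ X) {s : ℝ} (hs : s ∈ Icc (0 : ℝ) 1) : |s / 2| < rr X := by
  have h := half_lt_rr hX
  rw [abs_of_nonneg (by linarith [hs.1])]
  linarith [hs.2]

/-- The segments are geodesic. -/
theorem isGeodesic_seg {X : ℝ} (hX : 2 ≤ X) : IsGeodesic dom (seg X) 0 1 := by
  have hr := half_lt_rr hX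
  refine ⟨?_, fun t ht => pt_real_mem hX (abs_half_lt hX ht), ?_⟩
  · have hc : ContDiffOn ℝ 1 (seg X) (uIcc 0 1) := by
      have e : seg X = fun s : ℝ => pt X 0 + s • dv := funext fun s => seg_eq X s
      rw [e]
      fun_prop
    exact hc.absolutelyContinuousOnInterval
  · intro s t hs hst ht
    rw [seg, seg, kobDist_slice hX (abs_half_lt hX ⟨hs, hst.trans ht⟩)
      (abs_half_lt hX ⟨hs.trans hst, ht⟩) (by linarith)]
    have h1 : ∫⁻ r in Icc s t, kobMetric dom (seg X r) (deriv (seg X) r) =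
        ∫⁻ r in Icc s t, ENNReal.ofReal (rr X / (2 * (rr X ^ 2 - (r / 2) ^ 2))) := by
      refine setLIntegral_congr_fun measurableSet_Icc fun r hr => ?_
      have h2 := kobMetric_slice hX (abs_half_lt hX ⟨hs.trans hr.1, hr.2.trans ht⟩)
        (c := 1) zero_le_one
      rw [one_smul, one_mul] at h2
      rw [(hasDerivAt_seg X r).deriv, seg, h2]
    have hpos : ∀ r ∈ Icc s t, 0 < rr X ^ 2 - (r / 2) ^ 2 := by
      intro r hr'
      have h2 := hs.trans hr'.1
      have h3 := hr'.2.trans ht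
      nlinarith
    have hcont : ContinuousOn (fun r => rr X / (2 * (rr X ^ 2 - (r / 2) ^ 2))) (Icc s t) := by
      refine continuousOn_const.div (by fun_prop) fun r hr' => ?_
      have := hpos r hr'
      positivity
    have hint : IntegrableOn (fun r => rr X / (2 * (rr X ^ 2 - (r / 2) ^ 2))) (Icc s t) :=
      hcont.integrableOn_Icc
    rw [h1, ← ofReal_integral_eq_lintegral_ofReal hint]
    · congr 1
      rw [integral_Icc_eq_integral_Ioc, ← intervalIntegral.integral_of_le hst]
      have hder : ∀ r ∈ uIcc s t, HasDerivAt (fun r => Real.log (gs X (r / 2)) / 2)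
          (rr X / (2 * (rr X ^ 2 - (r / 2) ^ 2))) r := by
        intro r hr'
        rw [uIcc_of_le hst] at hr'
        have h2 := hs.trans hr'.1
        have h3 := hr'.2.trans ht
        have hin : HasDerivAt (fun r : ℝ => r / 2) (1 / 2) r := (hasDerivAt_id r).div_const 2
        have hd1 : 0 < rr X - r / 2 := by linarith
        have hd2 : 0 < rr X + r / 2 := by linarith
        have k1 := (hin.const_add (rr X)).div (hin.const_sub (rr X)) hd1.ne'
        have k2 := (k1.log (div_pos hd2 hd1).ne').div_const 2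
        refine k2.congr_deriv ?_
        have := hpos r hr'
        have e : rr X ^ 2 - (r / 2) ^ 2 = (rr X - r / 2) * (rr X + r / 2) := by ring
        rw [e]
        simp only [Pi.div_apply]
        field_simp
        ring
      rw [intervalIntegral.integral_eq_sub_of_hasDerivAt hder]
      · have g1 := gs_pos (abs_half_lt hX (s := s) ⟨hs, hst.trans ht⟩)
        have g2 := gs_pos (abs_half_lt hX (s := t) ⟨hs.trans hst, ht⟩)
        rw [Real.log_div g2.ne' g1.ne']
        ring
      · rw [intervalIntegrable_iff_integrableOn_Icc_of_le hst]; exact hint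
    · refine (ae_restrict_iff' measurableSet_Icc).mpr (Eventually.of_forall fun r hr' => ?_)
      have := hpos r hr'
      simp only [Pi.zero_apply]
      positivity

/-! ### A geodesic ray -/

/-- A geodesic ray in a slice. -/
noncomputable def ray (t : ℝ) : C2 := pt (2 : ℝ) ((rr 2 * Real.tanh t : ℝ) : ℂ)

theorem abs_tanh_lt (t : ℝ) : |rr 2 * Real.tanh t| < rr 2 := by
  have hr := half_lt_rr (le_refl (2 : ℝ))
  have h1 := Real.neg_one_lt_tanh t
  have h2 := Real.tanh_lt_one t
  rw [abs_lt]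
  constructor <;> nlinarith

theorem hasDerivAt_ray (t : ℝ) :
    HasDerivAt ray ((2 * (rr 2 * (1 - Real.tanh t ^ 2))) • dv) t := by
  have h1 : HasDerivAt (fun t => 2 * (rr 2 * Real.tanh t)) (2 * (rr 2 * (1 - Real.tanh t ^ 2))) t := by
    refine HasDerivAt.const_mul _ (HasDerivAt.const_mul _ ?_)
    have h2 := (Real.hasDerivAt_sinh t).div (Real.hasDerivAt_cosh t) (Real.cosh_pos t).ne'
    have e : (fun t => Real.sinh t / Real.cosh t) = Real.tanh :=
      funext fun t => (Real.tanh_eq_sinh_div_cosh t).symm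
    have h3 : HasDerivAt Real.tanh ((Real.cosh t * Real.cosh t - Real.sinh t * Real.sinh t) /
        Real.cosh t ^ 2) t := by
      rw [← e]; exact h2
    refine h3.congr_deriv ?_
    rw [Real.tanh_eq_sinh_div_cosh]
    have := (Real.cosh_pos t).ne'
    field_simp
  have e : ray = fun t : ℝ => pt (2 : ℝ) 0 + (2 * (rr 2 * Real.tanh t)) • dv := by
    funext t
    rw [ray, pt_eq, ← Complex.coe_smul (2 * (rr 2 * Real.tanh t)) dv]
    congr 2
    push_cast; ring
  rw [e]
  exact (h1.smul_const dv).const_add _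

theorem gs_tanh (t : ℝ) : gs 2 (rr 2 * Real.tanh t) = Real.exp (2 * t) := by
  have hr := half_lt_rr (le_refl (2 : ℝ))
  have h2 := Real.tanh_lt_one t
  have e1 : gs 2 (rr 2 * Real.tanh t) = (1 + Real.tanh t) / (1 - Real.tanh t) := by
    rw [gs, div_eq_div_iff (by nlinarith) (by linarith)]; ring
  have hc := Real.cosh_pos t
  have e2 : 1 + Real.tanh t = Real.exp t / Real.cosh t := by
    rw [Real.tanh_eq_sinh_div_cosh, ← Real.cosh_add_sinh t]; field_simp
  have e3 : 1 - Real.tanh t = Real.exp (-t) / Real.cosh t := by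
    rw [Real.tanh_eq_sinh_div_cosh, ← Real.cosh_sub_sinh t]; field_simp
  rw [e1, e2, e3, div_div_div_cancel_right₀ hc.ne', ← Real.exp_sub]
  ring_nf

theorem kobDist_ray {s t : ℝ} (hst : s ≤ t) :
    kobDist dom (ray s) (ray t) = ENNReal.ofReal (t - s) := by
  have hr := half_lt_rr (le_refl (2 : ℝ))
  rw [ray, ray, kobDist_slice le_rfl (abs_tanh_lt s) (abs_tanh_lt t), gs_tanh, gs_tanh,
    ← Real.exp_sub, Real.log_exp]
  · congr 1; ring
  · have h : Real.tanh s ≤ Real.tanh t := by
      have h1 := Real.artanh_tanh s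
      have h2 := Real.artanh_tanh t
      rw [← Real.artanh_le_artanh_iff ⟨Real.neg_one_lt_tanh s, Real.tanh_lt_one s⟩
        ⟨Real.neg_one_lt_tanh t, Real.tanh_lt_one t⟩, h1, h2]
      exact hst
    nlinarith

/-- The domain has a geodesic ray. -/
theorem isGeodesicRay_ray : IsGeodesicRay dom ray := by
  have hr := half_lt_rr (le_refl (2 : ℝ))
  constructor
  · intro T hT
    refine ⟨?_, fun t _ => pt_real_mem le_rfl (abs_tanh_lt t), ?_⟩
    · have hc : ContDiffOn ℝ 1 ray (uIcc 0 T) := by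
        have e : ray = fun t : ℝ => pt (2 : ℝ) 0 + (2 * (rr 2 * Real.tanh t)) • dv := by
          funext t
          rw [ray, pt_eq, ← Complex.coe_smul (2 * (rr 2 * Real.tanh t)) dv]
          congr 2
          push_cast; ring
        have h1 : ContDiff ℝ 1 Real.tanh := by
          have e2 : Real.tanh = fun t => Real.sinh t / Real.cosh t :=
            funext fun t => Real.tanh_eq_sinh_div_cosh t
          rw [e2]
          exact Real.contDiff_sinh.div Real.contDiff_cosh fun t => (Real.cosh_pos t).ne'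
        rw [e]
        exact ((contDiff_const.add ((contDiff_const.mul (contDiff_const.mul h1)).smul
          contDiff_const))).contDiffOn
      exact hc.absolutelyContinuousOnInterval
    · intro s t _ hst _
      rw [kobDist_ray hst]
      have h1 : ∀ r, kobMetric dom (ray r) (deriv ray r) = 1 := by
        intro r
        have h0 : 0 < 1 - Real.tanh r ^ 2 := by
          nlinarith [Real.neg_one_lt_tanh r, Real.tanh_lt_one r]
        rw [(hasDerivAt_ray r).deriv, ray, kobMetric_slice le_rfl (abs_tanh_lt r) (by positivity)]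
        have e : 2 * (rr 2 * (1 - Real.tanh r ^ 2)) *
            (rr 2 / (2 * (rr 2 ^ 2 - (rr 2 * Real.tanh r) ^ 2))) = 1 := by
          have e2 : rr 2 ^ 2 - (rr 2 * Real.tanh r) ^ 2 = rr 2 ^ 2 * (1 - Real.tanh r ^ 2) := by
            ring
          rw [e2]
          field_simp
        rw [e, ENNReal.ofReal_one]
      simp only [h1]
      rw [setLIntegral_one, Real.volume_Icc]
  · have h1 : Tendsto (fun t : ℝ => ENNReal.ofReal t) atTop (𝓝 ∞) :=
      ENNReal.tendsto_ofReal_atTop
    refine h1.congr' ?_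
    filter_upwards [eventually_ge_atTop 0] with t ht
    rw [kobDist_ray ht, sub_zero]

theorem frontier_mem {w : ℂ} (hw : ‖w‖ < 1) : (!₂[0, w] : C2) ∈ frontier dom := by
  rw [frontier, Set.mem_sdiff, isOpen_dom.interior_eq]
  constructor
  · have h : Tendsto (fun n : ℕ => pt (n : ℂ) w) atTop (𝓝 (!₂[0, w] : C2)) := by
      have h1 : Tendsto (fun n : ℕ => ![((n : ℂ))⁻¹, w]) atTop (𝓝 ![0, w]) := by
        rw [tendsto_pi_nhds]
        intro i
        fin_cases i
        · exact tendsto_inv_atTop_nhds_zero_nat (𝕜 := ℂ)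
        · exact tendsto_const_nhds
      exact ((PiLp.continuous_toLp 2 (fun _ : Fin 2 => ℂ)).tendsto ![0, w]).comp h1
    refine mem_closure_of_tendsto h ?_
    obtain ⟨N, hN⟩ := exists_nat_gt (1 / (1 - ‖w‖ ^ 2))
    filter_upwards [eventually_ge_atTop N] with n hn
    refine pt_mem_iff.mpr ⟨hw, ?_⟩
    rw [Complex.natCast_re]
    exact hN.trans_le (by exact_mod_cast hn)
  · intro h
    have := re_pos h
    simp at this

/-- The domain is not visible. -/
theorem not_visible_dom : ¬ Visible dom := by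
  intro hV
  have hp : (!₂[0, 0] : C2) ∈ frontier dom := frontier_mem (by simp)
  have hq : (!₂[0, 1 / 2] : C2) ∈ frontier dom := frontier_mem (by norm_num)
  have hne : (!₂[0, 0] : C2) ≠ !₂[0, 1 / 2] := by
    intro h
    have := congrArg (fun z : C2 => z 1) h
    simp at this
  obtain ⟨K, hK, hKd, hKs⟩ := hV _ hp _ hq hne
  have hlim : ∀ c : ℂ, Tendsto (fun k : ℕ => pt (((k : ℝ) + 2 : ℝ) : ℂ) c) atTop
      (𝓝 (!₂[0, c] : C2)) := by
    intro c
    have h1 : Tendsto (fun k : ℕ => ![(((k : ℝ) + 2 : ℝ) : ℂ)⁻¹, c]) atTop (𝓝 ![0, c]) := by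
      rw [tendsto_pi_nhds]
      intro i
      fin_cases i
      · have h2 : Tendsto (fun k : ℕ => ((k : ℝ) + 2)⁻¹) atTop (𝓝 0) :=
          tendsto_inv_atTop_zero.comp
            (tendsto_atTop_add_const_right _ _ tendsto_natCast_atTop_atTop)
        have h3 := (Complex.continuous_ofReal.tendsto 0).comp h2
        refine h3.congr fun k => ?_
        simp
      · exact tendsto_const_nhds
    exact ((PiLp.continuous_toLp 2 (fun _ : Fin 2 => ℂ)).tendsto ![0, c]).comp h1
  have hX : ∀ k : ℕ, (2 : ℝ) ≤ (k : ℝ) + 2 := fun k => by linarith [Nat.cast_nonneg (α := ℝ) k]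
  have hev := hKs (fun k => seg ((k : ℝ) + 2)) (fun k => isGeodesic_seg (hX k))
    (by simpa [seg] using hlim 0) (by simpa [seg] using hlim (1 / 2))
  -- a compact subset of the domain stays away from `q = 0`
  rcases K.eq_empty_or_nonempty with rfl | hKne
  · obtain ⟨k, s, _, hs⟩ := hev.exists
    exact hs
  · have hcont : ContinuousOn (fun z : C2 => (z 0).re) K := by
      have : Continuous fun z : C2 => (z 0).re := Complex.continuous_re.comp (by fun_prop)
      exact this.continuousOn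
    obtain ⟨z₀, hz₀, hmin⟩ := hK.exists_isMinOn hKne hcont
    have hpos := re_pos (hKd hz₀)
    have h2 : Tendsto (fun k : ℕ => ((k : ℝ) + 2)⁻¹) atTop (𝓝 0) :=
      tendsto_inv_atTop_zero.comp
        (tendsto_atTop_add_const_right _ _ tendsto_natCast_atTop_atTop)
    obtain ⟨k, ⟨s, hs1, hs2⟩, hk⟩ := (hev.and (h2.eventually_lt_const hpos)).exists
    have h3 : (z₀ 0).re ≤ (seg ((k : ℝ) + 2) s 0).re := hmin hs2
    rw [seg, pt_zero, ← Complex.ofReal_inv, Complex.ofReal_re] at h3
    linarith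

end Pool.Agent.H25.Vis
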