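import Mathlib
import Pool.Agent.H25.Vis.Main

/-!
# Geodesic rays of the domain land
-/

open Set Filter Topology MeasureTheory Metric
open scoped ENNReal ComplexConjugate

namespace Pool.Agent.H25.Vis

theorem kR_near {Ω : Set C2} {x : C2} {δ : ℝ} (hδ : 0 < δ) (hball : ball x δ ⊆ Ω) {y : C2}
    (hy : ‖y - x‖ < δ) :
    kR Ω x y ≤ Real.log ((1 + ‖y - x‖ / δ) / (1 - ‖y - x‖ / δ)) / 2 ∧
    kR Ω y x ≤ Real.log ((1 + ‖y - x‖ / δ) / (1 - ‖y - x‖ / δ)) / 2 := by
  have hx : x ∈ Ω := hball (mem_ball_self hδ)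
  rcases eq_or_ne y x with rfl | hne
  · simp [kR, kobDist_self hx]
  have hd0 : 0 < ‖y - x‖ := norm_pos_iff.mpr (sub_ne_zero.mpr hne)
  set d := ‖y - x‖ with hd
  have hdisc : IsDisc Ω (fun ζ : ℂ => x + (ζ * (δ / d : ℝ)) • (y - x)) := by
    refine ⟨by fun_prop, fun ζ hζ => hball ?_⟩
    rw [mem_ball_iff_norm, add_sub_cancel_left, norm_smul, norm_mul, Complex.norm_real,
      Real.norm_of_nonneg (by positivity), ← hd]
    have h1 : ‖ζ‖ < 1 := by simpa using hζ
    have h2 : ‖ζ‖ * (δ / d) * d = ‖ζ‖ * δ := by field_simp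
    rw [h2]
    nlinarith
  have hσ : ‖((d / δ : ℝ) : ℂ)‖ = d / δ := by
    rw [Complex.norm_real, Real.norm_of_nonneg (by positivity)]
  have hσ1 : ‖((d / δ : ℝ) : ℂ)‖ < 1 := by rw [hσ, div_lt_one hδ]; exact hy
  have e0 : x + ((0 : ℂ) * (δ / d : ℝ)) • (y - x) = x := by simp
  have e1 : x + (((d / δ : ℝ) : ℂ) * (δ / d : ℝ)) • (y - x) = y := by
    rw [← Complex.ofReal_mul]
    have : d / δ * (δ / d) = 1 := by field_simp
    rw [this]; simp
  have k1 := KB.disc hdisc hσ1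
  have k2 := KB.disc' hdisc hσ1
  simp only [e0, e1, hσ] at k1 k2
  have hB : 1 ≤ (1 + d / δ) / (1 - d / δ) := k1.1
  have h0 : 0 ≤ Real.log ((1 + d / δ) / (1 - d / δ)) / 2 := by
    have := Real.log_nonneg hB; positivity
  constructor
  · have := ENNReal.toReal_mono ENNReal.ofReal_ne_top k1.2
    rwa [ENNReal.toReal_ofReal h0] at this
  · have := ENNReal.toReal_mono ENNReal.ofReal_ne_top k2.2
    rwa [ENNReal.toReal_ofReal h0] at this

theorem setLIntegral_Icc_add {f : ℝ → ℝ≥0∞} {a b c : ℝ} (hab : a ≤ b) (hbc : b ≤ c) :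
    ∫⁻ r in Icc a c, f r = (∫⁻ r in Icc a b, f r) + ∫⁻ r in Icc b c, f r := by
  rw [setLIntegral_congr (Ioc_ae_eq_Icc (μ := volume) (a := b) (b := c)).symm,
    ← lintegral_union measurableSet_Ioc, Icc_union_Ioc_eq_Icc hab hbc]
  rw [Set.disjoint_left]
  intro x hx hx'
  exact absurd hx.2 (not_le.mpr hx'.1)

theorem IsGeodesicRay.rayData {γ : ℝ → C2} (h : IsGeodesicRay dom γ) :
    RayData γ (fun t => kR dom (γ 0) (γ t)) := by
  have hmem : ∀ t, 0 ≤ t → γ t ∈ dom := fun t ht => (h.geodesic t ht).mem t ⟨ht, le_rfl⟩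
  have hcont : ContinuousOn γ (Ici 0) := by
    intro x hx
    have hx0 : 0 ≤ x := hx
    have h1 := (h.geodesic (x + 1) (by linarith)).ac.continuousOn
    rw [uIcc_of_le (by linarith)] at h1
    have h2 := h1 x ⟨hx0, by linarith⟩
    refine h2.mono_of_mem_nhdsWithin ?_
    rw [← Ici_inter_Iic]
    exact inter_mem_nhdsWithin _ (Iic_mem_nhds (by linarith))
  have hadd : ∀ s t u, 0 ≤ s → s ≤ t → t ≤ u →
      kobDist dom (γ s) (γ u) = kobDist dom (γ s) (γ t) + kobDist dom (γ t) (γ u) := by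
    intro s t u hs hst htu
    have hg := h.geodesic u (hs.trans (hst.trans htu))
    rw [← hg.length_eq s u hs (hst.trans htu) le_rfl, ← hg.length_eq s t hs hst htu,
      ← hg.length_eq t u (hs.trans hst) htu le_rfl]
    exact setLIntegral_Icc_add hst htu
  have hfin : ∀ s t, 0 ≤ s → 0 ≤ t → kobDist dom (γ s) (γ t) ≠ ∞ :=
    fun s t hs ht => kobDist_ne_top (hmem s hs) (hmem t ht)
  have hkR : ∀ s t, 0 ≤ s → s ≤ t →
      kR dom (γ s) (γ t) = kR dom (γ 0) (γ t) - kR dom (γ 0) (γ s) := by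
    intro s t hs hst
    have h1 := hadd 0 s t le_rfl hs hst
    have h2 : kR dom (γ 0) (γ t) = kR dom (γ 0) (γ s) + kR dom (γ s) (γ t) := by
      unfold kR
      rw [h1, ENNReal.toReal_add (hfin 0 s le_rfl hs) (hfin s t hs (hs.trans hst))]
    linarith
  refine ⟨hmem, hcont, ?_, ?_, ?_, ?_, ?_⟩
  · -- continuity of `T`
    intro s hs
    have hs0 : 0 ≤ s := hs
    obtain ⟨δ, hδ, hball⟩ := Metric.isOpen_iff.mp isOpen_dom (γ s) (hmem s hs0)
    have hc : Tendsto (fun t => ‖γ t - γ s‖) (𝓝[Ici 0] s) (𝓝 0) := by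
      have := ((hcont s hs).sub_const (γ s)).norm
      simpa using this
    have hlim : Tendsto (fun t => Real.log ((1 + ‖γ t - γ s‖ / δ) / (1 - ‖γ t - γ s‖ / δ)) / 2)
        (𝓝[Ici 0] s) (𝓝 0) := by
      have h1 : Tendsto (fun t => 1 + ‖γ t - γ s‖ / δ) (𝓝[Ici 0] s) (𝓝 1) := by
        simpa using (hc.div_const δ).const_add 1
      have h2 : Tendsto (fun t => 1 - ‖γ t - γ s‖ / δ) (𝓝[Ici 0] s) (𝓝 1) := by
        simpa using (hc.div_const δ).const_sub 1
      have h3 := ((h1.div h2 one_ne_zero).log (by norm_num)).div_const 2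
      simpa using h3
    rw [ContinuousWithinAt, tendsto_iff_norm_sub_tendsto_zero]
    refine squeeze_zero' (Eventually.of_forall fun t => norm_nonneg _) ?_ hlim
    filter_upwards [hc.eventually_lt_const hδ, self_mem_nhdsWithin] with t ht ht0
    have ht0' : 0 ≤ t := ht0
    obtain ⟨k1, k2⟩ := kR_near hδ hball ht
    rw [Real.norm_eq_abs]
    rcases le_total s t with hst | hst
    · rw [← hkR s t hs0 hst, abs_of_nonneg (kR_nonneg _ _ _)]; exact k1
    · rw [abs_sub_comm, ← hkR t s ht0' hst, abs_of_nonneg (kR_nonneg _ _ _)]; exact k2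
  · simp [kR, kobDist_self (hmem 0 le_rfl)]
  · intro s hs t ht hst
    have := hkR s t hs hst
    have h0 := kR_nonneg dom (γ s) (γ t)
    simp only
    linarith
  · rw [Filter.tendsto_atTop]
    intro B
    have h1 := (ENNReal.tendsto_nhds_top_iff_nnreal.mp h.tendsto_top) (Real.toNNReal B)
    filter_upwards [h1, eventually_ge_atTop 0] with t ht ht0
    have h2 := (ENNReal.toReal_lt_toReal ENNReal.coe_ne_top (hfin 0 t le_rfl ht0)).mpr ht
    rw [ENNReal.coe_toReal] at h2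
    exact (Real.le_coe_toNNReal B).trans h2.le
  · intro s t hs hst
    rw [kE, hkR s t hs hst]

/-- Every geodesic ray of the domain lands. -/
theorem lands_dom {γ : ℝ → C2} (h : IsGeodesicRay dom γ) : Lands γ := h.rayData.lands

end Pool.Agent.H25.Vis
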